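import Pool.Agent.Lib.HC.MJ
import Pool.Agent.Lib.HB.FI

/-!
# HC / FJ (140 lines): first moment of the blocks

PROOF.  Copy of `HB/FI.lean` (`firstH`; copy its private lemmas) with `momentJ`.  `p = k (k+1)`: `(∑ x n)^p ≤ N^(p-2) (∑ x n^s)^2 ≤ C N^ε' H^(p+ε') N^p (1/N + Z)`,
`Z = H N^(2/3) (t/N^k)^(4/3)/N^2`.  `t H^(k+1) ≤ N^(k+1)` gives `H ≤ N t^(-1/(k+1))`, so with `u = t/N^(k+1)`:
`Z ≤ N t^(-1/(k+1)) N^(-4/3) (N u)^(4/3)/N... = u^(4/3 - 1/(k+1)) = u^((4k+1)/(3(k+1)))` (check: `t/N^k = N u`, `N^(2/3) (N u)^(4/3) = N^2 u^(4/3)`,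
`H ≤ N t^(-1/(k+1)) = u^(-1/(k+1))`).  `p`-th root, `(a + b)^(1/p) ≤ a^(1/p) + b^(1/p)`; exponent of `u`: `(4k+1)/(3(k+1)) / (k(k+1))`.
-/

set_option autoImplicit false

namespace Pool.Agent.Lib.HC

open Finset Pool.Agent.Lib.ZB Pool.Agent.Lib.HB

private theorem FJ_pm (x : ℕ → ℝ) (hx : ∀ n, 0 ≤ x n) (N M s : ℕ) (hM : M ≤ 2 * N) (hs : 1 ≤ s) :
    (∑ n ∈ Ioc N M, x n) ^ s ≤ (N : ℝ) ^ (s - 1) * ∑ n ∈ Ioc N M, x n ^ s := by
  obtain ⟨r, rfl⟩ : ∃ r, s = r + 1 := ⟨s - 1, by omega⟩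
  have hpos : 0 ≤ ∑ n ∈ Ioc N M, x n ^ (r + 1) := Finset.sum_nonneg fun n _ => pow_nonneg (hx n) _
  rw [Nat.add_sub_cancel]
  rcases (Ioc N M).eq_empty_or_nonempty with h | h
  · rw [h]
    simp
  · have h1 := pow_sum_div_card_le_sum_pow (s := Ioc N M) (f := x) (fun i _ => hx i) r
    have hc : (0 : ℝ) < ((Ioc N M).card : ℝ) := by exact_mod_cast h.card_pos
    rw [div_le_iff₀ (by positivity)] at h1
    have h2 : ((Ioc N M).card : ℝ) ≤ N := by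
      rw [Nat.card_Ioc]
      exact_mod_cast (by omega : M - N ≤ N)
    calc (∑ n ∈ Ioc N M, x n) ^ (r + 1) ≤ (∑ n ∈ Ioc N M, x n ^ (r + 1)) * ((Ioc N M).card : ℝ) ^ r := h1
      _ ≤ (∑ n ∈ Ioc N M, x n ^ (r + 1)) * (N : ℝ) ^ r :=
        mul_le_mul_of_nonneg_left (pow_le_pow_left₀ hc.le h2 r) hpos
      _ = _ := mul_comm _ _

private theorem FJ_log {N : ℕ} (hN : 1 ≤ N) {δ : ℝ} (hδ : 0 < δ) :
    1 + Real.log N ≤ (1 + 1 / δ) * (N : ℝ) ^ δ := by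
  have h1 := Real.log_le_rpow_div (x := (N : ℝ)) (Nat.cast_nonneg N) hδ
  have h2 : (1 : ℝ) ≤ (N : ℝ) ^ δ := Real.one_le_rpow (by exact_mod_cast hN) hδ.le
  have h3 : (1 + 1 / δ) * (N : ℝ) ^ δ = (N : ℝ) ^ δ + (N : ℝ) ^ δ / δ := by ring
  rw [h3]
  linarith

theorem firstJ (hV : VMV) (k : ℕ) (hk : 3 ≤ k) {ε : ℝ} (hε : 0 < ε) : ∃ C : ℝ, 0 ≤ C ∧
    ∀ (N M H : ℕ) (t : ℝ), 1 ≤ N → M ≤ 2 * N → 1 ≤ H → H ≤ N → (N : ℝ) ^ k ≤ t →
      t * (H : ℝ) ^ (k + 1) ≤ (N : ℝ) ^ (k + 1) → (N : ℝ) ^ (k + 1) ≤ t * (2 * (H : ℝ)) ^ (k + 1) →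
      ∀ w : ℕ → ℂ, (∀ h, ‖w h‖ ≤ 1) →
      ∑ n ∈ Ioc N M, ‖∑ h ∈ range H, w h * e (ph k (cz t n) h)‖ ≤
        C * (H : ℝ) * (N : ℝ) ^ (1 + ε) *
          ((t / (N : ℝ) ^ (k + 1)) ^ ((4 * (k : ℝ) + 1) / (3 * (k + 1)) / (k * (k + 1))) +
            (N : ℝ) ^ (-(1 / ((k : ℝ) * (k + 1))))) := by
  obtain ⟨C, hC, hmom⟩ := momentJ hV k hk (ε := ε / 2) (by positivity)
  set A : ℝ := C * (1 + 1 / (ε / 2)) with hA
  have hA0 : 0 ≤ A := by positivity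
  set c : ℝ := 1 / ((k : ℝ) * (k + 1)) with hc
  have hk0 : (0 : ℝ) < k := by exact_mod_cast (by omega : 0 < k)
  have hc0 : 0 < c := by positivity
  have hk2 : (3 : ℝ) ≤ k := by exact_mod_cast hk
  have hc1 : c ≤ 1 := by
    rw [hc, div_le_one (by positivity)]
    nlinarith
  refine ⟨A ^ c, by positivity, ?_⟩
  intro N M H t hN hM hH hHN ht h1 h2 w hw
  have hm := hmom N M H t hN hM hH ht h1 h2 w hw
  have hN0 : (0 : ℝ) < N := by exact_mod_cast hN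
  have hN1 : (1 : ℝ) ≤ N := by exact_mod_cast hN
  have hH0 : (0 : ℝ) < H := by exact_mod_cast hH
  have hH1 : (1 : ℝ) ≤ H := by exact_mod_cast hH
  have hHN' : (H : ℝ) ≤ N := by exact_mod_cast hHN
  have ht0 : 0 < t := lt_of_lt_of_le (by positivity) ht
  set K : ℕ := k * (k + 1) with hK
  obtain ⟨s, hs⟩ : ∃ s, K = s + s := by
    have := Nat.even_mul_succ_self k
    exact this
  have hs' : K / 2 = s := by omega
  rw [hs'] at hm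
  have hK6 : 6 ≤ K := by
    rw [hK]
    nlinarith
  have hs1 : 1 ≤ s := by omega
  set x : ℕ → ℝ := fun n => ‖∑ h ∈ range H, w h * e (ph k (cz t n) h)‖ with hx
  have hx0 : ∀ n, 0 ≤ x n := fun n => norm_nonneg _
  set S : ℝ := ∑ n ∈ Ioc N M, x n with hS
  have hS0 : 0 ≤ S := Finset.sum_nonneg fun n _ => hx0 n
  change (∑ n ∈ Ioc N M, x n ^ s) ^ 2 ≤ _ at hm
  have hpm := FJ_pm x hx0 N M s hM hs1
  set u : ℝ := t / (N : ℝ) ^ (k + 1) with hu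
  have hu0 : 0 < u := by positivity
  set Y : ℝ := 1 / (N : ℝ) + H * u ^ (4 / 3 : ℝ) with hY
  have hY0 : 0 ≤ Y := by positivity
  have hKr : ((K : ℕ) : ℝ) = (k : ℝ) * (k + 1) := by
    rw [hK]
    push_cast
    ring
  have hcK : c = ((K : ℕ) : ℝ)⁻¹ := by rw [hKr, hc, one_div]
  -- the power inequality
  have hpow : S ^ K ≤ A * (N : ℝ) ^ ε * ((H : ℝ) * N) ^ K * Y := by
    have e1 : S ^ K = (S ^ s) ^ 2 := by rw [← pow_mul, hs]; congr 1; ring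
    have e2 : (S ^ s) ^ 2 ≤ ((N : ℝ) ^ (s - 1) * ∑ n ∈ Ioc N M, x n ^ s) ^ 2 :=
      pow_le_pow_left₀ (by positivity) hpm 2
    have e3 : ((N : ℝ) ^ (s - 1) * ∑ n ∈ Ioc N M, x n ^ s) ^ 2 ≤
        ((N : ℝ) ^ (s - 1)) ^ 2 * (C * (1 + Real.log N) * (H : ℝ) ^ (((K : ℕ) : ℝ) + ε / 2) *
          ((N : ℝ) + H * (N : ℝ) ^ (2 / 3 : ℝ) * (t / (N : ℝ) ^ k) ^ (4 / 3 : ℝ))) := by
      rw [mul_pow]
      exact mul_le_mul_of_nonneg_left hm (by positivity)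
    have e4 : (N : ℝ) + H * (N : ℝ) ^ (2 / 3 : ℝ) * (t / (N : ℝ) ^ k) ^ (4 / 3 : ℝ) = (N : ℝ) ^ 2 * Y := by
      have f1 : t / (N : ℝ) ^ k = N * u := by
        rw [hu, pow_succ]
        field_simp
      have f2 : (N : ℝ) ^ (2 / 3 : ℝ) * (N : ℝ) ^ (4 / 3 : ℝ) = (N : ℝ) ^ 2 := by
        rw [← Real.rpow_add hN0, ← Real.rpow_natCast]
        norm_num
      rw [f1, Real.mul_rpow hN0.le hu0.le, hY]
      calc (N : ℝ) + H * (N : ℝ) ^ (2 / 3 : ℝ) * ((N : ℝ) ^ (4 / 3 : ℝ) * u ^ (4 / 3 : ℝ))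
          = N + H * ((N : ℝ) ^ (2 / 3 : ℝ) * (N : ℝ) ^ (4 / 3 : ℝ)) * u ^ (4 / 3 : ℝ) := by ring
        _ = N + H * (N : ℝ) ^ 2 * u ^ (4 / 3 : ℝ) := by rw [f2]
        _ = (N : ℝ) ^ 2 * (1 / (N : ℝ) + H * u ^ (4 / 3 : ℝ)) := by
            field_simp
    have e5 : ((N : ℝ) ^ (s - 1)) ^ 2 * (N : ℝ) ^ 2 = (N : ℝ) ^ K := by
      rw [← pow_mul, ← pow_add]
      congr 1
      omega
    have e6 : (H : ℝ) ^ (((K : ℕ) : ℝ) + ε / 2) ≤ (H : ℝ) ^ K * (N : ℝ) ^ (ε / 2) := by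
      rw [Real.rpow_add hH0, Real.rpow_natCast]
      exact mul_le_mul_of_nonneg_left (Real.rpow_le_rpow hH0.le hHN' (by positivity)) (by positivity)
    have e7 := FJ_log hN (δ := ε / 2) (by positivity)
    have e8 : (N : ℝ) ^ ε = (N : ℝ) ^ (ε / 2) * (N : ℝ) ^ (ε / 2) := by
      rw [← Real.rpow_add hN0]
      congr 1
      ring
    have hlog : 0 ≤ Real.log N := Real.log_natCast_nonneg N
    have e9 : C * (1 + Real.log N) * (H : ℝ) ^ (((K : ℕ) : ℝ) + ε / 2) ≤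
        A * (N : ℝ) ^ ε * (H : ℝ) ^ K := by
      calc C * (1 + Real.log N) * (H : ℝ) ^ (((K : ℕ) : ℝ) + ε / 2)
          ≤ C * ((1 + 1 / (ε / 2)) * (N : ℝ) ^ (ε / 2)) * ((H : ℝ) ^ K * (N : ℝ) ^ (ε / 2)) := by
            apply mul_le_mul (mul_le_mul_of_nonneg_left e7 hC) e6 (by positivity) (by positivity)
        _ = A * (N : ℝ) ^ ε * (H : ℝ) ^ K := by
            rw [e8, hA]
            ring
    calc S ^ K = (S ^ s) ^ 2 := e1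
      _ ≤ _ := e2.trans e3
      _ = (C * (1 + Real.log N) * (H : ℝ) ^ (((K : ℕ) : ℝ) + ε / 2)) * ((N : ℝ) ^ K * Y) := by
          rw [e4, ← e5]
          ring
      _ ≤ (A * (N : ℝ) ^ ε * (H : ℝ) ^ K) * ((N : ℝ) ^ K * Y) :=
          mul_le_mul_of_nonneg_right e9 (by positivity)
      _ = A * (N : ℝ) ^ ε * ((H : ℝ) * N) ^ K * Y := by
          rw [mul_pow]
          ring
  -- roots
  have hroot : S ≤ A ^ c * (N : ℝ) ^ (ε * c) * ((H : ℝ) * N) * Y ^ c := by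
    have r1 : (S ^ K) ^ c = S := by
      rw [hcK]
      exact Real.pow_rpow_inv_natCast hS0 (by omega)
    have r2 : (((H : ℝ) * N) ^ K) ^ c = (H : ℝ) * N := by
      rw [hcK]
      exact Real.pow_rpow_inv_natCast (by positivity) (by omega)
    have r3 := Real.rpow_le_rpow (by positivity) hpow hc0.le
    rw [r1, Real.mul_rpow (by positivity) hY0, Real.mul_rpow (by positivity) (by positivity), r2,
      Real.mul_rpow hA0 (by positivity), ← Real.rpow_mul hN0.le] at r3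
    exact r3
  have hNe : (N : ℝ) ^ (ε * c) ≤ (N : ℝ) ^ ε :=
    Real.rpow_le_rpow_of_exponent_le hN1 (by nlinarith)
  have hYc : Y ^ c ≤ u ^ ((4 * (k : ℝ) + 1) / (3 * (k + 1)) / (k * (k + 1))) + (N : ℝ) ^ (-c) := by
    have y1 : Y ^ c ≤ (1 / (N : ℝ)) ^ c + (H * u ^ (4 / 3 : ℝ)) ^ c :=
      Real.rpow_add_le_add_rpow (by positivity) (by positivity) hc0.le hc1
    have y3 : (1 / (N : ℝ)) ^ c = (N : ℝ) ^ (-c) := by
      rw [one_div, Real.inv_rpow hN0.le, Real.rpow_neg hN0.le]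
    have y4 : (H : ℝ) ≤ u ^ (-(1 / ((k : ℝ) + 1))) := by
      have z1 : (H : ℝ) ^ (k + 1) ≤ u⁻¹ := by
        rw [hu, inv_div, le_div_iff₀ ht0]
        linarith
      have z2 : ((H : ℝ) ^ (k + 1)) ^ ((((k + 1 : ℕ)) : ℝ)⁻¹) = (H : ℝ) :=
        Real.pow_rpow_inv_natCast (by positivity) (by omega)
      have z3 := Real.rpow_le_rpow (z := (((k + 1 : ℕ)) : ℝ)⁻¹) (by positivity) z1 (by positivity)
      rw [z2] at z3
      refine z3.trans (le_of_eq ?_)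
      rw [Real.inv_rpow hu0.le, Real.rpow_neg hu0.le]
      push_cast
      rw [one_div]
    have y5 : (H * u ^ (4 / 3 : ℝ)) ^ c ≤ u ^ ((4 * (k : ℝ) + 1) / (3 * (k + 1)) / (k * (k + 1))) := by
      have z1 : (H : ℝ) * u ^ (4 / 3 : ℝ) ≤ u ^ (-(1 / ((k : ℝ) + 1))) * u ^ (4 / 3 : ℝ) :=
        mul_le_mul_of_nonneg_right y4 (by positivity)
      rw [← Real.rpow_add hu0] at z1
      have z2 := Real.rpow_le_rpow (by positivity) z1 hc0.le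
      refine z2.trans (le_of_eq ?_)
      rw [← Real.rpow_mul hu0.le]
      congr 1
      rw [hc]
      field_simp
      ring
    rw [y3] at y1
    linarith
  have hbr : 0 ≤ u ^ ((4 * (k : ℝ) + 1) / (3 * (k + 1)) / (k * (k + 1))) + (N : ℝ) ^ (-c) := by
    positivity
  calc S ≤ A ^ c * (N : ℝ) ^ (ε * c) * ((H : ℝ) * N) * Y ^ c := hroot
    _ ≤ A ^ c * (N : ℝ) ^ ε * ((H : ℝ) * N) *
        (u ^ ((4 * (k : ℝ) + 1) / (3 * (k + 1)) / (k * (k + 1))) + (N : ℝ) ^ (-c)) := by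
      apply mul_le_mul _ hYc (by positivity) (by positivity)
      apply mul_le_mul_of_nonneg_right _ (by positivity)
      exact mul_le_mul_of_nonneg_left hNe (by positivity)
    _ = A ^ c * (H : ℝ) * (N : ℝ) ^ (1 + ε) *
        (u ^ ((4 * (k : ℝ) + 1) / (3 * (k + 1)) / (k * (k + 1))) + (N : ℝ) ^ (-c)) := by
      rw [Real.rpow_add hN0, Real.rpow_one]
      ring

end Pool.Agent.Lib.HC
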