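import Pool.Agent.Lib.HC.Defs

/-!
# HC / Crit: derivatives and critical points
-/

set_option autoImplicit false

namespace Pool.Agent.Lib.HC

open Finset

theorem xx_deriv (t : ℝ) (k : ℕ) (hk : 2 ≤ k) {z : ℝ} (hz : 0 < z) : HasDerivAt (xx t k) (k * yy t k z) z := by
  obtain ⟨j, rfl⟩ : ∃ j, k = j + 1 := ⟨k - 1, by omega⟩
  have hj : 1 ≤ j := by omega
  obtain ⟨i, rfl⟩ : ∃ i, j = i + 1 := ⟨j - 1, by omega⟩
  have hi : ((i : ℝ) + 1) ≠ 0 := by positivity
  have hi2 : ((i : ℝ) + 1 + 1) ≠ 0 := by positivity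
  have h1 : HasDerivAt (fun y : ℝ => (y ^ (i + 1))⁻¹) (-(((i + 1 : ℕ) : ℝ) * z ^ (i + 1 - 1)) / (z ^ (i + 1)) ^ 2) z :=
    (hasDerivAt_pow (i + 1) z).inv (by positivity)
  have h2 := h1.const_mul (-(t / (2 * Real.pi * ((i : ℝ) + 1))))
  have e1 : xx t (i + 1 + 1) = fun y : ℝ => -(t / (2 * Real.pi * ((i : ℝ) + 1))) * (y ^ (i + 1))⁻¹ := by
    funext y
    unfold xx
    rw [Nat.add_sub_cancel]
    push_cast
    have : ((i : ℝ) + 1 + 1 - 1) = (i : ℝ) + 1 := by ring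
    rw [this, neg_mul, ← div_eq_mul_inv, div_div]
  rw [e1]
  refine h2.congr_deriv ?_
  unfold yy
  rw [Nat.add_sub_cancel]
  push_cast
  have hpi : Real.pi ≠ 0 := Real.pi_ne_zero
  have hz0 : z ≠ 0 := hz.ne'
  field_simp
  ring

theorem Psi_deriv (t : ℝ) (k : ℕ) (hk : 2 ≤ k) (r : ℝ) {l z : ℝ} (hl : 0 ≤ l) (hz : 0 < z) :
    HasDerivAt (fun z => Psi t k r l z) (k * (r - ff t k l z)) z := by
  have h1 : HasDerivAt (fun y => xx t k (y + l)) (k * yy t k (z + l)) z := by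
    have := (xx_deriv t k hk (z := z + l) (by positivity)).comp_add_const z l
    simpa using this
  have h2 := xx_deriv t k hk hz
  have h3 : HasDerivAt (fun y : ℝ => (k : ℝ) * r * y) ((k : ℝ) * r) z := by
    simpa using (hasDerivAt_id z).const_mul ((k : ℝ) * r)
  have h4 := (h1.sub h2).add h3
  refine (h4.congr_deriv ?_)
  unfold ff
  ring

/-- the difference as a constant times a difference of powers -/
private theorem ff_eq (t : ℝ) (k : ℕ) (l z : ℝ) :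
    ff t k l z = t / (2 * Real.pi * k) * ((1 / z) ^ k - (1 / (z + l)) ^ k) := by
  unfold ff yy
  rw [one_div_pow, one_div_pow]
  ring

private theorem cpos (t : ℝ) (ht : 0 < t) (k : ℕ) (hk : 1 ≤ k) : 0 < t / (2 * Real.pi * k) := by
  have : (0 : ℝ) < k := by exact_mod_cast hk
  positivity

theorem ff_anti (t : ℝ) (ht : 0 < t) (k : ℕ) (hk : 1 ≤ k) {l z z' : ℝ} (hl : 0 < l) (hz : 0 < z) (h : z < z') :
    ff t k l z' < ff t k l z := by
  have hc := cpos t ht k hk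
  rw [ff_eq, ff_eq]
  refine mul_lt_mul_of_pos_left ?_ hc
  have hz' : 0 < z' := hz.trans h
  rw [← geom_sum₂_mul, ← geom_sum₂_mul]
  obtain ⟨u, hu⟩ : ∃ u : ℝ, u = 1 / z := ⟨_, rfl⟩
  obtain ⟨v, hv⟩ : ∃ v : ℝ, v = 1 / (z + l) := ⟨_, rfl⟩
  obtain ⟨u', hu'⟩ : ∃ u' : ℝ, u' = 1 / z' := ⟨_, rfl⟩
  obtain ⟨v', hv'⟩ : ∃ v' : ℝ, v' = 1 / (z' + l) := ⟨_, rfl⟩
  rw [← hu, ← hv, ← hu', ← hv']
  have pu : 0 < u := by rw [hu]; positivity
  have pv : 0 < v := by rw [hv]; positivity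
  have pu' : 0 < u' := by rw [hu']; positivity
  have pv' : 0 < v' := by rw [hv']; positivity
  have h1 : u' ≤ u := by
    rw [hu, hu']
    exact one_div_le_one_div_of_le hz h.le
  have h2 : v' ≤ v := by
    rw [hv, hv']
    exact one_div_le_one_div_of_le (by linarith) (by linarith)
  have e1 : u - v = l / (z * (z + l)) := by
    rw [hu, hv]
    have : z + l ≠ 0 := by positivity
    field_simp
    ring
  have e2 : u' - v' = l / (z' * (z' + l)) := by
    rw [hu', hv']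
    have : z' + l ≠ 0 := by positivity
    field_simp
    ring
  have h3 : u' - v' < u - v := by
    rw [e1, e2]
    refine div_lt_div_of_pos_left hl (by positivity) ?_
    nlinarith
  have h4 : 0 < u' - v' := by
    rw [e2]
    positivity
  have h5 : ∑ i ∈ range k, u' ^ i * v' ^ (k - 1 - i) ≤ ∑ i ∈ range k, u ^ i * v ^ (k - 1 - i) := by
    refine sum_le_sum fun i _ => ?_
    exact mul_le_mul (pow_le_pow_left₀ pu'.le h1 _) (pow_le_pow_left₀ pv'.le h2 _) (by positivity) (by positivity)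
  have h6 : 0 < ∑ i ∈ range k, u ^ i * v ^ (k - 1 - i) := by
    refine sum_pos (fun i _ => by positivity) ⟨0, ?_⟩
    rw [mem_range]
    omega
  exact mul_lt_mul' h5 h3 h4.le h6

theorem ff_mono_l (t : ℝ) (ht : 0 < t) (k : ℕ) (hk : 1 ≤ k) {l l' z : ℝ} (hl : 0 ≤ l) (hz : 0 < z) (h : l ≤ l') :
    ff t k l z ≤ ff t k l' z := by
  have hc := cpos t ht k hk
  rw [ff_eq, ff_eq]
  refine mul_le_mul_of_nonneg_left ?_ hc.le
  have hl' : 0 ≤ l' := hl.trans h
  have h1 : (1 / (z + l')) ^ k ≤ (1 / (z + l)) ^ k := by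
    refine pow_le_pow_left₀ (by positivity) ?_ _
    exact one_div_le_one_div_of_le (by positivity) (by linarith)
  linarith

private theorem ff_nonneg (t : ℝ) (ht : 0 < t) (k : ℕ) (hk : 1 ≤ k) {l z : ℝ} (hl : 0 ≤ l) (hz : 0 < z) : 0 ≤ ff t k l z := by
  have h := ff_mono_l t ht k hk (le_refl 0) hz hl
  have h0 : ff t k 0 z = 0 := by
    unfold ff
    rw [add_zero, sub_self]
  linarith

/-- scaling -/
private theorem ff_scale (t : ℝ) (k : ℕ) (l z : ℝ) : ff t k (2 * l) (2 * z) = ff t k l z / 2 ^ k := by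
  rw [ff_eq, ff_eq]
  have e1 : 2 * z + 2 * l = 2 * (z + l) := by ring
  rw [e1, one_div_pow, one_div_pow, one_div_pow, one_div_pow, mul_pow, mul_pow]
  ring

private theorem ff_cont (t : ℝ) (k : ℕ) (l a b : ℝ) (hl : 0 ≤ l) (ha : 0 < a) : ContinuousOn (ff t k l) (Set.Icc a b) := by
  have : ff t k l = fun z => t / (2 * Real.pi * k) * ((1 / z) ^ k - (1 / (z + l)) ^ k) := by
    funext z
    exact ff_eq t k l z
  rw [this]
  refine ContinuousOn.mul continuousOn_const (ContinuousOn.sub (ContinuousOn.pow (ContinuousOn.div continuousOn_const continuousOn_id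
    fun z hz => ?_) _) (ContinuousOn.pow (ContinuousOn.div continuousOn_const (continuousOn_id.add continuousOn_const) fun z hz => ?_) _))
  · exact (ha.trans_le hz.1).ne'
  · have h1 : 0 < z := ha.trans_le hz.1
    show z + l ≠ 0
    positivity

theorem crit_ex (t : ℝ) (ht : 0 < t) (k : ℕ) (hk : 1 ≤ k) {l n r : ℝ} (hl : 0 < l) (hn : 0 < n)
    (h1 : r / 2 ≤ ff t k l n) (h2 : ff t k l n ≤ 3 / 2 * r) : ∃ z : ℝ, n / 2 ≤ z ∧ z ≤ 2 * n ∧ ff t k l z = r := by
  have h0 := ff_nonneg t ht k hk hl.le hn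
  have hp : (2 : ℝ) ≤ 2 ^ k := by
    calc (2 : ℝ) = 2 ^ 1 := (pow_one _).symm
      _ ≤ 2 ^ k := pow_le_pow_right₀ (by norm_num) hk
  have hp0 : (0 : ℝ) < 2 ^ k := by positivity
  have ha : r ≤ ff t k l (n / 2) := by
    have e1 := ff_scale t k (l / 2) (n / 2)
    rw [mul_div_cancel₀ l (by norm_num : (2 : ℝ) ≠ 0), mul_div_cancel₀ n (by norm_num : (2 : ℝ) ≠ 0)] at e1
    have e2 := ff_mono_l t ht k hk (l := l / 2) (l' := l) (z := n / 2) (by positivity) (by positivity) (by linarith)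
    have e3 : ff t k (l / 2) (n / 2) = 2 ^ k * ff t k l n := by
      rw [e1]
      field_simp
    rw [e3] at e2
    nlinarith
  have hb : ff t k l (2 * n) ≤ r := by
    have e1 := ff_scale t k l n
    have e2 := ff_mono_l t ht k hk (l := l) (l' := 2 * l) (z := 2 * n) hl.le (by positivity) (by linarith)
    rw [e1] at e2
    have e3 : ff t k l n / 2 ^ k ≤ ff t k l n / 2 := div_le_div_of_nonneg_left h0 (by norm_num) hp
    linarith
  have hI := intermediate_value_Icc' (by linarith : n / 2 ≤ 2 * n) (ff_cont t k l (n / 2) (2 * n) hl.le (by positivity))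
  obtain ⟨z, hz, hz2⟩ := hI ⟨hb, ha⟩
  exact ⟨z, hz.1, hz.2, hz2⟩

theorem crit_between (t : ℝ) (ht : 0 < t) (k : ℕ) (hk : 1 ≤ k) {l1 l l2 z1 z2 r : ℝ} (hl1 : 0 < l1) (h1 : l1 ≤ l) (h2 : l ≤ l2)
    (hz1 : 0 < z1) (hz2 : 0 < z2) (e1 : ff t k l1 z1 = r) (e2 : ff t k l2 z2 = r) :
    z1 ≤ z2 ∧ ∃ z : ℝ, z1 ≤ z ∧ z ≤ z2 ∧ ff t k l z = r := by
  have hl : 0 < l := hl1.trans_le h1
  have hl2 : 0 < l2 := hl.trans_le h2
  have h12 : z1 ≤ z2 := by
    by_contra hc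
    rw [not_le] at hc
    have a1 := ff_anti t ht k hk hl2 hz2 hc
    have a2 := ff_mono_l t ht k hk (l := l1) (l' := l2) (z := z1) hl1.le hz1 (h1.trans h2)
    linarith
  refine ⟨h12, ?_⟩
  have ha : r ≤ ff t k l z1 := by
    rw [← e1]
    exact ff_mono_l t ht k hk hl1.le hz1 h1
  have hb : ff t k l z2 ≤ r := by
    rw [← e2]
    exact ff_mono_l t ht k hk hl.le hz2 h2
  have hI := intermediate_value_Icc' h12 (ff_cont t k l z1 z2 hl.le hz1)
  obtain ⟨z, hz, hz2⟩ := hI ⟨hb, ha⟩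
  exact ⟨z, hz.1, hz.2, hz2⟩

end Pool.Agent.Lib.HC
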