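import Pool.Agent.Lib.HC.Defs

/-!
# HC / Fn (110 lines): size of the differences of `yy` and `ff`

PROOF.  (a) For `p ≥ 1` and `0 < u ≤ v`: `p (v-u)/v^(p+1) ≤ 1/u^p - 1/v^p ≤ p (v-u)/u^(p+1)` (mean value theorem for `x ↦ (x^p)⁻¹`, derivative
`-p/x^(p+1)`, or induction on `p`).  (1) is (a) with `p = k`: `t/(2 π k)` times it, `N/2 ≤ u`, `v ≤ 16 N`.  (2): for fixed `z ≤ z'` the function
`s ↦ 1/(z+s)^k - 1/(z'+s)^k` on `[0, l]` has the derivative `-k (1/(z+s)^(k+1) - 1/(z'+s)^(k+1))`; `ff l z - ff l z' = t/(2 π k)` (value at `0` minus value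
at `l`) `= t/(2 π k) · l · k (1/(z+s)^(k+1) - 1/(z'+s)^(k+1))` for some `s ∈ [0, l]`, and (a) with `p = k + 1`, `N/2 ≤ z + s`, `z' + s ≤ 16 N`.
-/

set_option autoImplicit false

namespace Pool.Agent.Lib.HC

private theorem fn_deriv (p : ℕ) {x : ℝ} (hx : 0 < x) : HasDerivAt (fun x : ℝ => (x ^ p)⁻¹) (-(p * (x ^ (p + 1))⁻¹)) x := by
  have h1 := (hasDerivAt_pow p x).inv (pow_ne_zero p hx.ne')
  refine h1.congr_deriv ?_
  rcases Nat.eq_zero_or_pos p with h | h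
  · subst h
    simp
  · obtain ⟨j, rfl⟩ : ∃ j, p = j + 1 := ⟨p - 1, by omega⟩
    rw [Nat.add_sub_cancel]
    field_simp
    ring

private theorem fn_one (p : ℕ) {u v a b : ℝ} (ha : 0 < a) (hau : a ≤ u) (huv : u ≤ v) (hvb : v ≤ b) :
    p * (v - u) * (b ^ (p + 1))⁻¹ ≤ (u ^ p)⁻¹ - (v ^ p)⁻¹ ∧ (u ^ p)⁻¹ - (v ^ p)⁻¹ ≤ p * (v - u) * (a ^ (p + 1))⁻¹ := by
  have hu : 0 < u := lt_of_lt_of_le ha hau
  have hb : 0 < b := by linarith
  rcases huv.eq_or_lt with h | h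
  · subst h
    simp
  obtain ⟨c, hc, hc'⟩ := exists_hasDerivAt_eq_slope (fun x : ℝ => (x ^ p)⁻¹) (fun x => -(p * (x ^ (p + 1))⁻¹)) h
    (fun x hx => (fn_deriv p (lt_of_lt_of_le hu hx.1)).continuousAt.continuousWithinAt)
    (fun x hx => fn_deriv p (hu.trans hx.1))
  have hvu : 0 < v - u := by linarith
  rw [eq_div_iff hvu.ne'] at hc'
  have e1 : (u ^ p)⁻¹ - (v ^ p)⁻¹ = p * (v - u) * (c ^ (p + 1))⁻¹ := by linarith
  have hc0 : 0 < c := hu.trans hc.1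
  have hp : (0 : ℝ) ≤ p := Nat.cast_nonneg p
  rw [e1]
  constructor
  · refine mul_le_mul_of_nonneg_left ?_ (by positivity)
    exact inv_anti₀ (by positivity) (pow_le_pow_left₀ hc0.le (hc.2.le.trans hvb) _)
  · refine mul_le_mul_of_nonneg_left ?_ (by positivity)
    exact inv_anti₀ (by positivity) (pow_le_pow_left₀ ha.le (hau.trans hc.1.le) _)

private theorem yy_eq (t : ℝ) (k : ℕ) (z : ℝ) : yy t k z = t / (2 * Real.pi * k) * (z ^ k)⁻¹ := by
  unfold yy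
  rw [div_mul_eq_div_div, div_eq_mul_inv (t / (2 * Real.pi * k))]

private theorem fn_two (k : ℕ) {l z z' a b : ℝ} (ha : 0 < a) (hl : 0 ≤ l) (haz : a ≤ z) (hz : z ≤ z') (hb : z' + l ≤ b) :
    k * l * ((k + 1) * (z' - z) * (b ^ (k + 2))⁻¹) ≤ ((z ^ k)⁻¹ - (z' ^ k)⁻¹) - (((z + l) ^ k)⁻¹ - ((z' + l) ^ k)⁻¹) ∧
      ((z ^ k)⁻¹ - (z' ^ k)⁻¹) - (((z + l) ^ k)⁻¹ - ((z' + l) ^ k)⁻¹) ≤ k * l * ((k + 1) * (z' - z) * (a ^ (k + 2))⁻¹) := by
  have hz0 : 0 < z := lt_of_lt_of_le ha haz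
  rcases hl.eq_or_lt with h | h
  · subst h
    simp
  have hd : ∀ s, 0 ≤ s → HasDerivAt (fun s : ℝ => ((z + s) ^ k)⁻¹ - ((z' + s) ^ k)⁻¹)
      (-(k * ((z + s) ^ (k + 1))⁻¹) - -(k * ((z' + s) ^ (k + 1))⁻¹)) s := by
    intro s hs
    have h1 := (fn_deriv k (show 0 < z + s by linarith)).comp_const_add z s
    have h2 := (fn_deriv k (show 0 < z' + s by linarith)).comp_const_add z' s
    exact h1.sub h2
  obtain ⟨c, hc, hc'⟩ := exists_hasDerivAt_eq_slope (fun s : ℝ => ((z + s) ^ k)⁻¹ - ((z' + s) ^ k)⁻¹)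
    (fun s => -(k * ((z + s) ^ (k + 1))⁻¹) - -(k * ((z' + s) ^ (k + 1))⁻¹)) h
    (fun s hs => (hd s hs.1).continuousAt.continuousWithinAt) (fun s hs => hd s hs.1.le)
  rw [sub_zero, eq_div_iff h.ne', add_zero, add_zero] at hc'
  have e1 : ((z ^ k)⁻¹ - (z' ^ k)⁻¹) - (((z + l) ^ k)⁻¹ - ((z' + l) ^ k)⁻¹) =
      k * l * (((z + c) ^ (k + 1))⁻¹ - ((z' + c) ^ (k + 1))⁻¹) := by linarith
  rw [e1]
  have h1 := fn_one (k + 1) (u := z + c) (v := z' + c) (a := a) (b := b) ha (by linarith [hc.1]) (by linarith) (by linarith [hc.2])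
  have e2 : z' + c - (z + c) = z' - z := by ring
  rw [e2] at h1
  push_cast at h1
  have hk : (0 : ℝ) ≤ k := Nat.cast_nonneg k
  exact ⟨mul_le_mul_of_nonneg_left h1.1 (by positivity), mul_le_mul_of_nonneg_left h1.2 (by positivity)⟩

theorem fn_bd (k : ℕ) (hk : 2 ≤ k) : ∃ C : ℝ, 1 ≤ C ∧ ∀ (t N : ℝ), 0 < t → 1 ≤ N →
    (∀ z z' : ℝ, N / 2 ≤ z → z ≤ z' → z' ≤ 16 * N →
      t / N ^ (k + 1) * (z' - z) / C ≤ yy t k z - yy t k z' ∧ yy t k z - yy t k z' ≤ C * (t / N ^ (k + 1) * (z' - z))) ∧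
    (∀ l z z' : ℝ, 0 ≤ l → l ≤ 4 * N → N / 2 ≤ z → z ≤ z' → z' ≤ 8 * N →
      t / N ^ (k + 2) * l * (z' - z) / C ≤ ff t k l z - ff t k l z' ∧
        ff t k l z - ff t k l z' ≤ C * (t / N ^ (k + 2) * l * (z' - z))) := by
  have hk0 : (0 : ℝ) < k := by exact_mod_cast (by omega : 0 < k)
  have hpi := Real.pi_pos
  obtain ⟨C, hC⟩ : ∃ C : ℝ, C = 2 * Real.pi * 16 ^ (k + 2) + (k + 1) * 2 ^ (k + 2) + 1 := ⟨_, rfl⟩
  have hC1 : 1 ≤ C := by
    rw [hC]
    have : 0 ≤ 2 * Real.pi * 16 ^ (k + 2) + ((k : ℝ) + 1) * 2 ^ (k + 2) := by positivity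
    linarith
  have hC0 : 0 < C := by linarith
  have hCa : 2 * Real.pi * 16 ^ (k + 2) ≤ C := by
    rw [hC]
    have : 0 ≤ ((k : ℝ) + 1) * 2 ^ (k + 2) := by positivity
    linarith
  have hCa' : 2 * Real.pi * 16 ^ (k + 1) ≤ C := by
    refine le_trans ?_ hCa
    refine mul_le_mul_of_nonneg_left ?_ (by positivity)
    exact pow_le_pow_right₀ (by norm_num) (by omega)
  have hCb : ((k : ℝ) + 1) * 2 ^ (k + 2) ≤ C := by
    rw [hC]
    have : 0 ≤ 2 * Real.pi * 16 ^ (k + 2) := by positivity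
    linarith
  have hCb' : (2 : ℝ) ^ (k + 1) ≤ C := by
    refine le_trans ?_ hCb
    calc (2 : ℝ) ^ (k + 1) ≤ 2 ^ (k + 2) := pow_le_pow_right₀ (by norm_num) (by omega)
      _ ≤ _ := le_mul_of_one_le_left (by positivity) (by linarith)
  have h2pi : 1 ≤ 2 * Real.pi := by
    have := Real.pi_gt_three
    linarith
  refine ⟨C, hC1, fun t N ht hN => ⟨fun z z' hz hzz hz' => ?_, fun l z z' hl hl4 hz hzz hz' => ?_⟩⟩
  · have hN0 : 0 < N := by linarith
    have h1 := fn_one k (u := z) (v := z') (a := N / 2) (b := 16 * N) (by positivity) hz hzz hz'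
    have e0 : yy t k z - yy t k z' = t / (2 * Real.pi * k) * ((z ^ k)⁻¹ - (z' ^ k)⁻¹) := by
      rw [yy_eq, yy_eq]
      ring
    have hw : 0 ≤ t / N ^ (k + 1) * (z' - z) := mul_nonneg (by positivity) (by linarith)
    have hc : 0 ≤ t / (2 * Real.pi * k) := by positivity
    rw [e0]
    constructor
    · refine le_trans ?_ (mul_le_mul_of_nonneg_left h1.1 hc)
      have e1 : t / (2 * Real.pi * k) * (k * (z' - z) * ((16 * N) ^ (k + 1))⁻¹) =
          t / N ^ (k + 1) * (z' - z) / (2 * Real.pi * 16 ^ (k + 1)) := by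
        rw [mul_pow]
        field_simp
      rw [e1]
      exact div_le_div_of_nonneg_left hw (by positivity) hCa'
    · refine (mul_le_mul_of_nonneg_left h1.2 hc).trans ?_
      have e1 : t / (2 * Real.pi * k) * (k * (z' - z) * ((N / 2) ^ (k + 1))⁻¹) =
          2 ^ (k + 1) / (2 * Real.pi) * (t / N ^ (k + 1) * (z' - z)) := by
        rw [div_pow]
        field_simp
      rw [e1]
      refine mul_le_mul_of_nonneg_right ?_ hw
      exact (div_le_self (by positivity) h2pi).trans hCb'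
  · have hN0 : 0 < N := by linarith
    have h1 := fn_two k (l := l) (z := z) (z' := z') (a := N / 2) (b := 16 * N) (by positivity) hl hz hzz (by linarith)
    have e0 : ff t k l z - ff t k l z' =
        t / (2 * Real.pi * k) * (((z ^ k)⁻¹ - (z' ^ k)⁻¹) - (((z + l) ^ k)⁻¹ - ((z' + l) ^ k)⁻¹)) := by
      unfold ff
      rw [yy_eq, yy_eq, yy_eq, yy_eq]
      ring
    have hw : 0 ≤ t / N ^ (k + 2) * l * (z' - z) := mul_nonneg (by positivity) (by linarith)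
    have hc : 0 ≤ t / (2 * Real.pi * k) := by positivity
    rw [e0]
    constructor
    · refine le_trans ?_ (mul_le_mul_of_nonneg_left h1.1 hc)
      have e1 : t / (2 * Real.pi * k) * (k * l * ((k + 1) * (z' - z) * ((16 * N) ^ (k + 2))⁻¹)) =
          (k + 1) * (t / N ^ (k + 2) * l * (z' - z) / (2 * Real.pi * 16 ^ (k + 2))) := by
        rw [mul_pow]
        field_simp
      rw [e1]
      have h2 : t / N ^ (k + 2) * l * (z' - z) / C ≤ t / N ^ (k + 2) * l * (z' - z) / (2 * Real.pi * 16 ^ (k + 2)) :=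
        div_le_div_of_nonneg_left hw (by positivity) hCa
      refine h2.trans (le_mul_of_one_le_left (by positivity) (by linarith))
    · refine (mul_le_mul_of_nonneg_left h1.2 hc).trans ?_
      have e1 : t / (2 * Real.pi * k) * (k * l * ((k + 1) * (z' - z) * ((N / 2) ^ (k + 2))⁻¹)) =
          ((k + 1) * 2 ^ (k + 2)) / (2 * Real.pi) * (t / N ^ (k + 2) * l * (z' - z)) := by
        rw [div_pow]
        field_simp
      rw [e1]
      refine mul_le_mul_of_nonneg_right ?_ hw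
      exact (div_le_self (by positivity) h2pi).trans hCb

end Pool.Agent.Lib.HC
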