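import Pool.Agent.Lib.HB.KT
import Pool.Agent.Lib.HB.KF

/-!
# HC / Jk (150 lines): the two-dimensional large sieve with the Jackson kernel

PROOF.  Like `HB/KT.lean`, with four variables instead of two.  For `G ≥ 0` on the integers
`V^3 ∑_{v<V} G v ≤ ∑_{i1,i2,i3,i4 < 4V} G (i1 - i2 + i3 - i4)`: for `v, i2, i3, i4 ∈ [0, V)` put `i1 = v + i2 + i4 + V - i3` and
`i2' = i2 + V`: then `0 ≤ i1 < 4V` and `i1 - i2' + i3 - i4 = v`.  The sum over `i1..i4 < 4V` of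
`e((i1 - i2 + i3 - i4) x)` is `‖∑_{i<4V} e(i x)‖^4 = (4V FK (4V) x)^2 ≤ (4V)^2 (8V)^2 wt (4V) x ^2 ≤ 1024 V^4 wt V x ^2` (`FK_le`; `wt`
decreasing in `D`).  As in `two_dim` expand the squares `‖∑ b n e(..)‖^2` as a double sum over `n, m`, use it in both
variables, `‖b n‖ ≤ 1`: constant `1024^2`, and `V^4/V^3 = V`.
-/

set_option autoImplicit false

namespace Pool.Agent.Lib.HC

open Finset Pool.Agent.Lib.ZB Pool.Agent.Lib.HB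

/-- the box of quadruples -/
private def jkT (M : ℕ) : Finset (ℕ × ℕ × ℕ × ℕ) := range M ×ˢ range M ×ˢ range M ×ˢ range M

/-- the alternating sum -/
private def jkd (p : ℕ × ℕ × ℕ × ℕ) : ℤ := (p.1 : ℤ) - p.2.1 + p.2.2.1 - p.2.2.2

private theorem jk_diff (V : ℕ) (f : ℤ → ℝ) (hf : ∀ z, 0 ≤ f z) :
    (V : ℝ) ^ 3 * ∑ v ∈ range V, f (v : ℤ) ≤ ∑ p ∈ jkT (4 * V), f (jkd p) := by
  obtain ⟨φ, hφ⟩ : ∃ φ : ℕ × ℕ × ℕ × ℕ → ℕ × ℕ × ℕ × ℕ,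
      ∀ v a b c, φ (v, a, b, c) = (v + a + c + V - b, a + V, b, c) :=
    ⟨fun p => (p.1 + p.2.1 + p.2.2.2 + V - p.2.2.1, p.2.1 + V, p.2.2.1, p.2.2.2), fun _ _ _ _ => rfl⟩
  have h1 : (V : ℝ) ^ 3 * ∑ v ∈ range V, f (v : ℤ) = ∑ p ∈ jkT V, f (p.1 : ℤ) := by
    unfold jkT
    rw [sum_product, mul_sum]
    refine sum_congr rfl fun v _ => ?_
    show _ = ∑ _y ∈ range V ×ˢ range V ×ˢ range V, f (v : ℤ)
    rw [sum_const, card_product, card_product, card_range, nsmul_eq_mul]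
    push_cast
    ring
  have h2 : ∑ p ∈ jkT V, f (p.1 : ℤ) = ∑ p ∈ jkT V, f (jkd (φ p)) := by
    refine sum_congr rfl fun p hp => ?_
    obtain ⟨v, a, b, c⟩ := p
    unfold jkT at hp
    simp only [mem_product, mem_range] at hp
    rw [hφ]
    unfold jkd
    congr 1
    simp only
    omega
  have hinj : Set.InjOn φ (jkT V : Finset (ℕ × ℕ × ℕ × ℕ)) := by
    rintro ⟨v, a, b, c⟩ hp ⟨v', a', b', c'⟩ hp' h
    rw [mem_coe] at hp hp'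
    unfold jkT at hp hp'
    simp only [mem_product, mem_range] at hp hp'
    rw [hφ, hφ] at h
    simp only [Prod.mk.injEq] at h ⊢
    omega
  have h3 : ∑ p ∈ jkT V, f (jkd (φ p)) = ∑ p ∈ (jkT V).image φ, f (jkd p) := (sum_image (f := fun p => f (jkd p)) hinj).symm
  rw [h1, h2, h3]
  refine sum_le_sum_of_subset_of_nonneg ?_ fun p _ _ => hf _
  intro p hp
  rw [mem_image] at hp
  obtain ⟨⟨v, a, b, c⟩, hp, rfl⟩ := hp
  unfold jkT at hp ⊢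
  rw [hφ]
  simp only [mem_product, mem_range] at hp ⊢
  omega

private theorem jk_prod {α β : Type*} (S : Finset α) (T : Finset β) (a : α → ℂ) (b : β → ℂ) :
    ∑ p ∈ S ×ˢ T, a p.1 * b p.2 = (∑ i ∈ S, a i) * ∑ j ∈ T, b j := by
  rw [sum_product, sum_mul_sum]

private theorem jk_ker (M : ℕ) (u : ℝ) :
    ∑ p ∈ jkT M, e ((jkd p : ℝ) * u) = ((‖∑ i ∈ range M, e ((i : ℝ) * u)‖ ^ 4 : ℝ) : ℂ) := by
  have h1 : ∀ p : ℕ × ℕ × ℕ × ℕ, e ((jkd p : ℝ) * u) =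
      e ((p.1 : ℝ) * u) * ((starRingEnd ℂ) (e ((p.2.1 : ℝ) * u)) *
        (e ((p.2.2.1 : ℝ) * u) * (starRingEnd ℂ) (e ((p.2.2.2 : ℝ) * u)))) := by
    intro p
    rw [← e_sub, e_conj, ← e_add, ← e_add]
    congr 1
    unfold jkd
    push_cast
    ring
  obtain ⟨z, hz⟩ : ∃ z, z = ∑ i ∈ range M, e ((i : ℝ) * u) := ⟨_, rfl⟩
  have hz' : (starRingEnd ℂ) z = ∑ i ∈ range M, (starRingEnd ℂ) (e ((i : ℝ) * u)) := by rw [hz, map_sum]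
  have h2 : z * (starRingEnd ℂ) z = ((‖z‖ ^ 2 : ℝ) : ℂ) := by
    rw [Complex.mul_conj']
    push_cast
    rfl
  have e1 : ∑ p ∈ range M ×ˢ range M, e ((p.1 : ℝ) * u) * (starRingEnd ℂ) (e ((p.2 : ℝ) * u)) =
      z * (starRingEnd ℂ) z := by
    rw [hz', hz]
    exact jk_prod (range M) (range M) (fun i : ℕ => e ((i : ℝ) * u)) (fun i : ℕ => (starRingEnd ℂ) (e ((i : ℝ) * u)))
  have e2 : ∑ p ∈ range M ×ˢ range M ×ˢ range M, (starRingEnd ℂ) (e ((p.1 : ℝ) * u)) *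
      (e ((p.2.1 : ℝ) * u) * (starRingEnd ℂ) (e ((p.2.2 : ℝ) * u))) = (starRingEnd ℂ) z * (z * (starRingEnd ℂ) z) := by
    rw [← e1, hz']
    exact jk_prod (range M) (range M ×ˢ range M) (fun i : ℕ => (starRingEnd ℂ) (e ((i : ℝ) * u)))
      (fun p : ℕ × ℕ => e ((p.1 : ℝ) * u) * (starRingEnd ℂ) (e ((p.2 : ℝ) * u)))
  have e3 : ∑ p ∈ jkT M, e ((jkd p : ℝ) * u) = z * ((starRingEnd ℂ) z * (z * (starRingEnd ℂ) z)) := by
    rw [← e2, hz, sum_congr rfl fun p _ => h1 p]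
    exact jk_prod (range M) (range M ×ˢ range M ×ˢ range M) (fun i : ℕ => e ((i : ℝ) * u))
      (fun p : ℕ × ℕ × ℕ => (starRingEnd ℂ) (e ((p.1 : ℝ) * u)) *
        (e ((p.2.1 : ℝ) * u) * (starRingEnd ℂ) (e ((p.2.2 : ℝ) * u))))
  rw [e3, ← hz, ← mul_assoc, h2]
  push_cast
  ring

private theorem jk_bound (V : ℕ) (hV : 1 ≤ V) (u : ℝ) :
    ‖∑ i ∈ range (4 * V), e ((i : ℝ) * u)‖ ^ 4 ≤ 1024 * (V : ℝ) ^ 4 * wt V u ^ 2 := by
  have hVR : (0 : ℝ) < V := by exact_mod_cast hV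
  have h1 := FK_le (4 * V) (by omega) u
  have h2 : wt ((4 * V : ℕ) : ℝ) u ≤ wt V u := by
    unfold wt
    apply one_div_le_one_div_of_le (by positivity)
    have h3 := nrm_nonneg u
    have h4 : (V : ℝ) * nrm u ≤ ((4 * V : ℕ) : ℝ) * nrm u := by
      push_cast
      nlinarith
    have h5 : 0 ≤ (V : ℝ) * nrm u := by positivity
    nlinarith
  have h3 : ‖∑ i ∈ range (4 * V), e ((i : ℝ) * u)‖ ^ 2 ≤ 32 * (V : ℝ) ^ 2 * wt V u := by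
    unfold FK at h1
    rw [div_le_iff₀ (by push_cast; positivity)] at h1
    refine h1.trans ?_
    have h6 : 0 ≤ 32 * (V : ℝ) ^ 2 := by positivity
    have h7 := mul_le_mul_of_nonneg_left h2 h6
    push_cast at h7 ⊢
    nlinarith
  have h4 : (0 : ℝ) ≤ ‖∑ i ∈ range (4 * V), e ((i : ℝ) * u)‖ ^ 2 := by positivity
  calc ‖∑ i ∈ range (4 * V), e ((i : ℝ) * u)‖ ^ 4 = (‖∑ i ∈ range (4 * V), e ((i : ℝ) * u)‖ ^ 2) ^ 2 := by ring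
    _ ≤ (32 * (V : ℝ) ^ 2 * wt V u) ^ 2 := pow_le_pow_left₀ h4 h3 2
    _ = 1024 * (V : ℝ) ^ 4 * wt V u ^ 2 := by ring

private theorem jk_sq (A : Finset ℕ) (x y : ℕ → ℝ) (b : ℕ → ℂ) (v w : ℤ) :
    ((‖∑ n ∈ A, b n * e ((v : ℝ) * x n + (w : ℝ) * y n)‖ ^ 2 : ℝ) : ℂ) =
      ∑ n ∈ A, ∑ m ∈ A, (b n * (starRingEnd ℂ) (b m)) * (e ((v : ℝ) * (x n - x m)) * e ((w : ℝ) * (y n - y m))) := by
  push_cast
  rw [← Complex.mul_conj', map_sum, sum_mul_sum]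
  refine sum_congr rfl fun n _ => sum_congr rfl fun m _ => ?_
  rw [map_mul]
  have h1 : e ((v : ℝ) * (x n - x m)) * e ((w : ℝ) * (y n - y m)) =
      e ((v : ℝ) * x n + (w : ℝ) * y n) * (starRingEnd ℂ) (e ((v : ℝ) * x m + (w : ℝ) * y m)) := by
    rw [← e_sub, ← e_add]
    congr 1
    ring
  rw [h1]
  ring

private theorem jk_sw {α β ι : Type*} (S : Finset α) (T : Finset β) (A : Finset ι) (F : α → β → ι → ℂ) :
    ∑ p ∈ S, ∑ q ∈ T, ∑ n ∈ A, F p q n = ∑ n ∈ A, ∑ p ∈ S, ∑ q ∈ T, F p q n :=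
  (sum_congr rfl fun _ _ => sum_comm).trans sum_comm

theorem two_dimJ : ∃ C : ℝ, 1 ≤ C ∧ ∀ (A : Finset ℕ) (x y : ℕ → ℝ) (b : ℕ → ℂ), (∀ n, ‖b n‖ ≤ 1) → ∀ (V W : ℕ), 1 ≤ V → 1 ≤ W →
    ∑ v ∈ range V, ∑ w ∈ range W, ‖∑ n ∈ A, b n * e ((v : ℝ) * x n + (w : ℝ) * y n)‖ ^ 2 ≤
      C * V * W * ∑ n ∈ A, ∑ m ∈ A, wt V (x n - x m) ^ 2 * wt W (y n - y m) ^ 2 := by
  refine ⟨1024 ^ 2, by norm_num, fun A x y b hb V W hV hW => ?_⟩
  obtain ⟨G, hG⟩ : ∃ G : ℤ → ℤ → ℝ, ∀ v w : ℤ, G v w = ‖∑ n ∈ A, b n * e ((v : ℝ) * x n + (w : ℝ) * y n)‖ ^ 2 :=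
    ⟨fun v w => _, fun _ _ => rfl⟩
  have hG0 : ∀ v w, 0 ≤ G v w := fun v w => by
    rw [hG]
    positivity
  have hVR : (0 : ℝ) < V := by exact_mod_cast hV
  have hWR : (0 : ℝ) < W := by exact_mod_cast hW
  -- lower bound
  have h1 : (V : ℝ) ^ 3 * ((W : ℝ) ^ 3 * ∑ v ∈ range V, ∑ w ∈ range W, G v w) ≤
      ∑ p ∈ jkT (4 * V), ∑ q ∈ jkT (4 * W), G (jkd p) (jkd q) := by
    rw [mul_sum]
    refine (jk_diff V (fun v => (W : ℝ) ^ 3 * ∑ w ∈ range W, G v w) fun z =>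
      mul_nonneg (by positivity) (sum_nonneg fun w _ => hG0 _ _)).trans ?_
    exact sum_le_sum fun p _ => jk_diff W (fun w => G (jkd p) w) fun z => hG0 _ _
  -- expansion
  have h2 : ((∑ p ∈ jkT (4 * V), ∑ q ∈ jkT (4 * W), G (jkd p) (jkd q) : ℝ) : ℂ) =
      ∑ n ∈ A, ∑ m ∈ A, (b n * (starRingEnd ℂ) (b m)) *
        ((‖∑ i ∈ range (4 * V), e ((i : ℝ) * (x n - x m))‖ ^ 4 * ‖∑ j ∈ range (4 * W), e ((j : ℝ) * (y n - y m))‖ ^ 4 : ℝ) : ℂ) := by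
    simp only [Complex.ofReal_sum, hG, jk_sq]
    rw [jk_sw]
    refine sum_congr rfl fun n _ => ?_
    rw [jk_sw]
    refine sum_congr rfl fun m _ => ?_
    rw [Complex.ofReal_mul, ← jk_ker, ← jk_ker, sum_mul_sum]
    simp only [mul_sum]
  have h3 : ∑ p ∈ jkT (4 * V), ∑ q ∈ jkT (4 * W), G (jkd p) (jkd q) ≤
      ∑ n ∈ A, ∑ m ∈ A, (1024 * (V : ℝ) ^ 4 * wt V (x n - x m) ^ 2) * (1024 * (W : ℝ) ^ 4 * wt W (y n - y m) ^ 2) := by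
    have h4 : ∑ p ∈ jkT (4 * V), ∑ q ∈ jkT (4 * W), G (jkd p) (jkd q) ≤
        ‖((∑ p ∈ jkT (4 * V), ∑ q ∈ jkT (4 * W), G (jkd p) (jkd q) : ℝ) : ℂ)‖ := by
      rw [Complex.norm_real]
      exact le_abs_self _
    refine h4.trans ?_
    rw [h2]
    refine (norm_sum_le _ _).trans (sum_le_sum fun n _ => (norm_sum_le _ _).trans (sum_le_sum fun m _ => ?_))
    rw [norm_mul, norm_mul, Complex.norm_real, RCLike.norm_conj]
    have h5 : 0 ≤ ‖∑ i ∈ range (4 * V), e ((i : ℝ) * (x n - x m))‖ ^ 4 * ‖∑ j ∈ range (4 * W), e ((j : ℝ) * (y n - y m))‖ ^ 4 := by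
      positivity
    rw [Real.norm_of_nonneg h5]
    have h6 : ‖b n‖ * ‖b m‖ ≤ 1 := mul_le_one₀ (hb n) (norm_nonneg _) (hb m)
    have h7 := jk_bound V hV (x n - x m)
    have h8 := jk_bound W hW (y n - y m)
    calc ‖b n‖ * ‖b m‖ * _ ≤ 1 * _ := mul_le_mul_of_nonneg_right h6 h5
      _ = _ := one_mul _
      _ ≤ _ := mul_le_mul h7 h8 (by positivity) (by positivity)
  have h4 : ∑ n ∈ A, ∑ m ∈ A, (1024 * (V : ℝ) ^ 4 * wt V (x n - x m) ^ 2) * (1024 * (W : ℝ) ^ 4 * wt W (y n - y m) ^ 2) =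
      ((V : ℝ) ^ 3 * (W : ℝ) ^ 3) * (1024 ^ 2 * V * W * ∑ n ∈ A, ∑ m ∈ A, wt V (x n - x m) ^ 2 * wt W (y n - y m) ^ 2) := by
    rw [mul_sum, mul_sum]
    refine sum_congr rfl fun n _ => ?_
    rw [mul_sum, mul_sum]
    refine sum_congr rfl fun m _ => ?_
    ring
  have h5 := h1.trans (h3.trans_eq h4)
  have h6 : ∑ v ∈ range V, ∑ w ∈ range W, ‖∑ n ∈ A, b n * e ((v : ℝ) * x n + (w : ℝ) * y n)‖ ^ 2 =
      ∑ v ∈ range V, ∑ w ∈ range W, G v w := by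
    refine sum_congr rfl fun v _ => sum_congr rfl fun w _ => ?_
    rw [hG]
    push_cast
    rfl
  rw [h6]
  rw [← mul_assoc] at h5
  exact le_of_mul_le_mul_left h5 (by positivity)

end Pool.Agent.Lib.HC
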