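import Pool.Agent.Lib.HC.Fn
import Pool.Agent.Lib.HC.Crit
import Pool.Agent.Lib.HB.CM

/-!
# HC / RZ (130 lines): the pairs of the class `0`

PROOF.  Let `τ = t/N^k ≥ 1`, `C0` from `fn_bd`.  For a pair `l = m - n ≥ 1`: `t/N^(k+1) l/C0 ≤ yy n - yy m ≤ β`, so `l ≤ C0 β N/τ =: C0 Y`.  For fixed `l` let
`u n = xx (n+l) - xx n`, `N < n`, `n + l ≤ M`.  `u (n+1) - u n = k (yy (ξ+l) - yy ξ)` for some `ξ ∈ (n, n+1)` (mean value theorem, `xx_deriv`), so by `fn_bd` (1)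
`u n - u (n+1) ≥ k t/N^(k+1) l/C0` and `|u n - u n'| ≤ k C0 t/N^(k+1) l N = k C0 τ l`.  `count_mono` (`HB/CM.lean`, `σ = -1`, `mu = k (τ/N) l/C0`, `R = k C0 τ l`,
`ρ = α`, `β = 0`, sequence `n = N + 1 + u`): the number of `n` is `≤ (k C0 τ l + 2 α + 1)(1 + 2 α C0 N/(k τ l)) ≤ C (τ l + α N)` for `α ≤ 1/2`, `τ l ≥ 1`.
Sum over `1 ≤ l ≤ C0 Y` (if `C0 Y < 1` the set is empty): `≤ C (τ Y^2 + α N Y)`.
-/

set_option autoImplicit false

namespace Pool.Agent.Lib.HC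

open Finset Pool.Agent.Lib.HB

/-- the mean value theorem for the difference of `xx` -/
private theorem rz_mvt (k : ℕ) (hk : 2 ≤ k) (C0 t N : ℝ) (hN : 1 ≤ N)
    (hb : ∀ z z' : ℝ, N / 2 ≤ z → z ≤ z' → z' ≤ 16 * N →
      t / N ^ (k + 1) * (z' - z) / C0 ≤ yy t k z - yy t k z' ∧ yy t k z - yy t k z' ≤ C0 * (t / N ^ (k + 1) * (z' - z)))
    (a b l : ℝ) (ha : N ≤ a) (hab : a < b) (hl : 0 ≤ l) (hbl : b + l ≤ 2 * N) :
    k * (t / N ^ (k + 1) * l / C0) * (b - a) ≤ (xx t k (a + l) - xx t k a) - (xx t k (b + l) - xx t k b) ∧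
    (xx t k (a + l) - xx t k a) - (xx t k (b + l) - xx t k b) ≤ k * (C0 * (t / N ^ (k + 1) * l)) * (b - a) := by
  have hk0 : (0 : ℝ) ≤ k := Nat.cast_nonneg k
  have hd : ∀ z : ℝ, 0 < z → HasDerivAt (fun z => xx t k (z + l) - xx t k z) (k * yy t k (z + l) - k * yy t k z) z := by
    intro z hz
    have h1 := xx_deriv t k hk (z := z + l) (by linarith)
    have h2 := xx_deriv t k hk hz
    exact (h1.comp_add_const z l).sub h2
  obtain ⟨c, hc, hce⟩ := exists_hasDerivAt_eq_slope (fun z => xx t k (z + l) - xx t k z)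
    (fun z => k * yy t k (z + l) - k * yy t k z) hab
    (fun z hz => (hd z (by linarith [hz.1])).continuousAt.continuousWithinAt)
    (fun z hz => hd z (by linarith [hz.1]))
  have hba : 0 < b - a := by linarith
  rw [eq_div_iff hba.ne'] at hce
  obtain ⟨h1, h2⟩ := hb c (c + l) (by linarith [hc.1]) (by linarith) (by linarith [hc.2])
  rw [show c + l - c = l by ring] at h1 h2
  have e : (xx t k (a + l) - xx t k a) - (xx t k (b + l) - xx t k b) = k * (yy t k c - yy t k (c + l)) * (b - a) := by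
    linear_combination hce
  rw [e]
  exact ⟨mul_le_mul_of_nonneg_right (mul_le_mul_of_nonneg_left h1 hk0) hba.le,
    mul_le_mul_of_nonneg_right (mul_le_mul_of_nonneg_left h2 hk0) hba.le⟩

open Classical in
/-- the pairs with a fixed difference -/
private theorem rz_fix (k : ℕ) (hk : 2 ≤ k) (C0 t τ α : ℝ) (hC0 : 1 ≤ C0) (N M l : ℕ) (hN : 1 ≤ N) (hM : M ≤ 2 * N) (hl : 1 ≤ l)
    (hτ : 1 ≤ τ) (hτN : t / (N : ℝ) ^ (k + 1) = τ / N) (hα : 0 ≤ α) (hα2 : α ≤ 1 / 2)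
    (hb : ∀ z z' : ℝ, (N : ℝ) / 2 ≤ z → z ≤ z' → z' ≤ 16 * (N : ℝ) →
      t / (N : ℝ) ^ (k + 1) * (z' - z) / C0 ≤ yy t k z - yy t k z' ∧
        yy t k z - yy t k z' ≤ C0 * (t / (N : ℝ) ^ (k + 1) * (z' - z))) :
    (((range (M - N - l)).filter fun u : ℕ => nrm (xx t k ((N + 1 + u + l : ℕ) : ℝ) - xx t k ((N + 1 + u : ℕ) : ℝ) - 0) ≤ α).card : ℝ) ≤
      (k * C0 + 2) * C0 * (τ * l + α * N) := by
  have hN1 : (1 : ℝ) ≤ N := by exact_mod_cast hN
  have hl1 : (1 : ℝ) ≤ l := by exact_mod_cast hl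
  have hk2 : (2 : ℝ) ≤ k := by exact_mod_cast hk
  have hτl : 1 ≤ τ * l := by nlinarith
  have hmu : 0 < (k : ℝ) * (τ / N * l / C0) := by positivity
  have hmv := rz_mvt k hk C0 t N hN1 hb
  rw [hτN] at hmv
  have key := count_mono (M - N - l) (fun u : ℕ => xx t k ((N + 1 + u + l : ℕ) : ℝ) - xx t k ((N + 1 + u : ℕ) : ℝ)) (-1) (Or.inr rfl)
    (k * (τ / N * l / C0)) (k * C0 * (τ * l)) α hmu (by positivity) hα (fun u hu => by
      have h1 : ((N + 1 + u + 1 + l : ℕ) : ℝ) ≤ ((2 * N : ℕ) : ℝ) := by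
        exact_mod_cast (by omega : N + 1 + u + 1 + l ≤ 2 * N)
      push_cast at h1
      have h2 := (hmv (N + 1 + u) (N + 1 + u + 1) l (by have : (0 : ℝ) ≤ u := Nat.cast_nonneg u; linarith) (by linarith) (by positivity)
        (by linarith)).1
      push_cast
      have e1 : ((N : ℝ) + 1 + (u + 1) + l) = (N + 1 + u + 1 + l) := by ring
      have e2 : ((N : ℝ) + 1 + (u + 1)) = (N + 1 + u + 1) := by ring
      rw [e1, e2]
      rw [show (N : ℝ) + 1 + u + 1 - (N + 1 + u) = 1 by ring, mul_one] at h2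
      linarith) (fun u hu => by
      rcases Nat.eq_zero_or_pos u with h0 | h0
      · subst h0
        simp only [sub_self, abs_zero]
        positivity
      · have h1 : ((N + 1 + u + l : ℕ) : ℝ) ≤ ((2 * N : ℕ) : ℝ) := by
          exact_mod_cast (by omega : N + 1 + u + l ≤ 2 * N)
        push_cast at h1
        have hu0 : (0 : ℝ) < u := by exact_mod_cast h0
        have huN : (u : ℝ) ≤ N := by
          exact_mod_cast (by omega : u ≤ N)
        have h2 := hmv (N + 1) (N + 1 + u) l (by linarith) (by linarith) (by positivity) (by linarith)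
        rw [show (N : ℝ) + 1 + u - (N + 1) = u by ring] at h2
        have h3 : 0 ≤ (k : ℝ) * (τ / N * l / C0) * u := by positivity
        have h4 : (k : ℝ) * (C0 * (τ / N * l)) * u ≤ k * C0 * (τ * l) := by
          have h5 : (k : ℝ) * (C0 * (τ / N * l)) * u ≤ (k : ℝ) * (C0 * (τ / N * l)) * N :=
            mul_le_mul_of_nonneg_left huN (by positivity)
          refine h5.trans (le_of_eq ?_)
          field_simp
        push_cast
        rw [abs_sub_comm, abs_le, add_zero]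
        constructor
        · have : 0 ≤ (k : ℝ) * C0 * (τ * l) := by positivity
          linarith [h2.1]
        · linarith [h2.2]) 0
  refine key.trans ?_
  have h1 : (k : ℝ) * C0 * (τ * l) + 2 * α + 1 ≤ (k * C0 + 2) * (τ * l) := by nlinarith
  have h2 : 1 + 2 * α / (k * (τ / N * l / C0)) ≤ 1 + α * C0 * N / (τ * l) := by
    have h3 : 2 * α / (k * (τ / N * l / C0)) = (2 / k) * (α * C0 * N / (τ * l)) := by
      field_simp
    rw [h3]
    have h4 : 2 / (k : ℝ) ≤ 1 := by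
      rw [div_le_one (by linarith)]
      exact hk2
    have h5 : 0 ≤ α * C0 * N / (τ * l) := by positivity
    nlinarith
  have h6 : 0 ≤ 1 + 2 * α / (k * (τ / N * l / C0)) := by positivity
  calc (k * C0 * (τ * l) + 2 * α + 1) * (1 + 2 * α / (k * (τ / N * l / C0)))
      ≤ ((k * C0 + 2) * (τ * l)) * (1 + α * C0 * N / (τ * l)) := mul_le_mul h1 h2 h6 (by positivity)
    _ = (k * C0 + 2) * (τ * l + α * C0 * N) := by
        field_simp
    _ ≤ (k * C0 + 2) * (C0 * (τ * l + α * N)) := by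
        refine mul_le_mul_of_nonneg_left ?_ (by positivity)
        have : τ * l ≤ C0 * (τ * l) := le_mul_of_one_le_left (by positivity) hC0
        nlinarith
    _ = (k * C0 + 2) * C0 * (τ * l + α * N) := by ring

open Classical in
theorem rz_card (k : ℕ) (hk : 2 ≤ k) : ∃ C : ℝ, 1 ≤ C ∧ ∀ (t : ℝ) (N M : ℕ) (α β : ℝ), 1 ≤ N → M ≤ 2 * N → (N : ℝ) ^ k ≤ t →
    0 ≤ α → α ≤ 1 / 2 → 0 < β →
      ((((Ioc N M) ×ˢ (Ioc N M)).filter fun p : ℕ × ℕ => p.1 < p.2 ∧ yy t k p.1 - yy t k p.2 ≤ β ∧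
        nrm (xx t k p.2 - xx t k p.1) ≤ α).card : ℝ) ≤
        C * (t / (N : ℝ) ^ k * (β * N / (t / (N : ℝ) ^ k)) ^ 2 + α * N * (β * N / (t / (N : ℝ) ^ k))) := by
  obtain ⟨C0, hC0, hfn⟩ := fn_bd k hk
  refine ⟨(k * C0 + 2) * C0 * C0 ^ 2, ?_, ?_⟩
  · have h1 : 1 ≤ (k : ℝ) * C0 + 2 := by
      have : 0 ≤ (k : ℝ) * C0 := by positivity
      linarith
    exact one_le_mul_of_one_le_of_one_le (one_le_mul_of_one_le_of_one_le h1 hC0) (one_le_pow₀ hC0)
  intro t N M α β hN hM hNt hα hα2 hβ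
  have hN1 : (1 : ℝ) ≤ N := by exact_mod_cast hN
  have hN0 : (0 : ℝ) < N := by linarith
  have hNk : (0 : ℝ) < (N : ℝ) ^ k := by positivity
  have ht : 0 < t := lt_of_lt_of_le hNk hNt
  set τ := t / (N : ℝ) ^ k with hτd
  have hτ : 1 ≤ τ := by
    rw [hτd, le_div_iff₀ hNk, one_mul]
    exact hNt
  have hτN : t / (N : ℝ) ^ (k + 1) = τ / N := by
    rw [hτd, pow_succ, div_div]
  have hb := (hfn t N ht hN1).1
  set Y := β * N / τ with hY
  have hY0 : 0 ≤ Y := by positivity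
  set L := ⌊C0 * Y⌋₊ with hL
  have hLY : (L : ℝ) ≤ C0 * Y := Nat.floor_le (by positivity)
  set S := ((Ioc N M) ×ˢ (Ioc N M)).filter fun p : ℕ × ℕ => p.1 < p.2 ∧ yy t k p.1 - yy t k p.2 ≤ β ∧
        nrm (xx t k p.2 - xx t k p.1) ≤ α with hS
  have hmap : ∀ p ∈ S, p.2 - p.1 ∈ Icc 1 L := by
    intro p hp
    rw [hS, mem_filter, mem_product, mem_Ioc, mem_Ioc] at hp
    obtain ⟨⟨⟨hp1, hp2⟩, hp3, hp4⟩, hlt, hyy, -⟩ := hp
    rw [mem_Icc]
    refine ⟨by omega, ?_⟩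
    apply Nat.le_floor
    have hp1' : (N : ℝ) ≤ p.1 := by exact_mod_cast hp1.le
    have hp4' : (p.2 : ℝ) ≤ 2 * N := by
      exact_mod_cast (by omega : p.2 ≤ 2 * N)
    have hlt' : (p.1 : ℝ) ≤ p.2 := by exact_mod_cast hlt.le
    have h1 := (hb p.1 p.2 (by linarith) hlt' (by linarith)).1
    rw [hτN] at h1
    rw [Nat.cast_sub hlt.le]
    have h2 : τ / N * ((p.2 : ℝ) - p.1) / C0 ≤ β := h1.trans hyy
    rw [div_le_iff₀ (by linarith)] at h2
    have h3 : (p.2 : ℝ) - p.1 = (τ / N * ((p.2 : ℝ) - p.1)) * (N / τ) := by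
      field_simp
    rw [h3]
    calc (τ / N * ((p.2 : ℝ) - p.1)) * (N / τ) ≤ (β * C0) * (N / τ) := mul_le_mul_of_nonneg_right h2 (by positivity)
      _ = C0 * Y := by
        rw [hY]
        ring
  rw [card_eq_sum_card_fiberwise hmap]
  push_cast
  have hfib : ∀ l ∈ Icc 1 L, ((S.filter fun p : ℕ × ℕ => p.2 - p.1 = l).card : ℝ) ≤ (k * C0 + 2) * C0 * (τ * L + α * N) := by
    intro l hl
    rw [mem_Icc] at hl
    have h1 : (S.filter fun p : ℕ × ℕ => p.2 - p.1 = l).card ≤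
        ((range (M - N - l)).filter fun u : ℕ => nrm (xx t k ((N + 1 + u + l : ℕ) : ℝ) - xx t k ((N + 1 + u : ℕ) : ℝ) - 0) ≤ α).card := by
      refine card_le_card_of_injOn (fun p : ℕ × ℕ => p.1 - (N + 1)) ?_ ?_
      · intro p hp
        rw [mem_coe, mem_filter, hS, mem_filter, mem_product, mem_Ioc, mem_Ioc] at hp
        obtain ⟨⟨⟨⟨hp1, hp2⟩, hp3, hp4⟩, hlt, -, hx⟩, hpl⟩ := hp
        rw [mem_coe, mem_filter, mem_range]
        refine ⟨by show p.1 - (N + 1) < M - N - l; omega, ?_⟩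
        have e1 : N + 1 + (p.1 - (N + 1)) = p.1 := by omega
        show nrm (xx t k ((N + 1 + (p.1 - (N + 1)) + l : ℕ) : ℝ) - xx t k ((N + 1 + (p.1 - (N + 1)) : ℕ) : ℝ) - 0) ≤ α
        rw [e1, ← hpl, show p.1 + (p.2 - p.1) = p.2 by omega, sub_zero]
        exact hx
      · intro p hp p' hp' h
        rw [mem_coe, mem_filter, hS, mem_filter, mem_product, mem_Ioc, mem_Ioc] at hp hp'
        obtain ⟨⟨⟨⟨hp1, hp2⟩, hp3, hp4⟩, hlt, -, -⟩, hpl⟩ := hp
        obtain ⟨⟨⟨⟨hp1', hp2'⟩, hp3', hp4'⟩, hlt', -, -⟩, hpl'⟩ := hp'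
        simp only at h
        ext
        · omega
        · omega
    have h2 := rz_fix k hk C0 t τ α hC0 N M l hN hM hl.1 hτ hτN hα hα2 hb
    have h3 : (l : ℝ) ≤ L := by exact_mod_cast hl.2
    calc ((S.filter fun p : ℕ × ℕ => p.2 - p.1 = l).card : ℝ) ≤ _ := by exact_mod_cast h1
      _ ≤ (k * C0 + 2) * C0 * (τ * l + α * N) := h2
      _ ≤ (k * C0 + 2) * C0 * (τ * L + α * N) := by
        refine mul_le_mul_of_nonneg_left ?_ (by positivity)
        have : τ * l ≤ τ * L := mul_le_mul_of_nonneg_left h3 (by linarith)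
        linarith
  refine (sum_le_sum hfib).trans ?_
  rw [sum_const, Nat.card_Icc, nsmul_eq_mul]
  have e3 : ((L + 1 - 1 : ℕ) : ℝ) = L := by
    rw [Nat.add_sub_cancel]
  rw [e3]
  have hL0 : (0 : ℝ) ≤ L := Nat.cast_nonneg L
  have h4 : (L : ℝ) * (τ * L + α * N) ≤ C0 ^ 2 * (τ * Y ^ 2 + α * N * Y) := by
    have h5 : (L : ℝ) * L ≤ (C0 * Y) * (C0 * Y) := mul_le_mul hLY hLY hL0 (by positivity)
    have h6 : (L : ℝ) * (α * N) ≤ (C0 * Y) * (α * N) := mul_le_mul_of_nonneg_right hLY (by positivity)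
    have h7 : τ * ((L : ℝ) * L) ≤ τ * ((C0 * Y) * (C0 * Y)) := mul_le_mul_of_nonneg_left h5 (by linarith)
    have h8 : C0 * (Y * (α * N)) ≤ C0 ^ 2 * (Y * (α * N)) := by
      refine mul_le_mul_of_nonneg_right ?_ (by positivity)
      nlinarith
    nlinarith
  calc (L : ℝ) * ((k * C0 + 2) * C0 * (τ * L + α * N)) = ((k * C0 + 2) * C0) * ((L : ℝ) * (τ * L + α * N)) := by ring
    _ ≤ ((k * C0 + 2) * C0) * (C0 ^ 2 * (τ * Y ^ 2 + α * N * Y)) := mul_le_mul_of_nonneg_left h4 (by positivity)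
    _ = (k * C0 + 2) * C0 * C0 ^ 2 * (τ * Y ^ 2 + α * N * Y) := by ring

end Pool.Agent.Lib.HC
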