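import Pool.Agent.Lib.HC.SumR
import Pool.Agent.Lib.HC.RZ

/-!
# HC / All (170 lines): the number of close pairs

PROOF.  Let `n < m` be counted (`nrm` of both differences small), `v = yy n - yy m > 0` (`fn_bd` (1)), `r = round v ≥ 0`, `|v - r| = nrm v ≤ β`.
`r = 0`: `v ≤ β`, counted by `rz_card`.  `r ≥ 1`: in `prs r`, and `r ≤ D τ` by `prs_r`, `D = C` (take `R = ⌊D τ⌋₊`); `prs_card`, `sum_bd`.  `τ = t/N^k`,
`1 ≤ τ ≤ N` (`N^k ≤ t`, `t H^(k+1) ≤ N^(k+1)`, `H ≥ 1`).  Sizes: with `X = N/τ = N^(k+1)/t`: `H^(k+1) ≤ X ≤ (2H)^(k+1)`.  `Y = β X`, `β ≤ b H^(-k)`, `α ≤ a H^(1-k)`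
(`a, b ≥ 1`), and `β ≥ H^(-k)/2`, so `1/2 ≤ Y ≤ 2^(k+1) b H`.  Target `Q = N + H N^(2/3) τ^(4/3)`.  Each term is `≤ C a^2 b^3 Q`:
`τ Y^2 ≤ C b^2 τ H^2 ≤ C b^2 N` (`H^2 ≤ H^(k+1) ≤ N/τ`); `α N Y ≤ C a b N H^(2-k) ≤ C a b N`;
`Y N α τ ≤ C a b N τ H^(2-k)`, and `N τ H^(2-k) ≤ C H N^(2/3) τ^(4/3)`: `(N/τ)^(1/3) ≤ (2H)^((k+1)/3) ≤ C H^(k-1)` (`k ≥ 3`: `(k+1)/3 ≤ k - 1`);
`Y N β^2 N ≤ C b^3 H^(1-2k) N^2`, `N ≤ τ (2H)^(k+1)`: `≤ C b^3 N τ H^(2-k)`, as before; `Y N τ^(4/3) N^(-1/3) ≤ C b H N^(2/3) τ^(4/3)`;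
`Y √(α N τ) ≤ C a b H √(H^(1-k) N τ)`, `N ≤ τ (2H)^(k+1)`: `≤ C a b H^2 τ ≤ C a b N`;
`Y β N √τ ≤ C b^2 H^(1-k) N √τ ≤ C b^2 H^2 τ^(3/2)` and `H^2 τ^(3/2) ≤ H N^(2/3) τ^(4/3)` because `H τ^(1/6) ≤ (N/τ)^(1/4) τ^(1/6) ≤ N^(2/3)`;
`Y τ N^(1/3) ≤ C b H τ N^(1/3) ≤ C b H N^(2/3) τ^(4/3)`.
-/

set_option autoImplicit false

namespace Pool.Agent.Lib.HC

open Finset Pool.Agent.Lib.HB

private theorem mono3 {K a b : ℝ} (hK : 1 ≤ K) (ha : 1 ≤ a) (hb : 1 ≤ b) (i p q : ℕ) (hi : i ≤ 3) (hp : p ≤ 2) (hq : q ≤ 3) :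
    K ^ i * a ^ p * b ^ q ≤ K ^ 3 * a ^ 2 * b ^ 3 := by
  have h1 := pow_le_pow_right₀ hK hi
  have h2 := pow_le_pow_right₀ ha hp
  have h3 := pow_le_pow_right₀ hb hq
  have hK0 : 0 ≤ K := by linarith
  have ha0 : 0 ≤ a := by linarith
  have hb0 : 0 ≤ b := by linarith
  exact mul_le_mul (mul_le_mul h1 h2 (pow_nonneg ha0 _) (pow_nonneg hK0 _)) h3 (pow_nonneg hb0 _) (by positivity)

/-- all the terms, in the variables `x = N^(1/3)`, `s = τ^(1/6)` -/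
private theorem all_num (j : ℕ) (hj : 2 ≤ j) (K x s H a b α β Y r : ℝ) (hK : 1 ≤ K) (hx : 1 ≤ x) (hs : 1 ≤ s) (hH : 1 ≤ H)
    (ha : 1 ≤ a) (hb : 1 ≤ b) (hα : 0 ≤ α) (hβ : 0 ≤ β) (h1 : s ^ 6 * H ^ (j + 2) ≤ x ^ 3) (h2 : x ^ 3 ≤ K * (s ^ 6 * H ^ (j + 2)))
    (hαH : α * H ^ j ≤ a) (hβH : β * H ^ (j + 1) ≤ b) (hY0 : 0 ≤ Y) (hY : Y ≤ K * b * H) (hr0 : 0 ≤ r) (hr : r ^ 2 = α * x ^ 3 * s ^ 6) :
    s ^ 6 * Y ^ 2 + α * x ^ 3 * Y ≤ 2 * (K ^ 3 * a ^ 2 * b ^ 3 * (x ^ 3 + H * (x ^ 2 * s ^ 8))) ∧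
    Y * (x ^ 3 * (α * s ^ 6 + β ^ 2 * x ^ 3 + s ^ 8 * x⁻¹)) + Y * (r + β * x ^ 3 * s ^ 3 + s ^ 6 * x) ≤
      6 * (K ^ 3 * a ^ 2 * b ^ 3 * (x ^ 3 + H * (x ^ 2 * s ^ 8))) := by
  have hK0 : 0 ≤ K := by linarith
  have hx0 : 0 ≤ x := by linarith
  have hs0 : 0 ≤ s := by linarith
  have hH0 : 0 ≤ H := by linarith
  have ha0 : 0 ≤ a := by linarith
  have hb0 : 0 ≤ b := by linarith
  obtain ⟨E, hE⟩ : ∃ E, E = K ^ 3 * a ^ 2 * b ^ 3 := ⟨_, rfl⟩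
  have hE0 : 0 ≤ E := by rw [hE]; positivity
  have hm : ∀ i p q : ℕ, i ≤ 3 → p ≤ 2 → q ≤ 3 → K ^ i * a ^ p * b ^ q ≤ E := fun i p q hi hp hq => by
    rw [hE]; exact mono3 hK ha hb i p q hi hp hq
  obtain ⟨G, hG⟩ : ∃ G, G = H * (x ^ 2 * s ^ 8) := ⟨_, rfl⟩
  have hG0 : 0 ≤ G := by rw [hG]; positivity
  obtain ⟨n, hn⟩ : ∃ n, n = x ^ 3 := ⟨_, rfl⟩
  have hn0 : 0 ≤ n := by rw [hn]; positivity
  have hH2 : H ^ 2 ≤ H ^ (j + 2) := pow_le_pow_right₀ hH (by omega)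
  have hHj : H ≤ H ^ j := le_self_pow₀ hH (by omega)
  have hHj1 : H ^ j ≤ H ^ (j + 1) := pow_le_pow_right₀ hH (by omega)
  have hL : x ≤ K * s ^ 2 * H ^ j := by
    refine (pow_le_pow_iff_left₀ hx0 (by positivity) (three_ne_zero)).1 ?_
    refine h2.trans ?_
    have e1 : (K * s ^ 2 * H ^ j) ^ 3 = K ^ 3 * (s ^ 6 * H ^ (3 * j)) := by
      rw [mul_pow, mul_pow, ← pow_mul, ← pow_mul]
      ring
    rw [e1]
    have e2 : H ^ (j + 2) ≤ H ^ (3 * j) := pow_le_pow_right₀ hH (by omega)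
    have e3 : K ≤ K ^ 3 := le_self_pow₀ hK (by norm_num)
    exact mul_le_mul e3 (mul_le_mul_of_nonneg_left e2 (by positivity)) (by positivity) (by positivity)
  have t0 : s ^ 6 * H ^ 2 ≤ n := by
    rw [hn]
    exact (mul_le_mul_of_nonneg_left hH2 (by positivity)).trans h1
  have T0a : s ^ 6 * Y ^ 2 ≤ E * n := by
    calc s ^ 6 * Y ^ 2 ≤ s ^ 6 * (K * b * H) ^ 2 := by
          refine mul_le_mul_of_nonneg_left (pow_le_pow_left₀ hY0 hY 2) (by positivity)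
      _ = K ^ 2 * a ^ 0 * b ^ 2 * (s ^ 6 * H ^ 2) := by ring
      _ ≤ E * n := mul_le_mul (hm 2 0 2 (by norm_num) (by norm_num) (by norm_num)) t0 (by positivity) hE0
  have T0b : α * n * Y ≤ E * n := by
    have e1 : α * H ≤ a := (mul_le_mul_of_nonneg_left hHj hα).trans hαH
    calc α * n * Y ≤ α * n * (K * b * H) := mul_le_mul_of_nonneg_left hY (by positivity)
      _ = K * b * (α * H) * n := by ring
      _ ≤ K * b * a * n := by gcongr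
      _ = K ^ 1 * a ^ 1 * b ^ 1 * n := by ring
      _ ≤ E * n := mul_le_mul_of_nonneg_right (hm 1 1 1 (by norm_num) (by norm_num) (by norm_num)) hn0
  have T1 : Y * (n * (α * s ^ 6)) ≤ E * G := by
    calc Y * (n * (α * s ^ 6)) ≤ (K * b * H) * (n * (α * s ^ 6)) := mul_le_mul_of_nonneg_right hY (by positivity)
      _ = (K * b * H * x ^ 2 * α * s ^ 6) * x := by rw [hn]; ring
      _ ≤ (K * b * H * x ^ 2 * α * s ^ 6) * (K * s ^ 2 * H ^ j) := mul_le_mul_of_nonneg_left hL (by positivity)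
      _ = K ^ 2 * b * G * (α * H ^ j) := by rw [hG]; ring
      _ ≤ K ^ 2 * b * G * a := mul_le_mul_of_nonneg_left hαH (by positivity)
      _ = K ^ 2 * a ^ 1 * b ^ 1 * G := by ring
      _ ≤ E * G := mul_le_mul_of_nonneg_right (hm 2 1 1 (by norm_num) (by norm_num) (by norm_num)) hG0
  have T2 : Y * (n * (β ^ 2 * n)) ≤ E * G := by
    calc Y * (n * (β ^ 2 * n)) ≤ (K * b * H) * (n * (β ^ 2 * n)) := mul_le_mul_of_nonneg_right hY (by positivity)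
      _ = (K * b * H * β ^ 2 * n * x ^ 2) * x := by rw [hn]; ring
      _ ≤ (K * b * H * β ^ 2 * n * x ^ 2) * (K * s ^ 2 * H ^ j) := mul_le_mul_of_nonneg_left hL (by positivity)
      _ = (K * b * H * β ^ 2 * x ^ 2 * (K * s ^ 2 * H ^ j)) * n := by ring
      _ ≤ (K * b * H * β ^ 2 * x ^ 2 * (K * s ^ 2 * H ^ j)) * (K * (s ^ 6 * H ^ (j + 2))) := by
          refine mul_le_mul_of_nonneg_left ?_ (by positivity)
          rw [hn]; exact h2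
      _ = K ^ 3 * b * G * (β * H ^ (j + 1)) ^ 2 := by rw [hG]; ring
      _ ≤ K ^ 3 * b * G * b ^ 2 := by
          refine mul_le_mul_of_nonneg_left (pow_le_pow_left₀ (by positivity) hβH 2) (by positivity)
      _ = K ^ 3 * a ^ 0 * b ^ 3 * G := by ring
      _ ≤ E * G := mul_le_mul_of_nonneg_right (hm 3 0 3 (by norm_num) (by norm_num) (by norm_num)) hG0
  have T3 : Y * (n * (s ^ 8 * x⁻¹)) ≤ E * G := by
    have hxne : x ≠ 0 := by linarith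
    calc Y * (n * (s ^ 8 * x⁻¹)) = Y * (x ^ 2 * s ^ 8) := by
          rw [hn]
          field_simp
      _ ≤ (K * b * H) * (x ^ 2 * s ^ 8) := mul_le_mul_of_nonneg_right hY (by positivity)
      _ = K ^ 1 * a ^ 0 * b ^ 1 * G := by rw [hG]; ring
      _ ≤ E * G := mul_le_mul_of_nonneg_right (hm 1 0 1 (by norm_num) (by norm_num) (by norm_num)) hG0
  have T4 : Y * r ≤ E * n := by
    have e1 : r ≤ a * K * (s ^ 6 * H) := by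
      refine (pow_le_pow_iff_left₀ hr0 (by positivity) (two_ne_zero)).1 ?_
      rw [hr]
      calc α * x ^ 3 * s ^ 6 ≤ α * (K * (s ^ 6 * H ^ (j + 2))) * s ^ 6 := by gcongr
        _ = (α * H ^ j) * K * (s ^ 6 * H) ^ 2 := by ring
        _ ≤ a * K * (s ^ 6 * H) ^ 2 := by gcongr
        _ ≤ (a * K) ^ 2 * (s ^ 6 * H) ^ 2 := by
            refine mul_le_mul_of_nonneg_right (le_self_pow₀ ?_ (by norm_num)) (by positivity)
            nlinarith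
        _ = (a * K * (s ^ 6 * H)) ^ 2 := by ring
    calc Y * r ≤ (K * b * H) * (a * K * (s ^ 6 * H)) := mul_le_mul hY e1 hr0 (by positivity)
      _ = K ^ 2 * a ^ 1 * b ^ 1 * (s ^ 6 * H ^ 2) := by ring
      _ ≤ E * n := mul_le_mul (hm 2 1 1 (by norm_num) (by norm_num) (by norm_num)) t0 (by positivity) hE0
  have T5 : Y * (β * n * s ^ 3) ≤ E * G := by
    have e1 : β * H ^ j ≤ b := (mul_le_mul_of_nonneg_left hHj1 hβ).trans hβH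
    have e2 : s ^ 5 ≤ s ^ 8 := pow_le_pow_right₀ hs (by norm_num)
    calc Y * (β * n * s ^ 3) ≤ (K * b * H) * (β * n * s ^ 3) := mul_le_mul_of_nonneg_right hY (by positivity)
      _ = (K * b * H * x ^ 2 * β * s ^ 3) * x := by rw [hn]; ring
      _ ≤ (K * b * H * x ^ 2 * β * s ^ 3) * (K * s ^ 2 * H ^ j) := mul_le_mul_of_nonneg_left hL (by positivity)
      _ = (K ^ 2 * b * H * x ^ 2 * s ^ 5) * (β * H ^ j) := by ring
      _ ≤ (K ^ 2 * b * H * x ^ 2 * s ^ 5) * b := mul_le_mul_of_nonneg_left e1 (by positivity)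
      _ = (K ^ 2 * b ^ 2 * H * x ^ 2) * s ^ 5 := by ring
      _ ≤ (K ^ 2 * b ^ 2 * H * x ^ 2) * s ^ 8 := mul_le_mul_of_nonneg_left e2 (by positivity)
      _ = K ^ 2 * a ^ 0 * b ^ 2 * G := by rw [hG]; ring
      _ ≤ E * G := mul_le_mul_of_nonneg_right (hm 2 0 2 (by norm_num) (by norm_num) (by norm_num)) hG0
  have T6 : Y * (s ^ 6 * x) ≤ E * G := by
    have e1 : x ≤ x ^ 2 := le_self_pow₀ hx (by norm_num)
    have e2 : s ^ 6 ≤ s ^ 8 := pow_le_pow_right₀ hs (by norm_num)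
    calc Y * (s ^ 6 * x) ≤ (K * b * H) * (s ^ 8 * x ^ 2) := by
          refine mul_le_mul hY (mul_le_mul e2 e1 hx0 (by positivity)) (by positivity) (by positivity)
      _ = K ^ 1 * a ^ 0 * b ^ 1 * G := by rw [hG]; ring
      _ ≤ E * G := mul_le_mul_of_nonneg_right (hm 1 0 1 (by norm_num) (by norm_num) (by norm_num)) hG0
  have hEn : 0 ≤ E * n := mul_nonneg hE0 hn0
  have hEG : 0 ≤ E * G := mul_nonneg hE0 hG0
  rw [← hE, ← hG, ← hn]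
  constructor
  · have e1 : E * (n + G) = E * n + E * G := by ring
    rw [e1]
    linarith
  · have e1 : E * (n + G) = E * n + E * G := by ring
    have e2 : Y * (n * (α * s ^ 6 + β ^ 2 * n + s ^ 8 * x⁻¹)) + Y * (r + β * n * s ^ 3 + s ^ 6 * x) =
        Y * (n * (α * s ^ 6)) + Y * (n * (β ^ 2 * n)) + Y * (n * (s ^ 8 * x⁻¹)) + Y * r + Y * (β * n * s ^ 3) + Y * (s ^ 6 * x) := by ring
    rw [e1, e2]
    linarith

open Classical in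
theorem all_card (k : ℕ) (hk : 3 ≤ k) : ∃ C : ℝ, 1 ≤ C ∧ ∀ (t : ℝ) (N M H : ℕ) (α β a b : ℝ), 1 ≤ N → M ≤ 2 * N → 1 ≤ H →
    (N : ℝ) ^ k ≤ t → t * (H : ℝ) ^ (k + 1) ≤ (N : ℝ) ^ (k + 1) → (N : ℝ) ^ (k + 1) ≤ t * (2 * (H : ℝ)) ^ (k + 1) →
    1 ≤ a → 1 ≤ b → 0 ≤ α → α ≤ 1 / 2 → α * (H : ℝ) ^ (k - 1) ≤ a → β ≤ 1 / 2 → 1 / 2 ≤ β * (H : ℝ) ^ k → β * (H : ℝ) ^ k ≤ b →
      ((((Ioc N M) ×ˢ (Ioc N M)).filter fun p : ℕ × ℕ => p.1 < p.2 ∧ nrm (yy t k p.1 - yy t k p.2) ≤ β ∧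
        nrm (xx t k p.2 - xx t k p.1) ≤ α).card : ℝ) ≤
        C * (1 + Real.log N) * (a ^ 2 * b ^ 3) * (N + H * (N : ℝ) ^ (2 / 3 : ℝ) * (t / (N : ℝ) ^ k) ^ (4 / 3 : ℝ)) := by
  obtain ⟨C0, hC0, h0⟩ := fn_bd k (by omega)
  obtain ⟨Dp, hDp, hr⟩ := prs_r k (by omega)
  obtain ⟨Cp, hCp, hp⟩ := prs_card k (by omega)
  obtain ⟨Cz, hCz, hz⟩ := rz_card k (by omega)
  obtain ⟨Cs, hCs, hsum⟩ := sum_bd Dp hDp
  obtain ⟨K, hKdef⟩ : ∃ K : ℝ, K = 2 ^ (k + 1) := ⟨_, rfl⟩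
  have hK1 : 1 ≤ K := by rw [hKdef]; exact one_le_pow₀ (by norm_num)
  have hK3 : 1 ≤ K ^ 3 := one_le_pow₀ hK1
  refine ⟨(2 * Cz + 6 * (Cp * Cs)) * K ^ 3, ?_, ?_⟩
  · have e1 : 1 ≤ Cp * Cs := by nlinarith
    have e2 : 1 ≤ 2 * Cz + 6 * (Cp * Cs) := by linarith
    nlinarith
  intro t N M H α β a b hN hM hH hNt h1 h2 ha hb hα0 hα1 hαH hβ1 hβ2 hβH
  have hN1 : (1 : ℝ) ≤ N := by exact_mod_cast hN
  have hH1 : (1 : ℝ) ≤ H := by exact_mod_cast hH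
  have hN0 : (0 : ℝ) < N := by linarith
  have hH0 : (0 : ℝ) < H := by linarith
  have hNk : (0 : ℝ) < (N : ℝ) ^ k := by positivity
  have ht : 0 < t := lt_of_lt_of_le hNk hNt
  have hHk : (0 : ℝ) < (H : ℝ) ^ k := by positivity
  have hβ0 : 0 < β := by
    by_contra hc
    rw [not_lt] at hc
    have := mul_nonpos_of_nonpos_of_nonneg hc hHk.le
    linarith
  obtain ⟨τ, hτ⟩ : ∃ τ : ℝ, τ = t / (N : ℝ) ^ k := ⟨_, rfl⟩
  have hτ1 : 1 ≤ τ := by rw [hτ, le_div_iff₀ hNk]; linarith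
  have hτ0 : 0 < τ := by linarith
  have htau : t = τ * (N : ℝ) ^ k := by rw [hτ]; field_simp
  have h1' : τ * (H : ℝ) ^ (k + 1) ≤ N := by
    have e1 : (τ * (H : ℝ) ^ (k + 1)) * (N : ℝ) ^ k ≤ N * (N : ℝ) ^ k := by
      calc (τ * (H : ℝ) ^ (k + 1)) * (N : ℝ) ^ k = t * (H : ℝ) ^ (k + 1) := by rw [htau]; ring
        _ ≤ (N : ℝ) ^ (k + 1) := h1
        _ = N * (N : ℝ) ^ k := by ring
    exact le_of_mul_le_mul_right e1 hNk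
  have h2' : (N : ℝ) ≤ K * (τ * (H : ℝ) ^ (k + 1)) := by
    have e1 : N * (N : ℝ) ^ k ≤ (K * (τ * (H : ℝ) ^ (k + 1))) * (N : ℝ) ^ k := by
      calc N * (N : ℝ) ^ k = (N : ℝ) ^ (k + 1) := by ring
        _ ≤ t * (2 * (H : ℝ)) ^ (k + 1) := h2
        _ = (K * (τ * (H : ℝ) ^ (k + 1))) * (N : ℝ) ^ k := by rw [htau, hKdef, mul_pow]; ring
    exact le_of_mul_le_mul_right e1 hNk
  have hHk1 : (1 : ℝ) ≤ (H : ℝ) ^ (k + 1) := one_le_pow₀ hH1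
  have hτN : τ ≤ N := by nlinarith
  obtain ⟨Y, hY⟩ : ∃ Y : ℝ, Y = β * N / τ := ⟨_, rfl⟩
  have hYle : Y ≤ K * b * H := by
    rw [hY, div_le_iff₀ hτ0]
    calc β * N ≤ β * (K * (τ * (H : ℝ) ^ (k + 1))) := mul_le_mul_of_nonneg_left h2' hβ0.le
      _ = K * (β * (H : ℝ) ^ k) * H * τ := by ring
      _ ≤ K * b * H * τ := by gcongr
  have hYge : 1 / 2 ≤ Y := by
    rw [hY, le_div_iff₀ hτ0]
    have e1 : β * (τ * (H : ℝ) ^ (k + 1)) ≤ β * N := mul_le_mul_of_nonneg_left h1' hβ0.le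
    have e2 : β * (τ * (H : ℝ) ^ (k + 1)) = (β * (H : ℝ) ^ k) * (H * τ) := by ring
    have e3 : 1 / 2 * τ ≤ (β * (H : ℝ) ^ k) * (H * τ) := by
      refine mul_le_mul hβ2 ?_ hτ0.le (by positivity)
      nlinarith
    linarith
  have hY0 : 0 ≤ Y := by linarith
  -- the union of the classes
  obtain ⟨R, hR⟩ : ∃ R : ℕ, R = ⌊Dp * τ⌋₊ := ⟨_, rfl⟩
  have hRle : (R : ℝ) ≤ Dp * τ := by rw [hR]; exact Nat.floor_le (by positivity)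
  have hsub : (((Ioc N M) ×ˢ (Ioc N M)).filter fun p : ℕ × ℕ => p.1 < p.2 ∧ nrm (yy t k p.1 - yy t k p.2) ≤ β ∧
        nrm (xx t k p.2 - xx t k p.1) ≤ α) ⊆
      (((Ioc N M) ×ˢ (Ioc N M)).filter fun p : ℕ × ℕ => p.1 < p.2 ∧ yy t k p.1 - yy t k p.2 ≤ β ∧
        nrm (xx t k p.2 - xx t k p.1) ≤ α) ∪ (Icc 1 R).biUnion fun r => prs t k N M r α β := by
    rintro ⟨n, m⟩ hnm
    rw [mem_filter, mem_product, mem_Ioc, mem_Ioc] at hnm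
    obtain ⟨⟨⟨hn1, hn2⟩, hm1, hm2⟩, hlt, hy, hxx⟩ := hnm
    dsimp only at hn1 hn2 hm1 hm2 hlt hy hxx
    rw [mem_union]
    have hmM : (m : ℝ) ≤ 2 * N := by exact_mod_cast hm2.trans hM
    have hNn : (N : ℝ) ≤ n := by exact_mod_cast hn1.le
    have hnm' : (n : ℝ) ≤ m := by exact_mod_cast hlt.le
    have hv0 : 0 ≤ yy t k n - yy t k m := by
      have e1 := ((h0 t N ht hN1).1 n m (by linarith) hnm' (by linarith)).1
      refine le_trans ?_ e1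
      have : 0 ≤ (m : ℝ) - n := by linarith
      positivity
    obtain ⟨v, hv⟩ : ∃ v : ℝ, v = yy t k n - yy t k m := ⟨_, rfl⟩
    rw [← hv] at hy hv0
    have hr0 : 0 ≤ round v := by
      by_contra hc
      have e1 : round v ≤ -1 := by omega
      have e2 : ((round v : ℤ) : ℝ) ≤ -1 := by exact_mod_cast e1
      have e3 := abs_sub_round v
      rw [abs_le] at e3
      linarith [e3.2]
    obtain ⟨r, hrr⟩ := Int.eq_ofNat_of_zero_le hr0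
    have hrr' : ((round v : ℤ) : ℝ) = r := by rw [hrr]; simp
    have hyr : |v - r| ≤ β := by rw [← hrr']; exact hy
    by_cases hr1 : r = 0
    · left
      rw [mem_filter, mem_product, mem_Ioc, mem_Ioc]
      refine ⟨⟨⟨hn1, hn2⟩, hm1, hm2⟩, hlt, ?_, hxx⟩
      dsimp only
      rw [← hv]
      rw [hr1, Nat.cast_zero, sub_zero] at hyr
      exact (le_abs_self _).trans hyr
    · right
      have hmem : (n, m) ∈ prs t k N M r α β := by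
        unfold prs
        rw [mem_filter, mem_product, mem_Ioc, mem_Ioc]
        refine ⟨⟨⟨hn1, hn2⟩, hm1, hm2⟩, hlt, ?_, hxx⟩
        dsimp only
        rw [← hv]
        exact hyr
      rw [mem_biUnion]
      refine ⟨r, ?_, hmem⟩
      rw [mem_Icc]
      refine ⟨Nat.one_le_iff_ne_zero.mpr hr1, ?_⟩
      rw [hR]
      refine Nat.le_floor ?_
      rw [hτ]
      exact hr t N M r α β ht hN hM (Nat.one_le_iff_ne_zero.mpr hr1) hβ1 ⟨_, hmem⟩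
  have hcard := (card_le_card hsub).trans ((card_union_le _ _).trans (Nat.add_le_add_left card_biUnion_le _))
  have hcard' : ((((Ioc N M) ×ˢ (Ioc N M)).filter fun p : ℕ × ℕ => p.1 < p.2 ∧ nrm (yy t k p.1 - yy t k p.2) ≤ β ∧
        nrm (xx t k p.2 - xx t k p.1) ≤ α).card : ℝ) ≤
      ((((Ioc N M) ×ˢ (Ioc N M)).filter fun p : ℕ × ℕ => p.1 < p.2 ∧ yy t k p.1 - yy t k p.2 ≤ β ∧
        nrm (xx t k p.2 - xx t k p.1) ≤ α).card : ℝ) + ∑ r ∈ Icc 1 R, ((prs t k N M r α β).card : ℝ) := by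
    exact_mod_cast hcard
  have hzero := hz t N M α β hN hM hNt hα0 hα1 hβ0
  rw [← hτ, ← hY] at hzero
  have hcls : ∑ r ∈ Icc 1 R, ((prs t k N M r α β).card : ℝ) ≤ Cp * ∑ r ∈ Icc 1 R, bd N τ r α β := by
    rw [mul_sum]
    refine sum_le_sum fun r hr => ?_
    rw [hτ]
    exact hp t N M r α β ht hN hM (mem_Icc.1 hr).1 hα0 hβ0 hβ1
  have hs1 := hsum R N τ α β hτ1 hτN hRle hα0 hβ0 (by rw [← hY]; exact hYge)
  rw [← hY] at hs1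
  -- the variables x, s
  obtain ⟨x, hx⟩ : ∃ x : ℝ, x = (N : ℝ) ^ (1 / 3 : ℝ) := ⟨_, rfl⟩
  obtain ⟨s, hs⟩ : ∃ s : ℝ, s = τ ^ (1 / 6 : ℝ) := ⟨_, rfl⟩
  have hx1 : 1 ≤ x := by rw [hx]; exact Real.one_le_rpow hN1 (by norm_num)
  have hs1' : 1 ≤ s := by rw [hs]; exact Real.one_le_rpow hτ1 (by norm_num)
  have hx3 : (N : ℝ) = x ^ 3 := by
    rw [hx, ← Real.rpow_natCast, ← Real.rpow_mul hN0.le]
    norm_num
  have hx2 : (N : ℝ) ^ (2 / 3 : ℝ) = x ^ 2 := by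
    rw [hx, ← Real.rpow_natCast, ← Real.rpow_mul hN0.le]
    norm_num
  have hxm : (N : ℝ) ^ (-(1 / 3) : ℝ) = x⁻¹ := by
    rw [hx, Real.rpow_neg hN0.le]
  have hs6 : τ = s ^ 6 := by
    rw [hs, ← Real.rpow_natCast, ← Real.rpow_mul hτ0.le]
    norm_num
  have hs8 : τ ^ (4 / 3 : ℝ) = s ^ 8 := by
    rw [hs, ← Real.rpow_natCast, ← Real.rpow_mul hτ0.le]
    norm_num
  have hs3 : τ ^ (1 / 2 : ℝ) = s ^ 3 := by
    rw [hs, ← Real.rpow_natCast, ← Real.rpow_mul hτ0.le]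
    norm_num
  obtain ⟨r, hrdef⟩ : ∃ r : ℝ, r = (α * N * τ) ^ (1 / 2 : ℝ) := ⟨_, rfl⟩
  have hr0 : 0 ≤ r := by rw [hrdef]; positivity
  have hr2 : r ^ 2 = α * x ^ 3 * s ^ 6 := by
    rw [hrdef, ← Real.rpow_natCast, ← Real.rpow_mul (by positivity), ← hx3, ← hs6]
    norm_num
  obtain ⟨j, rfl⟩ : ∃ j, k = j + 1 := ⟨k - 1, by omega⟩
  rw [Nat.add_sub_cancel] at hαH
  have hnum := all_num j (by omega) K x s H a b α β Y r hK1 hx1 hs1' hH1 ha hb hα0 hβ0.le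
    (by rw [← hx3, ← hs6]; exact h1') (by rw [← hx3, ← hs6]; exact h2') hαH hβH hY0 hYle hr0 hr2
  obtain ⟨hnum1, hnum2⟩ := hnum
  rw [← hrdef, hs8, hxm, hs3, ← hx] at hs1
  rw [← hx3] at hnum1 hnum2
  rw [← hs6] at hnum1 hnum2
  obtain ⟨L, hL⟩ : ∃ L : ℝ, L = 1 + Real.log N := ⟨_, rfl⟩
  have hL1 : 1 ≤ L := by rw [hL]; linarith [Real.log_nonneg hN1]
  rw [← hL] at hs1 ⊢
  obtain ⟨Q, hQ⟩ : ∃ Q : ℝ, Q = N + H * (x ^ 2 * s ^ 8) := ⟨_, rfl⟩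
  have hQ0 : 0 ≤ Q := by rw [hQ]; positivity
  rw [← hQ] at hnum1 hnum2
  have hQ' : (N : ℝ) + H * (N : ℝ) ^ (2 / 3 : ℝ) * (t / (N : ℝ) ^ (j + 1)) ^ (4 / 3 : ℝ) = Q := by
    rw [hQ, ← hτ, hs8, hx2]
    ring
  rw [hQ']
  obtain ⟨E, hE⟩ : ∃ E : ℝ, E = K ^ 3 * a ^ 2 * b ^ 3 := ⟨_, rfl⟩
  have hE0 : 0 ≤ E := by rw [hE]; positivity
  rw [← hE] at hnum1 hnum2
  have hEQ : 0 ≤ E * Q := mul_nonneg hE0 hQ0
  have hgoal : (2 * Cz + 6 * (Cp * Cs)) * K ^ 3 * L * (a ^ 2 * b ^ 3) * Q = 2 * Cz * (L * (E * Q)) + 6 * (Cp * Cs) * (L * (E * Q)) := by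
    rw [hE]; ring
  rw [hgoal]
  have hLEQ : E * Q ≤ L * (E * Q) := by nlinarith
  have hCz0 : 0 ≤ Cz := by linarith
  have hCp0 : 0 ≤ Cp := by linarith
  have hCs0 : 0 ≤ Cs := by linarith
  have hzero' : Cz * (τ * Y ^ 2 + α * N * Y) ≤ 2 * Cz * (L * (E * Q)) := by
    calc Cz * (τ * Y ^ 2 + α * N * Y) ≤ Cz * (2 * (E * Q)) := mul_le_mul_of_nonneg_left hnum1 hCz0
      _ ≤ Cz * (2 * (L * (E * Q))) := mul_le_mul_of_nonneg_left (by linarith) hCz0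
      _ = 2 * Cz * (L * (E * Q)) := by ring
  have hone' : Cp * ∑ r ∈ Icc 1 R, bd N τ r α β ≤ 6 * (Cp * Cs) * (L * (E * Q)) := by
    calc Cp * ∑ r ∈ Icc 1 R, bd N τ r α β ≤ Cp * (Cs * L * (6 * (E * Q))) := by
          refine mul_le_mul_of_nonneg_left (hs1.trans ?_) hCp0
          exact mul_le_mul_of_nonneg_left hnum2 (by positivity)
      _ = 6 * (Cp * Cs) * (L * (E * Q)) := by ring
  linarith

end Pool.Agent.Lib.HC
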