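import Pool.Agent.Lib.HC.FJ
import Pool.Agent.Lib.HB.FB

/-!
# HC / BJ (180 lines): the new estimate for the zeta blocks

PROOF.  Copy of `HB/FB.lean` (`hblk`; copy its private lemmas `fb_norm`, `fb_triv`, `fb_H`) with `firstJ`, `q = k + 1 ≥ 4`, `(4q-3)/(3q) = (4k+1)/(3(k+1))`.
`t > N^q`: the first power is `≥ 1`, trivial bound.  The term `H` of `shiftAv`: `H ≤ N t^(-1/q) ≤ N N^(-(q-1)/q) ≤ N N^(-1/(q(q-1)))` (`t ≥ N^(q-1)`).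
-/

set_option autoImplicit false

namespace Pool.Agent.Lib.HC

open Finset Pool.Agent.Lib.ZB Pool.Agent.Lib.HB

private theorem bj_norm {t : ℝ} (ht : 0 < t) (n : ℕ) : ‖(n : ℂ) ^ (-((t : ℂ) * Complex.I))‖ ≤ 1 := by
  rcases Nat.eq_zero_or_pos n with h | h
  · rw [h, Nat.cast_zero, Complex.zero_cpow, norm_zero]
    · exact zero_le_one
    · rw [neg_ne_zero]
      exact mul_ne_zero (Complex.ofReal_ne_zero.2 ht.ne') Complex.I_ne_zero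
  · rw [Complex.norm_natCast_cpow_of_pos h]
    simp

private theorem bj_triv {t : ℝ} (ht : 0 < t) {N M : ℕ} (hM : M ≤ 2 * N) :
    ‖∑ n ∈ Ioc N M, (n : ℂ) ^ (-((t : ℂ) * Complex.I))‖ ≤ N := by
  refine (norm_sum_le _ _).trans ((sum_le_sum fun n _ => bj_norm ht n).trans ?_)
  rw [sum_const, Nat.card_Ioc, nsmul_eq_mul, mul_one]
  exact_mod_cast (by omega : M - N ≤ N)

/-- the length `H` -/
private theorem bj_H {q N : ℕ} (hq : 3 ≤ q) (hN : 1 ≤ N) {t : ℝ} (ht : 1 ≤ t) (htN : t ≤ (N : ℝ) ^ q) :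
    ∃ H : ℕ, 1 ≤ H ∧ H ≤ N ∧ t * (H : ℝ) ^ q ≤ (N : ℝ) ^ q ∧ (N : ℝ) ^ q ≤ t * (2 * (H : ℝ)) ^ q ∧
      (H : ℝ) ≤ N * t ^ (-(1 / (q : ℝ))) := by
  have ht0 : 0 < t := by linarith
  have hN1 : (1 : ℝ) ≤ N := by exact_mod_cast hN
  have hN0 : (0 : ℝ) < N := by linarith
  have hq0 : q ≠ 0 := by omega
  have hq3 : (3 : ℝ) ≤ q := by exact_mod_cast hq
  obtain ⟨x, hx⟩ : ∃ x : ℝ, x = N * t ^ (-(1 / (q : ℝ))) := ⟨_, rfl⟩
  have hx0 : 0 < x := by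
    rw [hx]
    positivity
  have hxq : x ^ q = (N : ℝ) ^ q / t := by
    rw [hx, mul_pow, ← Real.rpow_natCast (t ^ (-(1 / (q : ℝ)))) q, ← Real.rpow_mul ht0.le]
    have e1 : -(1 / (q : ℝ)) * q = -1 := by
      field_simp
    rw [e1, Real.rpow_neg_one, div_eq_mul_inv]
  have hx1 : 1 ≤ x := by
    by_contra h
    have h1 : x ^ q < 1 := pow_lt_one₀ hx0.le (not_le.1 h) hq0
    rw [hxq, div_lt_one ht0] at h1
    linarith
  refine ⟨⌊x⌋₊, Nat.le_floor (by exact_mod_cast hx1), ?_, ?_, ?_, ?_⟩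
  · refine Nat.floor_le_of_le ?_
    rw [hx]
    have : t ^ (-(1 / (q : ℝ))) ≤ 1 := Real.rpow_le_one_of_one_le_of_nonpos ht (by
      rw [neg_nonpos]
      positivity)
    exact mul_le_of_le_one_right hN0.le this
  · have h1 : ((⌊x⌋₊ : ℕ) : ℝ) ^ q ≤ x ^ q := pow_le_pow_left₀ (Nat.cast_nonneg _) (Nat.floor_le hx0.le) q
    rw [hxq, le_div_iff₀ ht0] at h1
    linarith
  · have h2 : (1 : ℝ) ≤ (⌊x⌋₊ : ℕ) := by
      have : 1 ≤ ⌊x⌋₊ := Nat.le_floor (by exact_mod_cast hx1)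
      exact_mod_cast this
    have h3 : x ≤ 2 * ((⌊x⌋₊ : ℕ) : ℝ) := by
      have := Nat.lt_floor_add_one x
      linarith
    have h1 : x ^ q ≤ (2 * ((⌊x⌋₊ : ℕ) : ℝ)) ^ q := pow_le_pow_left₀ hx0.le h3 q
    rw [hxq, div_le_iff₀ ht0] at h1
    linarith
  · rw [← hx]
    exact Nat.floor_le hx0.le

/-- `N t^(-1/q) ≤ N N^(-1/(q(q-1)))` for `t ≥ N^(q-1)`, `q = k + 1` -/
private theorem bj_exp {k N : ℕ} (hk : 3 ≤ k) (hN : 1 ≤ N) {t : ℝ} (ht : (N : ℝ) ^ k ≤ t) :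
    t ^ (-(1 / ((k + 1 : ℕ) : ℝ))) ≤ (N : ℝ) ^ (-(1 / (((k + 1 : ℕ) : ℝ) * k))) := by
  have hN1 : (1 : ℝ) ≤ N := by exact_mod_cast hN
  have hN0 : (0 : ℝ) < N := by linarith
  have hk3 : (3 : ℝ) ≤ k := by exact_mod_cast hk
  have hq : (0 : ℝ) < ((k + 1 : ℕ) : ℝ) := by positivity
  calc t ^ (-(1 / ((k + 1 : ℕ) : ℝ))) ≤ ((N : ℝ) ^ k) ^ (-(1 / ((k + 1 : ℕ) : ℝ))) :=
        Real.rpow_le_rpow_of_nonpos (by positivity) ht (by
          rw [neg_nonpos]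
          positivity)
    _ = (N : ℝ) ^ ((k : ℝ) * (-(1 / ((k + 1 : ℕ) : ℝ)))) := by
        rw [← Real.rpow_natCast, ← Real.rpow_mul hN0.le]
    _ ≤ (N : ℝ) ^ (-(1 / (((k + 1 : ℕ) : ℝ) * k))) := by
        refine Real.rpow_le_rpow_of_exponent_le hN1 ?_
        have h1 : (k : ℝ) * (-(1 / ((k + 1 : ℕ) : ℝ))) = -(k / ((k + 1 : ℕ) : ℝ)) := by ring
        rw [h1, neg_le_neg_iff, div_le_div_iff₀ (by positivity) hq]
        have h2 : (1 : ℝ) ≤ k * k := by nlinarith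
        nlinarith

theorem hblkJ (hV : VMV) (q : ℕ) (hq : 4 ≤ q) {ε : ℝ} (hε : 0 < ε) : ∃ C : ℝ, 0 ≤ C ∧ ∀ (N M : ℕ), 1 ≤ N →
    N ≤ M → M ≤ 2 * N → ∀ t : ℝ, (N : ℝ) ^ (q - 1) ≤ t →
    ‖∑ n ∈ Finset.Ioc N M, (n : ℂ) ^ (-((t : ℂ) * Complex.I))‖ ≤ C * (N : ℝ) ^ (1 + ε) *
      ((t / (N : ℝ) ^ q) ^ ((4 * (q : ℝ) - 3) / (3 * q) / (q * (q - 1))) + (N : ℝ) ^ (-(1 / ((q : ℝ) * (q - 1))))) := by
  obtain ⟨k, rfl⟩ : ∃ k, q = k + 1 := ⟨q - 1, by omega⟩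
  have hk3 : 3 ≤ k := by omega
  have hkr : (3 : ℝ) ≤ k := by exact_mod_cast hk3
  obtain ⟨C1, hC1, hfirst⟩ := firstJ hV k hk3 (ε := ε / 2) (by positivity)
  refine ⟨2 * (2 + 2 / ε) * C1 + 1, by positivity, ?_⟩
  intro N M hN hNM hM t hNt
  rw [Nat.add_sub_cancel] at hNt
  have hN1 : (1 : ℝ) ≤ N := by exact_mod_cast hN
  have hN0 : (0 : ℝ) < N := by linarith
  have ht1 : 1 ≤ t := (one_le_pow₀ hN1).trans hNt
  have ht0 : 0 < t := by linarith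
  have ek : ((k + 1 : ℕ) : ℝ) - 1 = k := by
    push_cast
    ring
  rw [ek]
  obtain ⟨E1, hE1⟩ : ∃ E1 : ℝ, E1 = (4 * ((k + 1 : ℕ) : ℝ) - 3) / (3 * ((k + 1 : ℕ) : ℝ)) / (((k + 1 : ℕ) : ℝ) * k) := ⟨_, rfl⟩
  rw [← hE1]
  have hE0 : 0 ≤ E1 := by
    rw [hE1]
    have h1 : (0 : ℝ) ≤ 4 * ((k + 1 : ℕ) : ℝ) - 3 := by
      push_cast
      linarith
    positivity
  obtain ⟨S, hS⟩ : ∃ S : ℝ, S = (t / (N : ℝ) ^ (k + 1)) ^ E1 + (N : ℝ) ^ (-(1 / (((k + 1 : ℕ) : ℝ) * k))) := ⟨_, rfl⟩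
  rw [← hS]
  have hS0 : 0 ≤ S := by
    rw [hS]
    positivity
  have hNε : (1 : ℝ) ≤ (N : ℝ) ^ ε := Real.one_le_rpow hN1 hε.le
  have hN1ε : (N : ℝ) ^ (1 + ε) = N * (N : ℝ) ^ ε := by rw [Real.rpow_add hN0, Real.rpow_one]
  have hbig : ∀ x : ℝ, x ≤ S → 0 ≤ x → (N : ℝ) * x ≤ (N : ℝ) ^ (1 + ε) * S := by
    intro x hx hx0
    rw [hN1ε]
    calc (N : ℝ) * x ≤ N * S := mul_le_mul_of_nonneg_left hx hN0.le
      _ ≤ N * ((N : ℝ) ^ ε * S) := by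
          refine mul_le_mul_of_nonneg_left ?_ hN0.le
          exact le_mul_of_one_le_left hS0 hNε
      _ = _ := by ring
  have hpart : 0 ≤ 2 * (2 + 2 / ε) * C1 * ((N : ℝ) ^ (1 + ε) * S) := by positivity
  rcases lt_or_ge ((N : ℝ) ^ (k + 1)) t with hcase | hcase
  · -- trivial bound
    have h1 : 1 ≤ S := by
      have h2 : 1 ≤ (t / (N : ℝ) ^ (k + 1)) ^ E1 := by
        refine Real.one_le_rpow ?_ hE0
        rw [one_le_div (by positivity)]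
        exact hcase.le
      have h3 : 0 ≤ (N : ℝ) ^ (-(1 / (((k + 1 : ℕ) : ℝ) * k))) := by positivity
      rw [hS]
      linarith
    have h5 := hbig 1 h1 zero_le_one
    have h6 := bj_triv ht0 hM
    calc _ ≤ (N : ℝ) := h6
      _ ≤ (N : ℝ) ^ (1 + ε) * S := by linarith
      _ ≤ _ := by
          have : (2 * (2 + 2 / ε) * C1 + 1) * (N : ℝ) ^ (1 + ε) * S =
            2 * (2 + 2 / ε) * C1 * ((N : ℝ) ^ (1 + ε) * S) + (N : ℝ) ^ (1 + ε) * S := by ring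
          linarith
  obtain ⟨H, hH1, hHN, hH2, hH3, hH4⟩ := bj_H (by omega : 3 ≤ k + 1) hN ht1 hcase
  have hH0 : (0 : ℝ) < H := by exact_mod_cast hH1
  -- the sums
  have hsh := shiftAv (fun n => (n : ℂ) ^ (-((t : ℂ) * Complex.I))) (fun n => bj_norm ht0 n) N M H hH1 hNM
  have hblock : ∀ n ∈ Ioc N M, ‖∑ h ∈ range H, ((n + h : ℕ) : ℂ) ^ (-((t : ℂ) * Complex.I))‖ ≤
      2 * ∑ r ∈ range H, lamC H r * ‖∑ h ∈ range H, e ((h : ℝ) * r / H) * e (ph k (cz t n) h)‖ := by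
    intro n hn
    rw [mem_Ioc] at hn
    refine blockT k t ht0.le n H (by omega) ?_ _ ?_
    · refine hH2.trans (pow_le_pow_left₀ hN0.le ?_ _)
      exact_mod_cast hn.1.le
    · intro H' hH'
      refine (complH H (fun h => e (ph k (cz t n) h)) H' hH').trans (le_of_eq ?_)
      refine sum_congr rfl fun r _ => ?_
      congr 2
      exact sum_congr rfl fun h _ => mul_comm _ _
  have hfi : ∀ r ∈ range H, ∑ n ∈ Ioc N M, ‖∑ h ∈ range H, e ((h : ℝ) * r / H) * e (ph k (cz t n) h)‖ ≤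
      C1 * (H : ℝ) * (N : ℝ) ^ (1 + ε / 2) * S := by
    intro r _
    have h1 := hfirst N M H t hN hM hH1 hHN hNt hH2 hH3 (fun h => e ((h : ℝ) * r / H)) (fun h => (norm_e _).le)
    refine h1.trans (le_of_eq ?_)
    have e1 : (4 * (k : ℝ) + 1) / (3 * ((k : ℝ) + 1)) / (k * ((k : ℝ) + 1)) = E1 := by
      rw [hE1]
      push_cast
      rw [show 4 * ((k : ℝ) + 1) - 3 = 4 * k + 1 by ring, mul_comm (k : ℝ) ((k : ℝ) + 1)]
    have e2 : (k : ℝ) * ((k : ℝ) + 1) = ((k + 1 : ℕ) : ℝ) * k := by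
      push_cast
      ring
    rw [hS, e1, e2]
  have hlog : 2 + Real.log H ≤ (2 + 2 / ε) * (N : ℝ) ^ (ε / 2) := by
    have h1 : Real.log H ≤ Real.log N := Real.log_le_log hH0 (by exact_mod_cast hHN)
    have h2 : Real.log N ≤ (N : ℝ) ^ (ε / 2) / (ε / 2) := Real.log_le_rpow_div hN0.le (by positivity)
    have h3 : (1 : ℝ) ≤ (N : ℝ) ^ (ε / 2) := Real.one_le_rpow hN1 (by positivity)
    have h4 : (N : ℝ) ^ (ε / 2) / (ε / 2) = 2 / ε * (N : ℝ) ^ (ε / 2) := by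
      field_simp
    rw [h4] at h2
    nlinarith
  have hlogH : 0 ≤ 2 + Real.log H := by
    have := Real.log_natCast_nonneg H
    linarith
  have hsum : ∑ n ∈ Ioc N M, ‖∑ h ∈ range H, ((n + h : ℕ) : ℂ) ^ (-((t : ℂ) * Complex.I))‖ ≤
      2 * ((2 + Real.log H) * (C1 * (H : ℝ) * (N : ℝ) ^ (1 + ε / 2) * S)) := by
    refine (sum_le_sum hblock).trans ?_
    rw [← mul_sum, sum_comm]
    refine mul_le_mul_of_nonneg_left ?_ (by norm_num)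
    calc ∑ r ∈ range H, ∑ n ∈ Ioc N M, lamC H r * ‖∑ h ∈ range H, e ((h : ℝ) * r / H) * e (ph k (cz t n) h)‖ =
        ∑ r ∈ range H, lamC H r * ∑ n ∈ Ioc N M, ‖∑ h ∈ range H, e ((h : ℝ) * r / H) * e (ph k (cz t n) h)‖ :=
          sum_congr rfl fun r _ => by rw [mul_sum]
      _ ≤ ∑ r ∈ range H, lamC H r * (C1 * (H : ℝ) * (N : ℝ) ^ (1 + ε / 2) * S) :=
          sum_le_sum fun r hr => mul_le_mul_of_nonneg_left (hfi r hr) (lamC_nonneg H r (mem_range.1 hr))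
      _ = (∑ r ∈ range H, lamC H r) * (C1 * (H : ℝ) * (N : ℝ) ^ (1 + ε / 2) * S) := by rw [sum_mul]
      _ ≤ (2 + Real.log H) * (C1 * (H : ℝ) * (N : ℝ) ^ (1 + ε / 2) * S) :=
          mul_le_mul_of_nonneg_right (lamC_sum H hH1) (by positivity)
  have hHS : (H : ℝ) ≤ (N : ℝ) ^ (1 + ε) * S := by
    refine hH4.trans (hbig _ ?_ (by positivity))
    have h3 := bj_exp hk3 hN hNt
    have h4 : 0 ≤ (t / (N : ℝ) ^ (k + 1)) ^ E1 := by positivity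
    rw [hS]
    linarith
  have hN2 : (N : ℝ) ^ (ε / 2) * (N : ℝ) ^ (1 + ε / 2) = (N : ℝ) ^ (1 + ε) := by
    rw [← Real.rpow_add hN0]
    congr 1
    ring
  calc _ ≤ 1 / (H : ℝ) * ∑ n ∈ Ioc N M, ‖∑ h ∈ range H, ((n + h : ℕ) : ℂ) ^ (-((t : ℂ) * Complex.I))‖ + H := hsh
    _ ≤ 1 / (H : ℝ) * (2 * ((2 + Real.log H) * (C1 * (H : ℝ) * (N : ℝ) ^ (1 + ε / 2) * S))) + H := by
        have := mul_le_mul_of_nonneg_left hsum (by positivity : 0 ≤ 1 / (H : ℝ))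
        linarith
    _ = 2 * ((2 + Real.log H) * (C1 * (N : ℝ) ^ (1 + ε / 2) * S)) + H := by
        field_simp
    _ ≤ 2 * ((2 + 2 / ε) * (N : ℝ) ^ (ε / 2) * (C1 * (N : ℝ) ^ (1 + ε / 2) * S)) + (N : ℝ) ^ (1 + ε) * S := by
        have h1 : 0 ≤ C1 * (N : ℝ) ^ (1 + ε / 2) * S := by positivity
        have h2 := mul_le_mul_of_nonneg_right hlog h1
        linarith
    _ = 2 * (2 + 2 / ε) * C1 * ((N : ℝ) ^ (ε / 2) * (N : ℝ) ^ (1 + ε / 2)) * S + (N : ℝ) ^ (1 + ε) * S := by ring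
    _ = _ := by
        rw [hN2]
        ring

end Pool.Agent.Lib.HC
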