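import Pool.Agent.Lib.HC.Defs
import Pool.Agent.Lib.G3.Sdt
import Pool.Agent.Lib.HB.KF

/-!
# HC / Cnt (150 lines): integer points near a curve, from the second derivative test

PROOF.  `ρ = (lam2^2/lam1)^(1/3)`, `δ' = δ + ρ`.  If `4 δ' ≥ 1` the trivial bound `L ≤ 4 δ' L`.  Otherwise `M = ⌊1/(2 δ')⌋₊ ≥ 2`, `M ≤ 1/(2 δ')`, `M ≥ 1/(4 δ')`.
If `nrm x ≤ δ` then `nrm x ≤ 1/(2M)` and `‖∑_{v<M} e(v x)‖ ≥ M/2`... (`= |sin (π M x)/sin (π x)| ≥ 2M/π`; or: with `x` replaced by `±nrm x` the real part of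
`e(-(M-1) x/2) ∑` is `∑ cos(π (2v - M + 1) x) ≥ M cos(π/2 · ..)`; if you prefer choose `M = ⌊1/(8 δ')⌋₊ ≥ 1` when `8 δ' ≤ 1`, then all `v nrm x ≤ 1/8` and
`Re e(v x) ≥ cos(π/4) ≥ 1/2`, so `‖∑‖ ≥ M/2`: simplest).  So `FK M x ≥ M/4` and `card ≤ (4/M) ∑_i FK M (F i) = (4/M^2) ∑_{v,v'<M} ∑_i e((v-v') F i)
≤ (4/M^2)(M L + 2 M ∑_{1≤h<M} ‖∑_{i<L} e(h F i)‖)` (real part, conjugate for negative `h`).  `sdt` (`G3/Sdt.lean`) for the first `L - 1` terms, `θ i = 2 π h F i`,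
`lam = 2 π h lam1`, `C = lam2/lam1`, plus the trivial last term: `‖∑‖ ≤ 1 + 63 (lam2/lam1 L √(2 π h lam1) + 1/√(2 π h lam1)) ≤ C (L lam2 √h/√lam1 + 1/(√h √lam1) + 1)`;
the `1` is `≤` the sum of the other two (`L ≥ 1`, AM-GM, `lam2 ≥ lam1`).  `∑_{h<M} √h ≤ M^(3/2)`, `∑_{h<M} 1/√h ≤ 2 √M`.  Total
`≤ C (L/M + L lam2 √M/√lam1 + 1/√(M lam1)) ≤ C (L δ' + L lam2/(√lam1 √δ') + √(δ'/lam1))` and `lam2/√lam1 = ρ^(3/2) ≤ δ'^(3/2)`.
-/

set_option autoImplicit false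

namespace Pool.Agent.Lib.HC

open Finset Pool.Agent.Lib.HB

private theorem Cnt_dbl (M : ℕ) (g : ℕ → ℝ) (hg : ∀ h, 0 ≤ g h) :
    ∑ v ∈ range M, ∑ w ∈ range M, g (v - w + (w - v)) ≤ M * g 0 + 2 * M * ∑ h ∈ Ico 1 M, g h := by
  have key : ∀ v ∈ range M, ∑ w ∈ range M, g (v - w + (w - v)) ≤ g 0 + 2 * ∑ h ∈ Ico 1 M, g h := by
    intro v hv
    have hvM : v < M := mem_range.1 hv
    rw [← sum_range_add_sum_Ico _ hvM.le, sum_eq_sum_Ico_succ_bot hvM]
    have e0 : g (v - v + (v - v)) = g 0 := by simp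
    have eR : ∑ h ∈ Ico 1 M, g h = ∑ j ∈ range (M - 1), g (1 + j) := sum_Ico_eq_sum_range _ _ _
    have h1 : ∑ w ∈ range v, g (v - w + (w - v)) ≤ ∑ h ∈ Ico 1 M, g h := by
      have e1 : ∑ w ∈ range v, g (v - w + (w - v)) = ∑ j ∈ range v, g (1 + j) := by
        rw [← sum_range_reflect (fun j => g (1 + j)) v]
        refine sum_congr rfl fun j hj => ?_
        have := mem_range.1 hj
        congr 1
        omega
      rw [e1, eR]
      exact sum_le_sum_of_subset_of_nonneg (range_subset_range.2 (by omega)) fun _ _ _ => hg _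
    have h2 : ∑ w ∈ Ico (v + 1) M, g (v - w + (w - v)) ≤ ∑ h ∈ Ico 1 M, g h := by
      have e1 : ∑ w ∈ Ico (v + 1) M, g (v - w + (w - v)) = ∑ j ∈ range (M - (v + 1)), g (1 + j) := by
        rw [sum_Ico_eq_sum_range]
        refine sum_congr rfl fun j _ => ?_
        congr 1
        omega
      rw [e1, eR]
      exact sum_le_sum_of_subset_of_nonneg (range_subset_range.2 (by omega)) fun _ _ _ => hg _
    rw [e0]
    linarith
  refine (sum_le_sum key).trans (le_of_eq ?_)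
  rw [sum_const, card_range, nsmul_eq_mul]
  ring

private theorem Cnt_low (x δ : ℝ) (M : ℕ) (hx : nrm x ≤ δ) (hM : (M : ℝ) * δ ≤ 1 / 8) :
    (M : ℝ) / 2 ≤ ‖∑ v ∈ range M, Pool.Agent.Lib.ZB.e ((v : ℝ) * x)‖ := by
  have h1 : ∑ j ∈ range M, Pool.Agent.Lib.ZB.e ((j : ℝ) * x) = ∑ j ∈ range M, Pool.Agent.Lib.ZB.e ((j : ℝ) * (x - round x)) := by
    refine sum_congr rfl fun j _ => ?_
    have h2 : (j : ℝ) * x = (j : ℝ) * (x - round x) + (((j : ℤ) * round x : ℤ) : ℝ) := by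
      push_cast
      ring
    rw [h2, Pool.Agent.Lib.ZB.e_add, Pool.Agent.Lib.ZB.e_int, mul_one]
  rw [h1]
  refine le_trans ?_ (Complex.re_le_norm _)
  rw [Complex.re_sum]
  have h3 : ∀ j ∈ range M, (1 / 2 : ℝ) ≤ (Pool.Agent.Lib.ZB.e ((j : ℝ) * (x - round x))).re := by
    intro j hj
    unfold Pool.Agent.Lib.ZB.e
    rw [Complex.exp_ofReal_mul_I_re, ← Real.cos_abs]
    have hj' : (j : ℝ) ≤ M := by exact_mod_cast (mem_range.1 hj).le
    have h4 : |2 * Real.pi * ((j : ℝ) * (x - round x))| ≤ Real.pi / 3 := by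
      rw [abs_mul (2 * Real.pi), abs_of_pos (by positivity : (0 : ℝ) < 2 * Real.pi), abs_mul (j : ℝ), abs_of_nonneg (Nat.cast_nonneg j)]
      have h5 : (j : ℝ) * |x - round x| ≤ 1 / 8 := by
        have h6 : (j : ℝ) * |x - round x| ≤ M * δ :=
          mul_le_mul hj' hx (abs_nonneg _) (Nat.cast_nonneg _)
        linarith
      nlinarith [Real.pi_pos]
    rw [← Real.cos_pi_div_three]
    exact Real.cos_le_cos_of_nonneg_of_le_pi (abs_nonneg _) (by linarith [Real.pi_pos]) h4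
  have h4 := card_nsmul_le_sum (range M) _ (1 / 2 : ℝ) h3
  rw [card_range, nsmul_eq_mul] at h4
  linarith

private theorem Cnt_sq (M L : ℕ) (F : ℕ → ℝ) :
    ∑ i ∈ range L, ‖∑ v ∈ range M, Pool.Agent.Lib.ZB.e ((v : ℝ) * F i)‖ ^ 2 ≤
      M * L + 2 * M * ∑ h ∈ Ico 1 M, ‖∑ i ∈ range L, Pool.Agent.Lib.ZB.e ((h : ℝ) * F i)‖ := by
  obtain ⟨g, hg⟩ : ∃ g : ℕ → ℝ, g = fun h : ℕ => ‖∑ i ∈ range L, Pool.Agent.Lib.ZB.e ((h : ℝ) * F i)‖ := ⟨_, rfl⟩
  have hg0 : ∀ h, 0 ≤ g h := by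
    intro h
    rw [hg]
    exact norm_nonneg _
  have hgz : g 0 ≤ L := by
    rw [hg]
    refine (norm_sum_le _ _).trans ?_
    simp [Pool.Agent.Lib.ZB.norm_e]
  have hneg : ∀ h : ℕ, ‖∑ i ∈ range L, Pool.Agent.Lib.ZB.e (-(h : ℝ) * F i)‖ = g h := by
    intro h
    have e1 : ∑ i ∈ range L, Pool.Agent.Lib.ZB.e (-(h : ℝ) * F i) =
        (starRingEnd ℂ) (∑ i ∈ range L, Pool.Agent.Lib.ZB.e ((h : ℝ) * F i)) := by
      rw [map_sum]
      refine sum_congr rfl fun i _ => ?_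
      rw [Pool.Agent.Lib.ZB.e_conj, neg_mul]
    rw [e1, RCLike.norm_conj, hg]
  have hsq : ∀ i, ((‖∑ v ∈ range M, Pool.Agent.Lib.ZB.e ((v : ℝ) * F i)‖ ^ 2 : ℝ) : ℂ) =
      ∑ v ∈ range M, ∑ w ∈ range M, Pool.Agent.Lib.ZB.e (((v : ℝ) - w) * F i) := by
    intro i
    rw [← Complex.normSq_eq_norm_sq, Complex.normSq_eq_conj_mul_self, map_sum, sum_mul_sum, sum_comm]
    refine sum_congr rfl fun v _ => sum_congr rfl fun w _ => ?_
    rw [Pool.Agent.Lib.ZB.e_conj, ← Pool.Agent.Lib.ZB.e_add]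
    congr 1
    ring
  have htot : ((∑ i ∈ range L, ‖∑ v ∈ range M, Pool.Agent.Lib.ZB.e ((v : ℝ) * F i)‖ ^ 2 : ℝ) : ℂ) =
      ∑ v ∈ range M, ∑ w ∈ range M, ∑ i ∈ range L, Pool.Agent.Lib.ZB.e (((v : ℝ) - w) * F i) := by
    rw [Complex.ofReal_sum, sum_congr rfl fun i _ => hsq i, sum_comm]
    exact sum_congr rfl fun v _ => sum_comm
  have hpair : ∀ v w : ℕ, ‖∑ i ∈ range L, Pool.Agent.Lib.ZB.e (((v : ℝ) - w) * F i)‖ = g (v - w + (w - v)) := by
    intro v w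
    rcases le_total w v with h | h
    · have e1 : (v : ℝ) - w = ((v - w : ℕ) : ℝ) := by rw [Nat.cast_sub h]
      have e2 : v - w + (w - v) = v - w := by omega
      rw [e1, e2, hg]
    · have e1 : (v : ℝ) - w = -((w - v : ℕ) : ℝ) := by
        rw [Nat.cast_sub h]
        ring
      have e2 : v - w + (w - v) = w - v := by omega
      rw [e1, e2, hneg]
  have hnn : 0 ≤ ∑ i ∈ range L, ‖∑ v ∈ range M, Pool.Agent.Lib.ZB.e ((v : ℝ) * F i)‖ ^ 2 :=
    sum_nonneg fun i _ => by positivity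
  have h1 : ∑ i ∈ range L, ‖∑ v ∈ range M, Pool.Agent.Lib.ZB.e ((v : ℝ) * F i)‖ ^ 2 ≤
      ∑ v ∈ range M, ∑ w ∈ range M, g (v - w + (w - v)) := by
    have h2 := congrArg norm htot
    rw [Complex.norm_real, Real.norm_of_nonneg hnn] at h2
    rw [h2]
    refine (norm_sum_le _ _).trans (sum_le_sum fun v _ => ?_)
    refine (norm_sum_le _ _).trans (sum_le_sum fun w _ => ?_)
    rw [hpair]
  refine h1.trans ((Cnt_dbl M g hg0).trans ?_)
  have h3 : (M : ℝ) * g 0 ≤ M * L := mul_le_mul_of_nonneg_left hgz (Nat.cast_nonneg _)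
  have h4 : ∑ h ∈ Ico 1 M, g h = ∑ h ∈ Ico 1 M, ‖∑ i ∈ range L, Pool.Agent.Lib.ZB.e ((h : ℝ) * F i)‖ := by rw [hg]
  rw [h4]
  linarith

private theorem Cnt_alg (l s p r N : ℝ) (hs : 0 < s) : l / (s * s) * N * (p * r * s) = p * (N * (l / s * r)) := by
  field_simp

private theorem Cnt_S (L : ℕ) (F : ℕ → ℝ) (lam1 lam2 : ℝ) (h1 : 0 < lam1) (h12 : lam1 ≤ lam2)
    (hF : ∀ i, i + 2 < L → lam1 ≤ F (i + 2) - 2 * F (i + 1) + F i ∧ F (i + 2) - 2 * F (i + 1) + F i ≤ lam2) (h : ℕ) (hh : 1 ≤ h) :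
    ‖∑ i ∈ range L, Pool.Agent.Lib.ZB.e ((h : ℝ) * F i)‖ ≤
      190 * (L * (lam2 / Real.sqrt lam1) * Real.sqrt h + 1 / Real.sqrt lam1 * (1 / Real.sqrt h)) := by
  have hs1 : 0 < Real.sqrt lam1 := Real.sqrt_pos.2 h1
  have hhr : (1 : ℝ) ≤ h := by exact_mod_cast hh
  have hsh : 1 ≤ Real.sqrt h := by
    rw [Real.one_le_sqrt]
    exact hhr
  have h2 : 0 < lam2 := h1.trans_le h12
  rcases Nat.eq_zero_or_pos L with h0 | h0
  · subst h0
    simp only [range_zero, sum_empty, norm_zero]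
    positivity
  obtain ⟨N, rfl⟩ : ∃ N, L = N + 1 := ⟨L - 1, by omega⟩
  obtain ⟨a, ha⟩ : ∃ a, a = lam2 / Real.sqrt lam1 * Real.sqrt h := ⟨_, rfl⟩
  obtain ⟨b, hb⟩ : ∃ b, b = 1 / Real.sqrt lam1 * (1 / Real.sqrt h) := ⟨_, rfl⟩
  have ha0 : 0 < a := by rw [ha]; positivity
  have hb0 : 0 < b := by rw [hb]; positivity
  have hss : Real.sqrt lam1 * Real.sqrt lam1 = lam1 := Real.mul_self_sqrt h1.le
  have hab : 1 ≤ a * b := by
    have e : a * b = lam2 / lam1 := by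
      rw [ha, hb]
      field_simp
      rw [pow_two, hss]
    rw [e, le_div_iff₀ h1]
    linarith
  have hab2 : 1 ≤ a + b := by nlinarith [sq_nonneg (a - b)]
  have hpi : 0 < Real.pi := Real.pi_pos
  have hlam : 0 < 2 * Real.pi * h * lam1 := by positivity
  have hsd := Pool.Agent.Lib.G3.sdt (fun n => 2 * Real.pi * (h * F n)) N (2 * Real.pi * h * lam1) (lam2 / lam1) hlam
    ((one_le_div h1).2 h12) (fun n hn => by
      have := (hF n (by omega)).1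
      have e : 2 * Real.pi * (h * F (n + 2)) - 2 * (2 * Real.pi * (h * F (n + 1))) + 2 * Real.pi * (h * F n) =
          2 * Real.pi * h * (F (n + 2) - 2 * F (n + 1) + F n) := by ring
      rw [e]
      exact mul_le_mul_of_nonneg_left this (by positivity)) (fun n hn => by
      have := (hF n (by omega)).2
      have e : 2 * Real.pi * (h * F (n + 2)) - 2 * (2 * Real.pi * (h * F (n + 1))) + 2 * Real.pi * (h * F n) =
          2 * Real.pi * h * (F (n + 2) - 2 * F (n + 1) + F n) := by ring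
      have e2 : lam2 / lam1 * (2 * Real.pi * h * lam1) = 2 * Real.pi * h * lam2 := by
        field_simp
      rw [e, e2]
      exact mul_le_mul_of_nonneg_left this (by positivity))
  have hexp : ∀ n, Complex.exp (Complex.I * ((2 * Real.pi * (h * F n) : ℝ) : ℂ)) = Pool.Agent.Lib.ZB.e ((h : ℝ) * F n) := by
    intro n
    unfold Pool.Agent.Lib.ZB.e
    rw [mul_comm]
  rw [sum_congr rfl fun n _ => hexp n] at hsd
  have hsq : Real.sqrt (2 * Real.pi * h * lam1) = Real.sqrt (2 * Real.pi) * Real.sqrt h * Real.sqrt lam1 := by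
    rw [Real.sqrt_mul (by positivity), Real.sqrt_mul (by positivity)]
  have hp3 : Real.sqrt (2 * Real.pi) ≤ 3 := by
    rw [Real.sqrt_le_left (by norm_num)]
    have := Real.pi_lt_d2
    linarith
  have hp1 : 1 ≤ Real.sqrt (2 * Real.pi) := by
    rw [Real.one_le_sqrt]
    have := Real.pi_gt_three
    linarith
  have t1 : lam2 / lam1 * N * Real.sqrt (2 * Real.pi * h * lam1) ≤ 3 * (N * a) := by
    have e : lam2 / lam1 * N * Real.sqrt (2 * Real.pi * h * lam1) = Real.sqrt (2 * Real.pi) * (N * a) := by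
      have e1 := Cnt_alg lam2 (Real.sqrt lam1) (Real.sqrt (2 * Real.pi)) (Real.sqrt h) N hs1
      rw [hss] at e1
      rw [hsq, ha, e1]
    rw [e]
    exact mul_le_mul_of_nonneg_right hp3 (by positivity)
  have t2 : 1 / Real.sqrt (2 * Real.pi * h * lam1) ≤ b := by
    rw [hsq, hb, ← one_div_mul_one_div, ← one_div_mul_one_div]
    have : 1 / Real.sqrt (2 * Real.pi) ≤ 1 := by
      rw [div_le_one (by linarith)]
      exact hp1
    have h5 : 0 ≤ 1 / Real.sqrt lam1 * (1 / Real.sqrt h) := by positivity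
    calc 1 / Real.sqrt (2 * Real.pi) * (1 / Real.sqrt h) * (1 / Real.sqrt lam1)
        = 1 / Real.sqrt (2 * Real.pi) * (1 / Real.sqrt lam1 * (1 / Real.sqrt h)) := by ring
      _ ≤ 1 * (1 / Real.sqrt lam1 * (1 / Real.sqrt h)) := mul_le_mul_of_nonneg_right this h5
      _ = _ := one_mul _
  rw [sum_range_succ]
  refine (norm_add_le _ _).trans ?_
  rw [Pool.Agent.Lib.ZB.norm_e]
  have e3 : (((N + 1 : ℕ) : ℝ)) * (lam2 / Real.sqrt lam1) * Real.sqrt h = (N + 1) * a := by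
    rw [ha]
    push_cast
    ring
  rw [e3, ← hb]
  have hN : (0 : ℝ) ≤ N * a := by positivity
  nlinarith

private theorem Cnt_sum1 (M : ℕ) : ∑ h ∈ Ico 1 M, Real.sqrt h ≤ M * Real.sqrt M := by
  refine (sum_le_card_nsmul _ _ (Real.sqrt M) fun h hh => Real.sqrt_le_sqrt ?_).trans ?_
  · exact_mod_cast (mem_Ico.1 hh).2.le
  · rw [Nat.card_Ico, nsmul_eq_mul]
    refine mul_le_mul_of_nonneg_right ?_ (Real.sqrt_nonneg _)
    exact_mod_cast Nat.sub_le _ _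

private theorem Cnt_sum2' (n : ℕ) : ∑ h ∈ Ico 1 (n + 1), 1 / Real.sqrt h ≤ 2 * Real.sqrt n := by
  induction n with
  | zero => simp
  | succ n ih =>
    rw [sum_Ico_succ_top (by omega)]
    have h1 : 0 < Real.sqrt ((n + 1 : ℕ) : ℝ) := Real.sqrt_pos.2 (by positivity)
    have h2 : Real.sqrt n * Real.sqrt n = n := Real.mul_self_sqrt (Nat.cast_nonneg _)
    have h3 : Real.sqrt ((n + 1 : ℕ) : ℝ) * Real.sqrt ((n + 1 : ℕ) : ℝ) = n + 1 := by
      rw [Real.mul_self_sqrt (by positivity)]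
      push_cast
      ring
    have h4 : 2 * Real.sqrt n + 1 / Real.sqrt ((n + 1 : ℕ) : ℝ) ≤ 2 * Real.sqrt ((n + 1 : ℕ) : ℝ) := by
      rw [← sub_nonneg]
      have e : 2 * Real.sqrt ((n + 1 : ℕ) : ℝ) - (2 * Real.sqrt n + 1 / Real.sqrt ((n + 1 : ℕ) : ℝ)) =
          (Real.sqrt ((n + 1 : ℕ) : ℝ) - Real.sqrt n) ^ 2 / Real.sqrt ((n + 1 : ℕ) : ℝ) := by
        rw [eq_div_iff h1.ne', sub_mul, add_mul, one_div, inv_mul_cancel₀ h1.ne']
        nlinarith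
      rw [e]
      positivity
    linarith

private theorem Cnt_sum2 (M : ℕ) : ∑ h ∈ Ico 1 M, 1 / Real.sqrt h ≤ 2 * Real.sqrt M := by
  rcases Nat.eq_zero_or_pos M with h0 | h0
  · subst h0
    simp
  · obtain ⟨n, rfl⟩ : ∃ n, M = n + 1 := ⟨M - 1, by omega⟩
    refine (Cnt_sum2' n).trans ?_
    have : Real.sqrt n ≤ Real.sqrt ((n + 1 : ℕ) : ℝ) := Real.sqrt_le_sqrt (by push_cast; linarith)
    linarith

open Classical in
theorem cnt : ∃ C : ℝ, 1 ≤ C ∧ ∀ (L : ℕ) (F : ℕ → ℝ) (lam1 lam2 δ : ℝ), 0 < lam1 → lam1 ≤ lam2 → 0 ≤ δ →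
    (∀ i, i + 2 < L → lam1 ≤ F (i + 2) - 2 * F (i + 1) + F i ∧ F (i + 2) - 2 * F (i + 1) + F i ≤ lam2) →
      (((range L).filter fun i => nrm (F i) ≤ δ).card : ℝ) ≤
        C * ((δ + (lam2 ^ 2 / lam1) ^ (1 / 3 : ℝ)) * L +
          ((δ + (lam2 ^ 2 / lam1) ^ (1 / 3 : ℝ)) / lam1) ^ (1 / 2 : ℝ)) := by
  refine ⟨12160, by norm_num, ?_⟩
  intro L F lam1 lam2 δ h1 h12 hδ hF
  have h2 : 0 < lam2 := h1.trans_le h12
  obtain ⟨ρ, hρ⟩ : ∃ ρ, ρ = (lam2 ^ 2 / lam1) ^ (1 / 3 : ℝ) := ⟨_, rfl⟩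
  rw [← hρ]
  have hρ0 : 0 < ρ := by
    rw [hρ]
    positivity
  have hρ3 : ρ ^ 3 = lam2 ^ 2 / lam1 := by
    rw [hρ, ← Real.rpow_natCast, ← Real.rpow_mul (by positivity)]
    norm_num
  obtain ⟨D, hD⟩ : ∃ D, D = δ + ρ := ⟨_, rfl⟩
  rw [← hD]
  have hD0 : 0 < D := by rw [hD]; linarith
  have hρD : ρ ≤ D := by rw [hD]; linarith
  have hδD : δ ≤ D := by rw [hD]; linarith
  rw [← Real.sqrt_eq_rpow]
  have hL0 : (0 : ℝ) ≤ L := Nat.cast_nonneg _
  have hDL : 0 ≤ D * L := by positivity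
  have hR0 : 0 ≤ Real.sqrt (D / lam1) := Real.sqrt_nonneg _
  obtain ⟨c, hc⟩ : ∃ c : ℕ, c = ((range L).filter fun i => nrm (F i) ≤ δ).card := ⟨_, rfl⟩
  rw [← hc]
  have hcL : (c : ℝ) ≤ L := by
    rw [hc]
    have := card_filter_le (range L) (fun i => nrm (F i) ≤ δ)
    rw [card_range] at this
    exact_mod_cast this
  by_cases h8 : 1 ≤ 8 * D
  · have : (L : ℝ) ≤ 8 * (D * L) := by nlinarith
    linarith
  · push Not at h8
    obtain ⟨M, hM⟩ : ∃ M : ℕ, M = ⌊1 / (8 * D)⌋₊ := ⟨_, rfl⟩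
    have hM1 : 1 ≤ M := by
      rw [hM]
      refine Nat.le_floor ?_
      rw [Nat.cast_one, le_div_iff₀ (by positivity)]
      linarith
    have hMr : (1 : ℝ) ≤ M := by exact_mod_cast hM1
    have hMle : (M : ℝ) * D ≤ 1 / 8 := by
      have h3 : (M : ℝ) ≤ 1 / (8 * D) := by
        rw [hM]
        exact Nat.floor_le (by positivity)
      rw [le_div_iff₀ (by positivity)] at h3
      linarith
    have hMge : 1 ≤ 16 * D * M := by
      have h3 : 1 / (8 * D) < M + 1 := by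
        rw [hM]
        exact Nat.lt_floor_add_one _
      rw [div_lt_iff₀ (by positivity)] at h3
      nlinarith
    -- lower bound
    have hlow : (c : ℝ) * (M ^ 2 / 4) ≤ ∑ i ∈ range L, ‖∑ v ∈ range M, Pool.Agent.Lib.ZB.e ((v : ℝ) * F i)‖ ^ 2 := by
      have h3 : (c : ℝ) * (M ^ 2 / 4) ≤ ∑ i ∈ (range L).filter fun i => nrm (F i) ≤ δ,
          ‖∑ v ∈ range M, Pool.Agent.Lib.ZB.e ((v : ℝ) * F i)‖ ^ 2 := by
        rw [hc, ← nsmul_eq_mul]
        refine card_nsmul_le_sum _ _ _ fun i hi => ?_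
        have h4 := Cnt_low (F i) δ M (mem_filter.1 hi).2 (by nlinarith)
        have h5 : ((M : ℝ) / 2) ^ 2 ≤ ‖∑ v ∈ range M, Pool.Agent.Lib.ZB.e ((v : ℝ) * F i)‖ ^ 2 :=
          pow_le_pow_left₀ (by positivity) h4 2
        calc (M : ℝ) ^ 2 / 4 = ((M : ℝ) / 2) ^ 2 := by ring
          _ ≤ _ := h5
      exact h3.trans (sum_le_sum_of_subset_of_nonneg (filter_subset _ _) fun _ _ _ => by positivity)
    obtain ⟨A0, hA0⟩ : ∃ A0, A0 = lam2 / Real.sqrt lam1 := ⟨_, rfl⟩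
    obtain ⟨B0, hB0⟩ : ∃ B0, B0 = 1 / Real.sqrt lam1 := ⟨_, rfl⟩
    obtain ⟨sM, hsM⟩ : ∃ sM, sM = Real.sqrt M := ⟨_, rfl⟩
    have hs1 : 0 < Real.sqrt lam1 := Real.sqrt_pos.2 h1
    have hss : Real.sqrt lam1 * Real.sqrt lam1 = lam1 := Real.mul_self_sqrt h1.le
    have hsM0 : 0 < sM := by
      rw [hsM]
      exact Real.sqrt_pos.2 (by linarith)
    have hsM2 : sM * sM = M := by
      rw [hsM]
      exact Real.mul_self_sqrt (by linarith)
    have hA00 : 0 < A0 := by rw [hA0]; positivity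
    have hB00 : 0 < B0 := by rw [hB0]; positivity
    have hS : ∑ h ∈ Ico 1 M, ‖∑ i ∈ range L, Pool.Agent.Lib.ZB.e ((h : ℝ) * F i)‖ ≤
        190 * (L * A0 * (M * sM) + B0 * (2 * sM)) := by
      calc ∑ h ∈ Ico 1 M, ‖∑ i ∈ range L, Pool.Agent.Lib.ZB.e ((h : ℝ) * F i)‖
          ≤ ∑ h ∈ Ico 1 M, 190 * (L * A0 * Real.sqrt h + B0 * (1 / Real.sqrt h)) := by
            refine sum_le_sum fun h hh => ?_
            rw [hA0, hB0]
            exact Cnt_S L F lam1 lam2 h1 h12 hF h (mem_Ico.1 hh).1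
        _ = 190 * (L * A0 * ∑ h ∈ Ico 1 M, Real.sqrt h + B0 * ∑ h ∈ Ico 1 M, (1 / Real.sqrt h)) := by
            rw [← mul_sum, sum_add_distrib, ← mul_sum, ← mul_sum]
        _ ≤ 190 * (L * A0 * (M * sM) + B0 * (2 * sM)) := by
            have h4 := Cnt_sum1 M
            have h5 := Cnt_sum2 M
            rw [← hsM] at h4 h5
            have h6 : (L : ℝ) * A0 * ∑ h ∈ Ico 1 M, Real.sqrt h ≤ L * A0 * (M * sM) := mul_le_mul_of_nonneg_left h4 (by positivity)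
            have h7 : B0 * ∑ h ∈ Ico 1 M, (1 / Real.sqrt h) ≤ B0 * (2 * sM) := mul_le_mul_of_nonneg_left h5 hB00.le
            linarith
    have hup := hlow.trans (Cnt_sq M L F)
    have hA : A0 * sM ≤ D := by
      refine abs_le_of_sq_le_sq' ?_ hD0.le |>.2
      have e : (A0 * sM) ^ 2 = ρ ^ 3 * M := by
        rw [hρ3, hA0, ← hss, ← hsM2]
        rw [hss]
        field_simp
        rw [pow_two (Real.sqrt lam1), hss]
      rw [e]
      have h4 : ρ ^ 3 ≤ D ^ 3 := pow_le_pow_left₀ hρ0.le hρD 3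
      calc ρ ^ 3 * M ≤ D ^ 3 * M := mul_le_mul_of_nonneg_right h4 (by positivity)
        _ = D ^ 2 * (M * D) := by ring
        _ ≤ D ^ 2 * 1 := mul_le_mul_of_nonneg_left (by linarith) (by positivity)
        _ = D ^ 2 := mul_one _
    have hB : B0 / sM ≤ 4 * Real.sqrt (D / lam1) := by
      refine abs_le_of_sq_le_sq' ?_ (by positivity) |>.2
      rw [mul_pow, Real.sq_sqrt (by positivity)]
      have e : (B0 / sM) ^ 2 = 1 / (lam1 * M) := by
        rw [hB0, ← hsM2]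
        rw [div_pow, div_pow, one_pow, pow_two (Real.sqrt lam1), hss, pow_two sM, div_div]
      rw [e, div_le_iff₀ (by positivity)]
      have e2 : 4 ^ 2 * (D / lam1) * (lam1 * M) = 16 * D * M := by
        field_simp
        norm_num
      rw [e2]
      exact hMge
    -- the end
    have hM0 : (0 : ℝ) < M := by linarith
    have h9 : (c : ℝ) ≤ 4 * L / M + 1520 * (L * (A0 * sM) + 2 * (B0 / sM)) := by
      have h10 : (c : ℝ) * (M ^ 2 / 4) ≤ M * L + 2 * M * (190 * (L * A0 * (M * sM) + B0 * (2 * sM))) := by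
        refine hup.trans ?_
        have := mul_le_mul_of_nonneg_left hS (by positivity : (0 : ℝ) ≤ 2 * M)
        linarith
      have e : M * L + 2 * M * (190 * (L * A0 * (M * sM) + B0 * (2 * sM))) =
          (4 * L / M + 1520 * (L * (A0 * sM) + 2 * (B0 / sM))) * (M ^ 2 / 4) := by
        have e3 : B0 / sM * M = B0 * sM := by
          rw [← hsM2]
          field_simp
        have e4 : (4 * L / M + 1520 * (L * (A0 * sM) + 2 * (B0 / sM))) * ((M : ℝ) ^ 2 / 4) =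
            4 * L / M * (M ^ 2 / 4) + 380 * (L * (A0 * sM)) * M ^ 2 + 760 * (B0 / sM * M) * M := by ring
        rw [e4, e3]
        field_simp
        ring
      rw [e] at h10
      exact le_of_mul_le_mul_right h10 (by positivity)
    have h11 : 4 * L / (M : ℝ) ≤ 64 * (D * L) := by
      rw [div_le_iff₀ hM0]
      nlinarith
    have h12' : (L : ℝ) * (A0 * sM) ≤ D * L := by nlinarith
    linarith

end Pool.Agent.Lib.HC
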