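import Pool.Agent.Lib.HC.Leg
import Pool.Agent.Lib.HC.Cnt

/-!
# HC / Cls (200 lines): the pairs with a given integer `r ≥ 1`

`prs t k N M r α β`: the pairs `n < m` in `(N, M]` with `|yy n - yy m - r| ≤ β` and `nrm (xx m - xx n) ≤ α`.

PROOF.  Let `τ = t/N^k`, `C0` the constant of `fn_bd`, `leg_up`, `leg_second`, `cnt`.  Empty set: trivial (rhs `≥ 0`; for `prs_r` nothing to prove).  Let `(n, m)` be in the
set, `l = m - n`, `1 ≤ l ≤ N`.  `fn_bd` (1) and `r/2 ≤ r - β ≤ yy n - yy m ≤ r + β ≤ 3r/2`: `r N/(2 C0 τ) ≤ l ≤ 2 C0 r N/τ`, so `r ≤ 2 C0 τ` (= `prs_r`).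
Let `l1`, `l2` be the least and the greatest difference in the set.  `crit_ex` at `l1`, `l2` (`ff l n = yy n - yy m`) and `crit_between` give for every integer
`l ∈ [l1, l2]` a point `Z l ∈ [N/2, 4N]` with `ff l (Z l) = r` (choose).  `G l = Psi r l (Z l)`.  For a pair with difference `l`: `fn_bd` (2):
`|ff l n - ff l (Z l)| ≤ β` and `l ≥ r N/(2 C0 τ)` give `|n - Z l| ≤ 2 C0^2 β N/r`; `leg_min`, `leg_up`: `0 ≤ Psi r l n - G l ≤ C β^2 N/r`, and
`Psi r l n = xx m - xx n + k r n`, `k r n` an integer: `nrm (G l) ≤ α + C β^2 N/r`.  For given `l` the number of `n` is `≤ 1 + 4 C0^2 β N/r` (integers in an interval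
of length `4 C0^2 β N/r`).  So `card ≤ (1 + 4 C0^2 β N/r) #{l ∈ [l1, l2] : nrm (G l) ≤ α + C β^2 N/r}` (fiberwise over `l`).  `cnt` with `F i = -G (l1 + i)`,
`L = l2 - l1 + 1 ≤ 2 C0 r N/τ` (as `l1 ≥ 1`), `leg_second` at `l = l1 + i + 1 > 1`: `lam1 = t/N^(k+1)/C`, `lam2 = 2 C C0 τ^2/(r N)` (`1/l ≤ 2 C0 τ/(r N)`), enlarged by a
constant so that `lam1 ≤ lam2` (`r ≤ 2 C0 τ`).  `(lam2^2/lam1)^(1/3) ≤ C τ r^(-2/3) N^(-1/3)`, `1/lam1 = C N/τ`.
-/

set_option autoImplicit false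

namespace Pool.Agent.Lib.HC

open Finset Pool.Agent.Lib.HB

open Classical in
/-- the pairs of the class `r` -/
noncomputable def prs (t : ℝ) (k N M r : ℕ) (α β : ℝ) : Finset (ℕ × ℕ) :=
  ((Ioc N M) ×ˢ (Ioc N M)).filter fun p => p.1 < p.2 ∧ |yy t k p.1 - yy t k p.2 - r| ≤ β ∧
    nrm (xx t k p.2 - xx t k p.1) ≤ α

/-- the main part of the bound for the class `r` -/
noncomputable def bd (N τ r α β : ℝ) : ℝ :=
  (1 + β * N / r) * ((α + β ^ 2 * N / r + τ * r ^ (-(2 / 3) : ℝ) * N ^ (-(1 / 3) : ℝ)) * (r * N / τ) +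
    ((α + β ^ 2 * N / r + τ * r ^ (-(2 / 3) : ℝ) * N ^ (-(1 / 3) : ℝ)) * (N / τ)) ^ (1 / 2 : ℝ))

private theorem mem_prs {t : ℝ} {k N M r : ℕ} {α β : ℝ} {p : ℕ × ℕ} : p ∈ prs t k N M r α β ↔
    (N < p.1 ∧ p.1 ≤ M) ∧ (N < p.2 ∧ p.2 ≤ M) ∧ p.1 < p.2 ∧ |yy t k p.1 - yy t k p.2 - r| ≤ β ∧
    nrm (xx t k p.2 - xx t k p.1) ≤ α := by
  unfold prs
  rw [mem_filter, mem_product, mem_Ioc, mem_Ioc]
  tauto

/-- number of naturals in a real interval -/
private theorem card_interval (S : Finset ℕ) (z W : ℝ) (hW : 0 ≤ W) (h : ∀ n ∈ S, |(n : ℝ) - z| ≤ W) :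
    (S.card : ℝ) ≤ 2 * W + 1 := by
  by_cases hS : S.Nonempty
  · have hab : S ⊆ Icc (S.min' hS) (S.max' hS) := fun n hn => mem_Icc.2 ⟨S.min'_le n hn, S.le_max' n hn⟩
    have hc : S.card ≤ S.max' hS + 1 - S.min' hS := by
      have := card_le_card hab
      rwa [Nat.card_Icc] at this
    have ha := h _ (S.min'_mem hS)
    have hb := h _ (S.max'_mem hS)
    have hle : S.min' hS ≤ S.max' hS + 1 := (S.min'_le _ (S.max'_mem hS)).trans (Nat.le_succ _)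
    have hc' : (S.card : ℝ) ≤ (S.max' hS : ℝ) + 1 - (S.min' hS : ℝ) := by
      have : (S.card : ℝ) ≤ ((S.max' hS + 1 - S.min' hS : ℕ) : ℝ) := by exact_mod_cast hc
      rw [Nat.cast_sub hle] at this
      push_cast at this
      linarith
    rw [abs_le] at ha hb
    linarith [ha.1, ha.2, hb.1, hb.2]
  · rw [not_nonempty_iff_eq_empty] at hS
    rw [hS, card_empty]
    push_cast
    linarith

private theorem nrm_add_int (x : ℝ) (m : ℤ) : nrm (x + m) ≤ nrm x := by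
  have h1 := nrm_add_le x m
  have h2 := nrm_le_abs (m : ℝ) m
  rw [sub_self, abs_zero] at h2
  linarith

private theorem pair_bd (k : ℕ) (hk : 2 ≤ k) : ∃ C : ℝ, 1 ≤ C ∧ ∀ (t : ℝ) (N M r : ℕ) (α β : ℝ), 0 < t → 1 ≤ N → M ≤ 2 * N →
    1 ≤ r → β ≤ 1 / 2 → ∀ p ∈ prs t k N M r α β, (r : ℝ) * N ≤ C * (t / (N : ℝ) ^ k * ((p.2 : ℝ) - p.1)) ∧
      t / (N : ℝ) ^ k * ((p.2 : ℝ) - p.1) ≤ C * (r * N) := by
  obtain ⟨C0, hC0, h0⟩ := fn_bd k hk
  refine ⟨2 * C0, by linarith, ?_⟩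
  intro t N M r α β ht hN hM hr hβ p hp
  obtain ⟨⟨a1, a2⟩, ⟨b1, b2⟩, hlt, hv, -⟩ := mem_prs.1 hp
  have hN' : (1 : ℝ) ≤ N := by exact_mod_cast hN
  have hr' : (1 : ℝ) ≤ r := by exact_mod_cast hr
  have a1' : (N : ℝ) ≤ p.1 := by exact_mod_cast a1.le
  have hlt' : (p.1 : ℝ) ≤ p.2 := by exact_mod_cast hlt.le
  have b2' : (p.2 : ℝ) ≤ 2 * N := by exact_mod_cast b2.trans hM
  have h := (h0 t N ht hN').1 p.1 p.2 (by linarith) hlt' (by linarith)
  rw [abs_le] at hv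
  have e : t / (N : ℝ) ^ (k + 1) = t / (N : ℝ) ^ k / N := by
    rw [pow_succ, div_div]
  rw [e] at h
  set τ := t / (N : ℝ) ^ k with hτ
  have hN0 : (0 : ℝ) < N := by linarith
  have hC00 : (0 : ℝ) < C0 := by linarith
  obtain ⟨h1, h2⟩ := h
  have e1 : τ / N * ((p.2 : ℝ) - p.1) = τ * ((p.2 : ℝ) - p.1) / N := by ring
  rw [e1] at h1 h2
  constructor
  · have : (r : ℝ) / 2 ≤ C0 * (τ * ((p.2 : ℝ) - p.1) / N) := by linarith
    rw [← mul_div_assoc, le_div_iff₀ hN0] at this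
    linarith
  · have : τ * ((p.2 : ℝ) - p.1) / N / C0 ≤ 2 * r := by linarith
    rw [div_div, div_le_iff₀ (by positivity)] at this
    linarith

theorem prs_r (k : ℕ) (hk : 2 ≤ k) : ∃ C : ℝ, 1 ≤ C ∧ ∀ (t : ℝ) (N M r : ℕ) (α β : ℝ), 0 < t → 1 ≤ N → M ≤ 2 * N → 1 ≤ r →
    β ≤ 1 / 2 → (prs t k N M r α β).Nonempty → (r : ℝ) ≤ C * (t / (N : ℝ) ^ k) := by
  obtain ⟨C, hC, h⟩ := pair_bd k hk
  refine ⟨C, hC, ?_⟩
  intro t N M r α β ht hN hM hr hβ hne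
  obtain ⟨p, hp⟩ := hne
  have h1 := (h t N M r α β ht hN hM hr hβ p hp).1
  obtain ⟨⟨a1, a2⟩, ⟨b1, b2⟩, hlt, hv, -⟩ := mem_prs.1 hp
  have hN' : (1 : ℝ) ≤ N := by exact_mod_cast hN
  have hN0 : (0 : ℝ) < N := by linarith
  have a1' : (N : ℝ) ≤ p.1 := by exact_mod_cast a1.le
  have b2' : (p.2 : ℝ) ≤ 2 * N := by exact_mod_cast b2.trans hM
  have hτ : 0 < t / (N : ℝ) ^ k := by positivity
  have h2 : (r : ℝ) * N ≤ C * (t / (N : ℝ) ^ k) * N := by
    refine h1.trans ?_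
    rw [mul_assoc]
    apply mul_le_mul_of_nonneg_left _ (by linarith)
    apply mul_le_mul_of_nonneg_left _ hτ.le
    linarith
  exact le_of_mul_le_mul_right h2 hN0

private theorem pair_crit (k : ℕ) (hk : 2 ≤ k) : ∃ C : ℝ, 1 ≤ C ∧ ∀ (t : ℝ) (N M r : ℕ) (α β : ℝ), 0 < t → 1 ≤ N → M ≤ 2 * N →
    1 ≤ r → β ≤ 1 / 2 → ∀ p ∈ prs t k N M r α β, ∀ Z : ℝ, (N : ℝ) / 2 ≤ Z → Z ≤ 4 * N → ff t k ((p.2 : ℝ) - p.1) Z = r →
      |(p.1 : ℝ) - Z| ≤ C * (β * N / r) ∧ nrm (Psi t k r ((p.2 : ℝ) - p.1) Z) ≤ α + C * (β ^ 2 * N / r) := by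
  obtain ⟨C0, hC0, h0⟩ := fn_bd k hk
  obtain ⟨C1, hC1, h1⟩ := pair_bd k hk
  obtain ⟨C2, hC2, h2⟩ := leg_up k hk
  have hc1 : 1 ≤ C0 * C1 := one_le_mul_of_one_le_of_one_le hC0 hC1
  have hc2 : 1 ≤ C2 * C1 * (C0 * C1) := one_le_mul_of_one_le_of_one_le (one_le_mul_of_one_le_of_one_le hC2 hC1) hc1
  refine ⟨C2 * C1 * (C0 * C1) * (C0 * C1), one_le_mul_of_one_le_of_one_le hc2 hc1, ?_⟩
  intro t N M r α β ht hN hM hr hβ p hp Z hZ1 hZ2 hZ
  obtain ⟨g1, g2⟩ := h1 t N M r α β ht hN hM hr hβ p hp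
  obtain ⟨⟨a1, a2⟩, ⟨b1, b2⟩, hlt, hv, hx⟩ := mem_prs.1 hp
  have hN' : (1 : ℝ) ≤ N := by exact_mod_cast hN
  have hN0 : (0 : ℝ) < N := by linarith
  have hr' : (1 : ℝ) ≤ r := by exact_mod_cast hr
  have hr0 : (0 : ℝ) < r := by linarith
  have a1' : (N : ℝ) ≤ p.1 := by exact_mod_cast a1.le
  have b2' : (p.2 : ℝ) ≤ 2 * N := by exact_mod_cast b2.trans hM
  have hlt' : (p.1 : ℝ) < p.2 := by exact_mod_cast hlt
  have hτ : 0 < t / (N : ℝ) ^ k := by positivity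
  have hβ0 : 0 ≤ β := (abs_nonneg _).trans hv
  set l : ℝ := (p.2 : ℝ) - p.1 with hl
  have hl0 : 0 < l := by linarith
  have hlN : l ≤ N := by linarith
  have e0 : (p.1 : ℝ) + l = p.2 := by rw [hl]; ring
  have e1 : ff t k l p.1 - ff t k l Z = yy t k p.1 - yy t k p.2 - r := by
    rw [hZ]
    unfold ff
    rw [e0]
  have e : t / (N : ℝ) ^ (k + 2) = t / (N : ℝ) ^ k / N ^ 2 := by
    rw [pow_add, div_div]
  have h0' := (h0 t N ht hN').2 l
  rw [e] at h0'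
  have h2' := h2 t N r l Z p.1 ht hN' hl0 (by linarith) hZ1 (by linarith) (by linarith) (by linarith) hZ
  rw [e] at h2'
  have h3' := leg_min t ht k hk hl0 (z := (p.1 : ℝ)) (by linarith : (0 : ℝ) < Z) (by linarith) hZ
  set τ := t / (N : ℝ) ^ k with hτdef
  have hC00 : (0 : ℝ) < C0 := by linarith
  have hC10 : (0 : ℝ) < C1 := by linarith
  have hC20 : (0 : ℝ) < C2 := by linarith
  rw [abs_le] at hv
  -- the distance to the critical point
  have hd : τ / N ^ 2 * l * |(p.1 : ℝ) - Z| / C0 ≤ β := by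
    rcases le_total (p.1 : ℝ) Z with hc | hc
    · have := (h0' p.1 Z hl0.le (by linarith) (by linarith) hc (by linarith)).1
      rw [e1] at this
      rw [abs_sub_comm, abs_of_nonneg (by linarith)]
      linarith [hv.2]
    · have := (h0' Z p.1 hl0.le (by linarith) hZ1 hc (by linarith)).1
      rw [abs_of_nonneg (by linarith)]
      linarith [hv.1]
  have hd1 : |(p.1 : ℝ) - Z| ≤ C0 * C1 * (β * N / r) := by
    have s1 : τ * l * |(p.1 : ℝ) - Z| ≤ β * C0 * N ^ 2 := by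
      have e2 : τ / N ^ 2 * l * |(p.1 : ℝ) - Z| / C0 = τ * l * |(p.1 : ℝ) - Z| / (C0 * N ^ 2) := by
        field_simp
      rw [e2, div_le_iff₀ (by positivity)] at hd
      linarith
    have s2 : (r : ℝ) * N * |(p.1 : ℝ) - Z| ≤ C1 * (β * C0 * N ^ 2) := by
      calc (r : ℝ) * N * |(p.1 : ℝ) - Z| ≤ C1 * (τ * l) * |(p.1 : ℝ) - Z| := by
            apply mul_le_mul_of_nonneg_right g1 (abs_nonneg _)
        _ = C1 * (τ * l * |(p.1 : ℝ) - Z|) := by ring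
        _ ≤ _ := by apply mul_le_mul_of_nonneg_left s1 hC10.le
    have e3 : C0 * C1 * (β * N / r) = C1 * (β * C0 * N ^ 2) / (r * N) := by
      field_simp
    rw [e3, le_div_iff₀ (by positivity)]
    linarith
  have hd2 : ((p.1 : ℝ) - Z) ^ 2 ≤ (C0 * C1 * (β * N / r)) ^ 2 := by
    rw [← sq_abs]
    exact pow_le_pow_left₀ (abs_nonneg _) hd1 2
  constructor
  · refine hd1.trans ?_
    apply mul_le_mul_of_nonneg_right _ (by positivity)
    exact le_mul_of_one_le_left (by positivity) hc2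
  · have e4 : Psi t k r l p.1 = (xx t k p.2 - xx t k p.1) + ((k * r * p.1 : ℤ) : ℝ) := by
      unfold Psi
      rw [e0]
      push_cast
      ring
    have s3 : nrm (Psi t k r l p.1) ≤ α := by
      rw [e4]
      exact (nrm_add_int _ _).trans hx
    have s4 : |Psi t k r l Z - Psi t k r l p.1| ≤ C2 * (τ / N ^ 2 * l * ((p.1 : ℝ) - Z) ^ 2) := by
      rw [abs_sub_comm, abs_of_nonneg (by linarith)]
      exact h2'
    have s5 : C2 * (τ / N ^ 2 * l * ((p.1 : ℝ) - Z) ^ 2) ≤ C2 * C1 * (C0 * C1) * (C0 * C1) * (β ^ 2 * N / r) := by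
      calc C2 * (τ / N ^ 2 * l * ((p.1 : ℝ) - Z) ^ 2) = C2 * ((τ * l) / N ^ 2 * ((p.1 : ℝ) - Z) ^ 2) := by ring
        _ ≤ C2 * ((C1 * (r * N)) / N ^ 2 * (C0 * C1 * (β * N / r)) ^ 2) := by
            apply mul_le_mul_of_nonneg_left _ hC20.le
            apply mul_le_mul _ hd2 (sq_nonneg _) (by positivity)
            exact div_le_div_of_nonneg_right g2 (by positivity)
        _ = _ := by
            field_simp
    linarith [nrm_le_add_abs (Psi t k r l Z) (Psi t k r l p.1)]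

private theorem cls_real (N τ r α β C1 C3 C4 K L I P : ℝ) (hN : 1 ≤ N) (hτ : 0 < τ) (hr : 1 ≤ r) (hα : 0 ≤ α) (hβ : 0 < β)
    (hC1 : 1 ≤ C1) (hC3 : 1 ≤ C3) (hC4 : 1 ≤ C4) (hK : 1 ≤ K) (hL0 : 0 ≤ L) (hL : τ * L ≤ C1 * (r * N))
    (hI : I ≤ C4 * ((α + K * (β ^ 2 * N / r) + ((C3 * (C1 * (τ ^ 2 / (r * N)))) ^ 2 / (τ / N / C3)) ^ (1 / 3 : ℝ)) * L +
      ((α + K * (β ^ 2 * N / r) + ((C3 * (C1 * (τ ^ 2 / (r * N)))) ^ 2 / (τ / N / C3)) ^ (1 / 3 : ℝ)) / (τ / N / C3)) ^ (1 / 2 : ℝ)))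
    (hP : P ≤ I * (2 * (K * (β * N / r)) + 1)) :
    P ≤ 2 * K * (C4 * (K * C3 * C1) * (C1 * C3)) * bd N τ r α β := by
  have hN0 : 0 < N := by linarith
  have hr0 : 0 < r := by linarith
  have hC10 : 0 < C1 := by linarith
  have hC30 : 0 < C3 := by linarith
  have hC40 : 0 < C4 := by linarith
  have hK0 : 0 < K := by linarith
  unfold bd
  set ρ : ℝ := τ * r ^ (-(2 / 3) : ℝ) * N ^ (-(1 / 3) : ℝ) with hρ
  have hρ0 : 0 < ρ := by positivity
  have hρ3 : ρ ^ 3 = τ ^ 3 / (r ^ 2 * N) := by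
    rw [hρ, mul_pow, mul_pow]
    have e1 : (r ^ (-(2 / 3) : ℝ)) ^ 3 = (r ^ 2)⁻¹ := by
      rw [← Real.rpow_natCast, ← Real.rpow_mul hr0.le, ← Real.rpow_natCast, ← Real.rpow_neg hr0.le]
      norm_num
    have e2 : (N ^ (-(1 / 3) : ℝ)) ^ 3 = N⁻¹ := by
      rw [← Real.rpow_natCast, ← Real.rpow_mul hN0.le, ← Real.rpow_neg_one]
      norm_num
    rw [e1, e2]
    field_simp
  have s1 : (C3 * (C1 * (τ ^ 2 / (r * N)))) ^ 2 / (τ / N / C3) ≤ (C3 * C1 * ρ) ^ 3 := by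
    have e1 : (C3 * (C1 * (τ ^ 2 / (r * N)))) ^ 2 / (τ / N / C3) = C3 ^ 3 * C1 ^ 2 * (τ ^ 3 / (r ^ 2 * N)) := by
      field_simp
    have e2 : (C3 * C1 * ρ) ^ 3 = C3 ^ 3 * C1 ^ 2 * (τ ^ 3 / (r ^ 2 * N)) * C1 := by
      rw [mul_pow, hρ3]
      ring
    rw [e1, e2]
    exact le_mul_of_one_le_right (by positivity) hC1
  have s2 : ((C3 * (C1 * (τ ^ 2 / (r * N)))) ^ 2 / (τ / N / C3)) ^ (1 / 3 : ℝ) ≤ C3 * C1 * ρ := by
    calc _ ≤ ((C3 * C1 * ρ) ^ 3) ^ (1 / 3 : ℝ) := Real.rpow_le_rpow (by positivity) s1 (by norm_num)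
      _ = C3 * C1 * ρ := by
          rw [← Real.rpow_natCast, ← Real.rpow_mul (by positivity)]
          norm_num
  set σ : ℝ := ((C3 * (C1 * (τ ^ 2 / (r * N)))) ^ 2 / (τ / N / C3)) ^ (1 / 3 : ℝ) with hσ
  have hσ0 : 0 ≤ σ := by positivity
  set A : ℝ := α + β ^ 2 * N / r + ρ with hA
  set T : ℝ := α + K * (β ^ 2 * N / r) + σ with hT
  have hb0 : 0 ≤ β ^ 2 * N / r := by positivity
  have hA0 : 0 ≤ A := by positivity
  have hT0 : 0 ≤ T := by positivity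
  have hKC : 1 ≤ C3 * C1 := one_le_mul_of_one_le_of_one_le hC3 hC1
  have s3 : T ≤ K * C3 * C1 * A := by
    have k1 : 1 ≤ K * (C3 * C1) := one_le_mul_of_one_le_of_one_le hK hKC
    have k2 : K ≤ K * (C3 * C1) := le_mul_of_one_le_right hK0.le hKC
    have k3 : C3 * C1 ≤ K * (C3 * C1) := le_mul_of_one_le_left (by positivity) hK
    have m1 : α ≤ K * (C3 * C1) * α := le_mul_of_one_le_left hα k1
    have m2 : K * (β ^ 2 * N / r) ≤ K * (C3 * C1) * (β ^ 2 * N / r) := mul_le_mul_of_nonneg_right k2 hb0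
    have m3 : C3 * C1 * ρ ≤ K * (C3 * C1) * ρ := mul_le_mul_of_nonneg_right k3 hρ0.le
    have e1 : K * C3 * C1 * A = K * (C3 * C1) * α + K * (C3 * C1) * (β ^ 2 * N / r) + K * (C3 * C1) * ρ := by
      rw [hA]; ring
    rw [e1, hT]
    linarith
  have hL' : L ≤ C1 * (r * N / τ) := by
    rw [← mul_div_assoc, le_div_iff₀ hτ]
    linarith
  have s4 : T * L ≤ K * C3 * C1 * (C1 * C3) * (A * (r * N / τ)) := by
    calc T * L ≤ (K * C3 * C1 * A) * (C1 * (r * N / τ)) := mul_le_mul s3 hL' hL0 (by positivity)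
      _ = K * C3 * C1 * C1 * (A * (r * N / τ)) * 1 := by ring
      _ ≤ K * C3 * C1 * C1 * (A * (r * N / τ)) * C3 := mul_le_mul_of_nonneg_left hC3 (by positivity)
      _ = _ := by ring
  have s5 : (T / (τ / N / C3)) ^ (1 / 2 : ℝ) ≤ K * C3 * C1 * (C1 * C3) * (A * (N / τ)) ^ (1 / 2 : ℝ) := by
    have k1 : 1 ≤ K * C3 * C1 * (C1 * C3) := by
      apply one_le_mul_of_one_le_of_one_le _ (one_le_mul_of_one_le_of_one_le hC1 hC3)
      rw [mul_assoc]
      exact one_le_mul_of_one_le_of_one_le hK hKC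
    calc (T / (τ / N / C3)) ^ (1 / 2 : ℝ) ≤ ((K * C3 * C1 * (C1 * C3)) * (A * (N / τ))) ^ (1 / 2 : ℝ) := by
          apply Real.rpow_le_rpow (by positivity) _ (by norm_num)
          have e1 : T / (τ / N / C3) = T * (C3 * (N / τ)) := by field_simp
          rw [e1]
          calc T * (C3 * (N / τ)) ≤ (K * C3 * C1 * A) * (C3 * (N / τ)) := mul_le_mul_of_nonneg_right s3 (by positivity)
            _ = K * C3 * C1 * C3 * (A * (N / τ)) * 1 := by ring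
            _ ≤ K * C3 * C1 * C3 * (A * (N / τ)) * C1 := mul_le_mul_of_nonneg_left hC1 (by positivity)
            _ = _ := by ring
      _ = (K * C3 * C1 * (C1 * C3)) ^ (1 / 2 : ℝ) * (A * (N / τ)) ^ (1 / 2 : ℝ) := by
          rw [Real.mul_rpow (by positivity) (by positivity)]
      _ ≤ (K * C3 * C1 * (C1 * C3)) * (A * (N / τ)) ^ (1 / 2 : ℝ) := by
          apply mul_le_mul_of_nonneg_right _ (by positivity)
          calc (K * C3 * C1 * (C1 * C3)) ^ (1 / 2 : ℝ) ≤ (K * C3 * C1 * (C1 * C3)) ^ (1 : ℝ) :=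
                Real.rpow_le_rpow_of_exponent_le k1 (by norm_num)
            _ = _ := Real.rpow_one _
  set X : ℝ := A * (r * N / τ) + (A * (N / τ)) ^ (1 / 2 : ℝ) with hX
  have hX0 : 0 ≤ X := by positivity
  have s6 : I ≤ C4 * (K * C3 * C1) * (C1 * C3) * X := by
    calc I ≤ C4 * (T * L + (T / (τ / N / C3)) ^ (1 / 2 : ℝ)) := hI
      _ ≤ C4 * (K * C3 * C1 * (C1 * C3) * (A * (r * N / τ)) + K * C3 * C1 * (C1 * C3) * (A * (N / τ)) ^ (1 / 2 : ℝ)) := by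
          apply mul_le_mul_of_nonneg_left (add_le_add s4 s5) hC40.le
      _ = _ := by rw [hX]; ring
  have s7 : 2 * (K * (β * N / r)) + 1 ≤ 2 * K * (1 + β * N / r) := by
    nlinarith
  calc P ≤ I * (2 * (K * (β * N / r)) + 1) := hP
    _ ≤ (C4 * (K * C3 * C1) * (C1 * C3) * X) * (2 * K * (1 + β * N / r)) := by
        apply mul_le_mul s6 s7 (by positivity) (by positivity)
    _ = _ := by ring

private theorem crit_pair {t : ℝ} (ht : 0 < t) {k : ℕ} (hk : 2 ≤ k) {N M r : ℕ} {α β : ℝ} (hN : 1 ≤ N) (hM : M ≤ 2 * N)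
    (hr : 1 ≤ r) (hβ : β ≤ 1 / 2) {p : ℕ × ℕ} (hp : p ∈ prs t k N M r α β) :
    ∃ z : ℝ, (N : ℝ) / 2 ≤ z ∧ z ≤ 4 * N ∧ ff t k ((p.2 - p.1 : ℕ) : ℝ) z = r := by
  obtain ⟨⟨a1, a2⟩, ⟨b1, b2⟩, hlt, hv, hx⟩ := mem_prs.1 hp
  have hN' : (1 : ℝ) ≤ N := by exact_mod_cast hN
  have hr' : (1 : ℝ) ≤ r := by exact_mod_cast hr
  have a1' : (N : ℝ) ≤ p.1 := by exact_mod_cast a1.le
  have a2' : (p.1 : ℝ) ≤ 2 * N := by exact_mod_cast a2.trans hM
  have hlt' : (p.1 : ℝ) < p.2 := by exact_mod_cast hlt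
  rw [Nat.cast_sub hlt.le]
  have e1 : ff t k ((p.2 : ℝ) - p.1) p.1 = yy t k p.1 - yy t k p.2 := by
    unfold ff
    congr 2
    ring
  rw [abs_le] at hv
  obtain ⟨z, z1, z2, z3⟩ := crit_ex t ht k (by omega) (l := (p.2 : ℝ) - p.1) (n := (p.1 : ℝ)) (r := (r : ℝ)) (by linarith)
    (by linarith) (by rw [e1]; linarith) (by rw [e1]; linarith)
  exact ⟨z, by linarith, by linarith, z3⟩

theorem prs_card (k : ℕ) (hk : 2 ≤ k) : ∃ C : ℝ, 1 ≤ C ∧ ∀ (t : ℝ) (N M r : ℕ) (α β : ℝ), 0 < t → 1 ≤ N → M ≤ 2 * N → 1 ≤ r →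
    0 ≤ α → 0 < β → β ≤ 1 / 2 → ((prs t k N M r α β).card : ℝ) ≤ C * bd N (t / (N : ℝ) ^ k) r α β := by
  classical
  obtain ⟨C1, hC1, h1⟩ := pair_bd k hk
  obtain ⟨K, hK, h2⟩ := pair_crit k hk
  obtain ⟨C3, hC3, h3⟩ := leg_second k hk
  obtain ⟨C4, hC4, h4⟩ := cnt
  refine ⟨2 * K * (C4 * (K * C3 * C1) * (C1 * C3)), ?_, ?_⟩
  · have a1 : 1 ≤ K * C3 * C1 := one_le_mul_of_one_le_of_one_le (one_le_mul_of_one_le_of_one_le hK hC3) hC1
    have a2 : 1 ≤ C4 * (K * C3 * C1) * (C1 * C3) :=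
      one_le_mul_of_one_le_of_one_le (one_le_mul_of_one_le_of_one_le hC4 a1) (one_le_mul_of_one_le_of_one_le hC1 hC3)
    exact one_le_mul_of_one_le_of_one_le (by linarith) a2
  intro t N M r α β ht hN hM hr hα hβ hβ2
  have hN' : (1 : ℝ) ≤ N := by exact_mod_cast hN
  have hN0 : (0 : ℝ) < N := by linarith
  have hr' : (1 : ℝ) ≤ r := by exact_mod_cast hr
  have hr0 : (0 : ℝ) < r := by linarith
  have hτ : 0 < t / (N : ℝ) ^ k := by positivity
  by_cases hne : (prs t k N M r α β).Nonempty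
  swap
  · rw [not_nonempty_iff_eq_empty] at hne
    rw [hne, card_empty]
    unfold bd
    push_cast
    positivity
  have h1' := h1 t N M r α β ht hN hM hr hβ2
  have h2' := h2 t N M r α β ht hN hM hr hβ2
  set P := prs t k N M r α β with hP
  set D : Finset ℕ := P.image fun p => p.2 - p.1 with hDdef
  have hD : D.Nonempty := hne.image _
  set l1 := D.min' hD with hl1
  set l2 := D.max' hD with hl2
  obtain ⟨p1, hp1, e1⟩ := mem_image.1 (D.min'_mem hD)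
  obtain ⟨p2, hp2, e2⟩ := mem_image.1 (D.max'_mem hD)
  rw [← hl1] at e1
  rw [← hl2] at e2
  have hl12 : l1 ≤ l2 := D.min'_le _ (D.max'_mem hD)
  -- facts on the extreme differences
  obtain ⟨⟨a1, a2⟩, ⟨b1, b2⟩, hlt1, hv1, -⟩ := mem_prs.1 hp1
  obtain ⟨⟨a1', a2'⟩, ⟨b1', b2'⟩, hlt2, hv2, -⟩ := mem_prs.1 hp2
  have hl1pos : 1 ≤ l1 := by omega
  have hl2N : l2 ≤ N := by omega
  have hl2N' : (l2 : ℝ) ≤ N := by exact_mod_cast hl2N
  have c1 : ((p1.2 : ℝ) - p1.1) = (l1 : ℝ) := by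
    rw [← e1, Nat.cast_sub hlt1.le]
  have c2 : ((p2.2 : ℝ) - p2.1) = (l2 : ℝ) := by
    rw [← e2, Nat.cast_sub hlt2.le]
  have g1 := (h1' p1 hp1).1
  have g2 := (h1' p2 hp2).2
  rw [c1] at g1
  rw [c2] at g2
  obtain ⟨y1, hy1, hy1', ey1⟩ := crit_pair ht hk hN hM hr hβ2 hp1
  obtain ⟨y2, hy2, hy2', ey2⟩ := crit_pair ht hk hN hM hr hβ2 hp2
  rw [e1] at ey1
  rw [e2] at ey2
  have hl1R : (1 : ℝ) ≤ l1 := by exact_mod_cast hl1pos
  have hZex : ∀ i : ℕ, ∃ z : ℝ, l1 + i ≤ l2 → (N : ℝ) / 2 ≤ z ∧ z ≤ 4 * N ∧ ff t k ((l1 + i : ℕ) : ℝ) z = r := by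
    intro i
    by_cases hi : l1 + i ≤ l2
    · obtain ⟨-, z, z1, z2, z3⟩ := crit_between t ht k (by omega) (l1 := (l1 : ℝ)) (l := ((l1 + i : ℕ) : ℝ)) (l2 := (l2 : ℝ))
        (z1 := y1) (z2 := y2) (r := (r : ℝ)) (by linarith) (by exact_mod_cast Nat.le_add_right l1 i)
        (by exact_mod_cast hi) (by linarith) (by linarith) ey1 ey2
      exact ⟨z, fun _ => ⟨by linarith, by linarith, z3⟩⟩
    · exact ⟨0, fun h => absurd h hi⟩
  choose Z hZ using hZex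
  set τ := t / (N : ℝ) ^ k with hτdef
  set L := l2 - l1 + 1 with hL
  set F : ℕ → ℝ := fun i => -(Psi t k r ((l1 + i : ℕ) : ℝ) (Z i)) with hF
  set δ : ℝ := α + K * (β ^ 2 * N / r) with hδ
  have hrτ : (r : ℝ) ≤ C1 * τ := by
    have : (r : ℝ) * N ≤ C1 * τ * N := by
      refine g1.trans ?_
      rw [mul_assoc]
      apply mul_le_mul_of_nonneg_left _ (by linarith)
      apply mul_le_mul_of_nonneg_left _ hτ.le
      have : (l1 : ℝ) ≤ l2 := by exact_mod_cast hl12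
      linarith
    exact le_of_mul_le_mul_right this hN0
  have et : t / (N : ℝ) ^ (k + 1) = τ / N := by
    rw [pow_succ, hτdef, div_div]
  have hcnt := h4 L F (τ / N / C3) (C3 * (C1 * (τ ^ 2 / (r * N)))) δ (by positivity) ?_ (by positivity) ?_
  · -- conclusion
    refine cls_real N τ r α β C1 C3 C4 K L (((range L).filter fun i => nrm (F i) ≤ δ).card : ℝ) _ hN' hτ hr' hα hβ hC1 hC3 hC4 hK
      (by positivity) ?_ hcnt ?_
    · refine le_trans ?_ g2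
      apply mul_le_mul_of_nonneg_left _ hτ.le
      have : L ≤ l2 := by omega
      exact_mod_cast this
    · have hmap : ∀ p ∈ P, p.2 - p.1 - l1 ∈ (range L).filter fun i => nrm (F i) ≤ δ := by
        intro p hp
        have hmem : p.2 - p.1 ∈ D := mem_image.2 ⟨p, hp, rfl⟩
        have q1 : l1 ≤ p.2 - p.1 := D.min'_le _ hmem
        have q2 : p.2 - p.1 ≤ l2 := D.le_max' _ hmem
        have q3 : l1 + (p.2 - p.1 - l1) = p.2 - p.1 := by omega
        obtain ⟨-, -, hlt, -, -⟩ := mem_prs.1 hp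
        rw [mem_filter, mem_range]
        refine ⟨by omega, ?_⟩
        obtain ⟨z1, z2, z3⟩ := hZ (p.2 - p.1 - l1) (by omega)
        rw [hF]
        simp only
        rw [nrm_neg]
        rw [q3, Nat.cast_sub hlt.le] at z3 ⊢
        exact (h2' p hp _ z1 z2 z3).2
      have hcardeq := card_eq_sum_card_fiberwise (f := fun p : ℕ × ℕ => p.2 - p.1 - l1) (s := P)
        (t := (range L).filter fun i => nrm (F i) ≤ δ) (fun p hp => hmap p hp)
      rw [hcardeq]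
      push_cast
      have hfib : ∀ i ∈ (range L).filter fun i => nrm (F i) ≤ δ,
          (((P.filter fun p : ℕ × ℕ => p.2 - p.1 - l1 = i).card : ℕ) : ℝ) ≤ 2 * (K * (β * N / r)) + 1 := by
        intro i hi
        have hinj : Set.InjOn (fun p : ℕ × ℕ => p.1) (P.filter fun p : ℕ × ℕ => p.2 - p.1 - l1 = i : Finset (ℕ × ℕ)) := by
          intro p hp p' hp' hpp
          rw [mem_coe, mem_filter] at hp hp'
          have u1 : l1 ≤ p.2 - p.1 := D.min'_le _ (mem_image.2 ⟨p, hp.1, rfl⟩)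
          have u2 : l1 ≤ p'.2 - p'.1 := D.min'_le _ (mem_image.2 ⟨p', hp'.1, rfl⟩)
          have u3 := hp.2
          have u4 := hp'.2
          simp only at hpp
          ext
          · exact hpp
          · omega
        rw [← card_image_of_injOn hinj]
        refine card_interval _ (Z i) _ (by positivity) ?_
        intro n hn
        obtain ⟨p, hp, rfl⟩ := mem_image.1 hn
        rw [mem_filter] at hp
        have hmem : p.2 - p.1 ∈ D := mem_image.2 ⟨p, hp.1, rfl⟩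
        have q1 : l1 ≤ p.2 - p.1 := D.min'_le _ hmem
        have q2 : p.2 - p.1 ≤ l2 := D.le_max' _ hmem
        have q3 : l1 + i = p.2 - p.1 := by omega
        obtain ⟨-, -, hlt, -, -⟩ := mem_prs.1 hp.1
        obtain ⟨z1, z2, z3⟩ := hZ i (by omega)
        rw [q3, Nat.cast_sub hlt.le] at z3
        exact (h2' p hp.1 _ z1 z2 z3).1
      calc _ ≤ ∑ _i ∈ (range L).filter fun i => nrm (F i) ≤ δ, (2 * (K * (β * N / r)) + 1) := sum_le_sum hfib
        _ = _ := by rw [sum_const, nsmul_eq_mul]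
  · -- lam1 ≤ lam2
    have k1 : τ / N / C3 ≤ τ / N := div_le_self (by positivity) hC3
    have k2 : τ / N ≤ C1 * (τ ^ 2 / (r * N)) := by
      have : C1 * (τ ^ 2 / (r * N)) = τ / N * (C1 * τ / r) := by field_simp
      rw [this]
      apply le_mul_of_one_le_right (by positivity)
      rw [le_div_iff₀ hr0]
      linarith
    have k3 : C1 * (τ ^ 2 / (r * N)) ≤ C3 * (C1 * (τ ^ 2 / (r * N))) := le_mul_of_one_le_left (by positivity) hC3
    linarith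
  · -- second differences
    intro i hi
    obtain ⟨z1, z2, z3⟩ := hZ i (by omega)
    obtain ⟨w1, w2, w3⟩ := hZ (i + 1) (by omega)
    obtain ⟨v1, v2, v3⟩ := hZ (i + 2) (by omega)
    set l : ℝ := ((l1 + (i + 1) : ℕ) : ℝ) with hl
    have m0 : ((l1 + i : ℕ) : ℝ) = l - 1 := by rw [hl]; push_cast; ring
    have m2 : ((l1 + (i + 2) : ℕ) : ℝ) = l + 1 := by rw [hl]; push_cast; ring
    have hi0 : (0 : ℝ) ≤ i := by positivity
    have hl1' : (l1 : ℝ) + 1 ≤ l := by rw [hl]; push_cast; linarith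
    have hlN : l ≤ N := by
      have : l1 + (i + 1) ≤ N := by omega
      rw [hl]
      exact_mod_cast this
    rw [m0] at z3
    rw [m2] at v3
    have h3' := h3 t N r l (Z i) (Z (i + 1)) (Z (i + 2)) ht hN' (by linarith) (by linarith) z1 z2 w1 w2 v1 v2 z3 w3 v3
    rw [et, ← hτdef] at h3'
    have eF : F (i + 2) - 2 * F (i + 1) + F i =
        -(Psi t k r (l + 1) (Z (i + 2)) - 2 * Psi t k r l (Z (i + 1)) + Psi t k r (l - 1) (Z i)) := by
      rw [hF]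
      simp only
      rw [m0, m2, ← hl]
      ring
    rw [eF]
    refine ⟨h3'.1, h3'.2.trans ?_⟩
    apply mul_le_mul_of_nonneg_left _ (by linarith)
    have hlpos : 0 < l := by linarith
    rw [div_le_iff₀ hlpos]
    have k1 : (r : ℝ) * N ≤ C1 * (τ * l) := by
      refine g1.trans ?_
      apply mul_le_mul_of_nonneg_left _ (by linarith)
      apply mul_le_mul_of_nonneg_left _ hτ.le
      linarith
    have k2 : C1 * (τ ^ 2 / (r * N)) * l = τ * (C1 * (τ * l) / (r * N)) := by field_simp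
    rw [k2]
    apply le_mul_of_one_le_right hτ.le
    rw [le_div_iff₀ (by positivity)]
    linarith

end Pool.Agent.Lib.HC
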