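import Pool.Agent.Lib.HB.Defs

/-!
# HC: the derivative estimate for zeta sums beyond Heath-Brown, definitions

`k ≥ 3`, `q = k + 1`, `τ = t/N^k ≥ 1`.  `yy t k z = t/(2 π k z^k)` and `xx t k z = -t/(2 π (k-1) z^(k-1))` are, up to the common sign
`(-1)^k`, the coordinates `cz t n k` and `cz t n (k-1)`; `xx' = k yy`.  `ff t k l z = yy z - yy (z+l)`,
`Psi t k r l z = xx (z+l) - xx z + k r z`, with `z`-derivative `k (r - ff l z)`.
-/

set_option autoImplicit false

namespace Pool.Agent.Lib.HC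

open Finset Pool.Agent.Lib.ZB Pool.Agent.Lib.HB

/-- the top coordinate without sign -/
noncomputable def yy (t : ℝ) (k : ℕ) (z : ℝ) : ℝ := t / (2 * Real.pi * k * z ^ k)

/-- the next coordinate without sign -/
noncomputable def xx (t : ℝ) (k : ℕ) (z : ℝ) : ℝ := -(t / (2 * Real.pi * ((k : ℝ) - 1) * z ^ (k - 1)))

/-- the difference of the top coordinate -/
noncomputable def ff (t : ℝ) (k : ℕ) (l z : ℝ) : ℝ := yy t k z - yy t k (z + l)

/-- the phase whose minimum in `z` is the Legendre transform -/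
noncomputable def Psi (t : ℝ) (k : ℕ) (r l z : ℝ) : ℝ := xx t k (z + l) - xx t k z + k * r * z

theorem yy_cz (t : ℝ) (k n : ℕ) : cz t n k = (-1) ^ k * yy t k n := by
  unfold cz yy
  ring

theorem xx_cz (t : ℝ) (k n : ℕ) (hk : 2 ≤ k) : cz t n (k - 1) = (-1) ^ k * xx t k n := by
  obtain ⟨j, rfl⟩ : ∃ j, k = j + 1 := ⟨k - 1, by omega⟩
  unfold cz xx
  rw [Nat.add_sub_cancel, pow_succ]
  push_cast
  ring

end Pool.Agent.Lib.HC
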