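import Pool.Agent.Lib.HC.Wt
import Pool.Agent.Lib.HC.Jk

/-!
# HC / KJ (60 lines): the two-dimensional mean square

PROOF.  `two_dimJ` with `V = s H^(k-1) + 1`, `W = s H^k + 1`, `s = k (k+1)/2`, `x n = cz t n (k-1)`, `y n = cz t n k`, then `wt_pairs`; `V ≤ 2 s H^(k-1)`, `W ≤ 2 s H^k`.
-/

set_option autoImplicit false

namespace Pool.Agent.Lib.HC

open Finset Pool.Agent.Lib.ZB Pool.Agent.Lib.HB

theorem kernelJ (k : ℕ) (hk : 3 ≤ k) : ∃ C : ℝ, 0 ≤ C ∧ ∀ (N M H : ℕ) (t : ℝ), 1 ≤ N → M ≤ 2 * N → 1 ≤ H → (N : ℝ) ^ k ≤ t →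
    t * (H : ℝ) ^ (k + 1) ≤ (N : ℝ) ^ (k + 1) → (N : ℝ) ^ (k + 1) ≤ t * (2 * (H : ℝ)) ^ (k + 1) →
    ∀ b : ℕ → ℂ, (∀ n, ‖b n‖ ≤ 1) →
    ∑ i ∈ range (k * (k + 1) / 2 * H ^ (k - 1) + 1), ∑ j ∈ range (k * (k + 1) / 2 * H ^ k + 1),
      ‖∑ n ∈ Ioc N M, b n * e ((i : ℝ) * cz t n (k - 1) + (j : ℝ) * cz t n k)‖ ^ 2 ≤
      C * (H : ℝ) ^ (2 * k - 1) * (N + H * (N : ℝ) ^ (2 / 3 : ℝ) * (t / (N : ℝ) ^ k) ^ (4 / 3 : ℝ)) * (1 + Real.log N) := by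
  obtain ⟨C1, hC1, h1⟩ := two_dimJ
  obtain ⟨C2, hC2, h2⟩ := wt_pairs k hk
  obtain ⟨s, hs⟩ : ∃ s : ℕ, s = k * (k + 1) / 2 := ⟨_, rfl⟩
  have hs1 : 1 ≤ s := by
    rw [hs]
    have h1 : 3 * 4 ≤ k * (k + 1) := Nat.mul_le_mul hk (by omega)
    omega
  have hs1R : (1 : ℝ) ≤ s := by exact_mod_cast hs1
  refine ⟨C1 * (2 * s) ^ 2 * C2, by positivity, ?_⟩
  intro N M H t hN hM hH htN ht1 ht2 b hb
  rw [← hs]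
  have hNR : (1 : ℝ) ≤ N := by exact_mod_cast hN
  have hN0 : (0 : ℝ) < N := by linarith
  have hHR : (1 : ℝ) ≤ H := by exact_mod_cast hH
  have hH0 : (0 : ℝ) < H := by linarith
  have ht0 : 0 < t := lt_of_lt_of_le (by positivity) htN
  have hlog : 0 ≤ Real.log N := Real.log_nonneg hNR
  obtain ⟨V, hV⟩ : ∃ V : ℕ, V = s * H ^ (k - 1) + 1 := ⟨_, rfl⟩
  obtain ⟨W, hW⟩ : ∃ W : ℕ, W = s * H ^ k + 1 := ⟨_, rfl⟩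
  rw [← hV, ← hW]
  have hp1 : (1 : ℝ) ≤ (H : ℝ) ^ (k - 1) := one_le_pow₀ hHR
  have hp2 : (1 : ℝ) ≤ (H : ℝ) ^ k := one_le_pow₀ hHR
  have hVS : (V : ℝ) ≤ 2 * s * (H : ℝ) ^ (k - 1) := by
    rw [hV]
    push_cast
    nlinarith
  have hWS : (W : ℝ) ≤ 2 * s * (H : ℝ) ^ k := by
    rw [hW]
    push_cast
    nlinarith
  have hVH : (H : ℝ) ^ (k - 1) ≤ V := by
    rw [hV]
    push_cast
    nlinarith
  have hWH : (H : ℝ) ^ k ≤ W := by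
    rw [hW]
    push_cast
    nlinarith
  have h3 := h1 (Ioc N M) (fun n => cz t n (k - 1)) (fun n => cz t n k) b hb V W (by omega) (by omega)
  have h4 := h2 t N M H V W hN hM hH htN ht1 ht2 hVH hWH
  refine h3.trans ?_
  obtain ⟨Q, hQ⟩ : ∃ Q : ℝ, Q = (N : ℝ) + H * (N : ℝ) ^ (2 / 3 : ℝ) * (t / (N : ℝ) ^ k) ^ (4 / 3 : ℝ) := ⟨_, rfl⟩
  rw [← hQ] at h4 ⊢
  have hQ0 : 0 ≤ Q := by
    rw [hQ]
    positivity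
  have hVW : C1 * (V : ℝ) * W ≤ C1 * ((2 * s * (H : ℝ) ^ (k - 1)) * (2 * s * (H : ℝ) ^ k)) := by
    rw [mul_assoc]
    refine mul_le_mul_of_nonneg_left (mul_le_mul hVS hWS (Nat.cast_nonneg _) (by positivity)) (by linarith)
  have e1 : (H : ℝ) ^ (k - 1) * (H : ℝ) ^ k = (H : ℝ) ^ (2 * k - 1) := by
    rw [← pow_add]
    congr 1
    omega
  have hS0 : 0 ≤ ∑ n ∈ Ioc N M, ∑ m ∈ Ioc N M, wt V (cz t n (k - 1) - cz t m (k - 1)) ^ 2 * wt W (cz t n k - cz t m k) ^ 2 :=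
    sum_nonneg fun n _ => sum_nonneg fun m _ => by positivity
  calc C1 * (V : ℝ) * W * ∑ n ∈ Ioc N M, ∑ m ∈ Ioc N M, wt V (cz t n (k - 1) - cz t m (k - 1)) ^ 2 * wt W (cz t n k - cz t m k) ^ 2
      ≤ (C1 * ((2 * s * (H : ℝ) ^ (k - 1)) * (2 * s * (H : ℝ) ^ k))) * (C2 * (1 + Real.log N) * Q) :=
        mul_le_mul hVW h4 hS0 (by positivity)
    _ = C1 * (2 * s) ^ 2 * C2 * ((H : ℝ) ^ (k - 1) * (H : ℝ) ^ k) * Q * (1 + Real.log N) := by ring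
    _ = _ := by rw [e1]

end Pool.Agent.Lib.HC
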