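import Pool.Agent.Lib.HC.Fn
import Pool.Agent.Lib.HC.Crit

/-!
# HC / Leg (170 lines): the Legendre transform of the second coordinate

PROOF.  `leg_min`: `Psi_deriv`: the derivative `k (r - ff l z)` is `≤ 0` for `z < z0` and `≥ 0` for `z > z0` (`ff_anti`), so `z0` is the minimum (mean value
theorem / `monotoneOn_of_deriv_nonneg`, `antitoneOn_of_deriv_nonpos`; `l > 0`).
`leg_up`: mean value theorem: `Psi l z - Psi l z0 = k (r - ff l ξ)(z - z0) = k (ff l z0 - ff l ξ)(z - z0)`, `ξ` between `z0` and `z`, and `fn_bd` (2):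
`|ff l z0 - ff l ξ| ≤ C t/N^(k+2) l |ξ - z0|`.
`leg_second`: write `P l z = Psi t k r l z`.  UPPER bound for the second difference `D = P (l+1) z2 - 2 P l z1 + P (l-1) z0`: by `leg_min`
`P (l+1) z2 ≤ P (l+1) z1`, `P (l-1) z0 ≤ P (l-1) z1`, so `D ≤ xx (w+1) + xx (w-1) - 2 xx w`, `w = z1 + l`; `= k (yy ξ - yy ξ')` with `ξ ∈ (w, w+1)`,
`ξ' ∈ (w-1, w)` - use instead (second mean value or the integral) `xx (w+1) + xx (w-1) - 2 xx w = k (yy (v+1) - yy v)` for some `v ∈ (w-1, w)` (Rolle for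
`s ↦ xx (s+1) - xx s` on `[w-1, w]`), and `fn_bd` (1): `yy (v+1) - yy v ≤ -(t/N^(k+1))/C`.
LOWER bound: `z0 ≤ z2` (`crit_between`); `fn_bd` (2) at `l+1`: `ff (l+1) z0 - r = ff (l+1) z0 - ff (l-1) z0 = yy (z0+l-1) - yy (z0+l+1) ≤ 2 C t/N^(k+1)` and
`ff (l+1) z0 - r = ff (l+1) z0 - ff (l+1) z2 ≥ t/N^(k+2) (l+1) (z2 - z0)/C`, so `z2 - z0 ≤ 2 C^2 N/(l+1)`.  Let `a = (z0+z2)/2`, `d = (z2-z0)/2 ≥ 0`.  `leg_min` at `l`:
`P l z1 ≤ P l a`, so `D ≥ P (l+1) z2 + P (l-1) z0 - 2 P l a = [xx (a+l+d+1) + xx (a+l-d-1) - 2 xx (a+l)] - [xx (a+d) + xx (a-d) - 2 xx a]` (the linear terms cancel).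
The function `b ↦ xx (b+d) + xx (b-d) - 2 xx b` is increasing in `b` (derivative `k (yy (b+d) + yy (b-d) - 2 yy b) ≥ 0`, `yy` convex), so the second bracket is
`≤ xx (a+l+d) + xx (a+l-d) - 2 xx (a+l)` and `D ≥ [xx (a+l+d+1) - xx (a+l+d)] - [xx (a+l-d) - xx (a+l-d-1)] = k (yy ξ - yy ξ')`, `ξ ≤ a+l+d+1`, `ξ' ≥ a+l-d-1`,
`≥ -k C t/N^(k+1) (2d+2) ≥ -C' (t/N^(k+1)) N/l` (`l + 1 ≤ 4N`).  All points are in `[N/2, 16N]`.
-/

set_option autoImplicit false

namespace Pool.Agent.Lib.HC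

theorem leg_min (t : ℝ) (ht : 0 < t) (k : ℕ) (hk : 2 ≤ k) {r l z0 z : ℝ} (hl : 0 < l) (hz0 : 0 < z0) (hz : 0 < z)
    (h : ff t k l z0 = r) : Psi t k r l z0 ≤ Psi t k r l z := by
  have hd : ∀ w, 0 < w → HasDerivAt (fun z => Psi t k r l z) (k * (r - ff t k l w)) w :=
    fun w hw => Psi_deriv t k hk r hl.le hw
  have hk0 : (0 : ℝ) ≤ k := Nat.cast_nonneg k
  rcases le_total z z0 with hle | hle
  · have h1 : AntitoneOn (fun z => Psi t k r l z) (Set.Icc z z0) := by
      refine antitoneOn_of_deriv_nonpos (convex_Icc z z0)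
        (fun w hw => (hd w (hz.trans_le hw.1)).continuousAt.continuousWithinAt)
        (fun w hw => ?_) (fun w hw => ?_)
      · rw [interior_Icc] at hw
        exact (hd w (hz.trans hw.1)).differentiableAt.differentiableWithinAt
      · rw [interior_Icc] at hw
        rw [(hd w (hz.trans hw.1)).deriv]
        have h2 := ff_anti t ht k (by omega) hl (hz.trans hw.1) hw.2
        rw [h] at h2
        exact mul_nonpos_of_nonneg_of_nonpos hk0 (by linarith)
    exact h1 (Set.left_mem_Icc.2 hle) (Set.right_mem_Icc.2 hle) hle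
  · have h1 : MonotoneOn (fun z => Psi t k r l z) (Set.Icc z0 z) := by
      refine monotoneOn_of_deriv_nonneg (convex_Icc z0 z)
        (fun w hw => (hd w (hz0.trans_le hw.1)).continuousAt.continuousWithinAt)
        (fun w hw => ?_) (fun w hw => ?_)
      · rw [interior_Icc] at hw
        exact (hd w (hz0.trans hw.1)).differentiableAt.differentiableWithinAt
      · rw [interior_Icc] at hw
        rw [(hd w (hz0.trans hw.1)).deriv]
        have h2 := ff_anti t ht k (by omega) hl hz0 hw.1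
        rw [h] at h2
        exact mul_nonneg hk0 (by linarith)
    exact h1 (Set.left_mem_Icc.2 hle) (Set.right_mem_Icc.2 hle) hle

theorem leg_up (k : ℕ) (hk : 2 ≤ k) : ∃ C : ℝ, 1 ≤ C ∧ ∀ (t N r l z0 z : ℝ), 0 < t → 1 ≤ N → 0 < l → l ≤ 4 * N →
    N / 2 ≤ z0 → z0 ≤ 8 * N → N / 2 ≤ z → z ≤ 8 * N → ff t k l z0 = r →
      Psi t k r l z - Psi t k r l z0 ≤ C * (t / N ^ (k + 2) * l * (z - z0) ^ 2) := by
  obtain ⟨C, hC, H⟩ := fn_bd k hk
  have hk1 : (1 : ℝ) ≤ k := by exact_mod_cast (by omega : 1 ≤ k)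
  refine ⟨k * C, by nlinarith, fun t N r l z0 z ht hN hl hl4 h1 h2 h3 h4 h5 => ?_⟩
  have hN0 : (0 : ℝ) < N := by linarith
  have hd : ∀ w, 0 < w → HasDerivAt (fun z => Psi t k r l z) (k * (r - ff t k l w)) w :=
    fun w hw => Psi_deriv t k hk r hl.le hw
  have hc0 : 0 ≤ C * (t / N ^ (k + 2) * l) := by positivity
  rcases lt_trichotomy z0 z with hlt | heq | hlt
  · have hz0 : 0 < z0 := by linarith
    obtain ⟨ξ, hξ, e⟩ := exists_hasDerivAt_eq_slope (fun z => Psi t k r l z) (fun w => k * (r - ff t k l w)) hlt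
      (fun w hw => (hd w (hz0.trans_le hw.1)).continuousAt.continuousWithinAt) (fun w hw => hd w (hz0.trans hw.1))
    rw [eq_div_iff (by linarith)] at e
    rw [← e]
    have h6 := ((H t N ht hN).2 l z0 ξ hl.le hl4 h1 hξ.1.le (hξ.2.le.trans h4)).2
    rw [h5] at h6
    have h7 : C * (t / N ^ (k + 2) * l * (ξ - z0)) ≤ C * (t / N ^ (k + 2) * l) * (z - z0) := by
      have : C * (t / N ^ (k + 2) * l * (ξ - z0)) = C * (t / N ^ (k + 2) * l) * (ξ - z0) := by ring
      rw [this]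
      exact mul_le_mul_of_nonneg_left (by linarith [hξ.2]) hc0
    calc k * (r - ff t k l ξ) * (z - z0) ≤ k * (C * (t / N ^ (k + 2) * l) * (z - z0)) * (z - z0) := by
          refine mul_le_mul_of_nonneg_right (mul_le_mul_of_nonneg_left (h6.trans h7) (by linarith)) (by linarith)
      _ = k * C * (t / N ^ (k + 2) * l * (z - z0) ^ 2) := by ring
  · rw [heq]
    simp
  · have hz : 0 < z := by linarith
    obtain ⟨ξ, hξ, e⟩ := exists_hasDerivAt_eq_slope (fun z => Psi t k r l z) (fun w => k * (r - ff t k l w)) hlt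
      (fun w hw => (hd w (hz.trans_le hw.1)).continuousAt.continuousWithinAt) (fun w hw => hd w (hz.trans hw.1))
    rw [eq_div_iff (by linarith)] at e
    have h6 := ((H t N ht hN).2 l ξ z0 hl.le hl4 (h3.trans hξ.1.le) hξ.2.le h2).2
    rw [h5] at h6
    have h7 : C * (t / N ^ (k + 2) * l * (z0 - ξ)) ≤ C * (t / N ^ (k + 2) * l) * (z0 - z) := by
      have : C * (t / N ^ (k + 2) * l * (z0 - ξ)) = C * (t / N ^ (k + 2) * l) * (z0 - ξ) := by ring
      rw [this]
      exact mul_le_mul_of_nonneg_left (by linarith [hξ.1]) hc0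
    have e2 : Psi t k r l z - Psi t k r l z0 = k * (ff t k l ξ - r) * (z0 - z) := by
      have : Psi t k r l z - Psi t k r l z0 = -(Psi t k r l z0 - Psi t k r l z) := by ring
      rw [this, ← e]
      ring
    rw [e2]
    calc k * (ff t k l ξ - r) * (z0 - z) ≤ k * (C * (t / N ^ (k + 2) * l) * (z0 - z)) * (z0 - z) := by
          refine mul_le_mul_of_nonneg_right (mul_le_mul_of_nonneg_left (h6.trans h7) (by linarith)) (by linarith)
      _ = k * C * (t / N ^ (k + 2) * l * (z - z0) ^ 2) := by ring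

private theorem xx_step (t : ℝ) (k : ℕ) (hk : 2 ≤ k) {w : ℝ} (hw : 0 < w) :
    ∃ ξ : ℝ, w < ξ ∧ ξ < w + 1 ∧ xx t k (w + 1) - xx t k w = k * yy t k ξ := by
  obtain ⟨ξ, hξ, e⟩ := exists_hasDerivAt_eq_slope (xx t k) (fun w => k * yy t k w) (by linarith : w < w + 1)
    (fun v hv => (xx_deriv t k hk (hw.trans_le hv.1)).continuousAt.continuousWithinAt)
    (fun v hv => xx_deriv t k hk (hw.trans hv.1))
  have e1 : w + 1 - w = 1 := by ring
  rw [e1, div_one] at e
  exact ⟨ξ, hξ.1, hξ.2, e.symm⟩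

private theorem xx_second (t : ℝ) (k : ℕ) (hk : 2 ≤ k) {w : ℝ} (hw : 0 < w - 1) :
    ∃ v : ℝ, w - 1 < v ∧ v < w ∧ xx t k (w + 1) + xx t k (w - 1) - 2 * xx t k w = k * (yy t k (v + 1) - yy t k v) := by
  have hd : ∀ s, 0 < s → HasDerivAt (fun s => xx t k (s + 1) - xx t k s) (k * yy t k (s + 1) - k * yy t k s) s := by
    intro s hs
    have h1 : HasDerivAt (xx t k) (k * yy t k (s + 1)) (s + 1) := xx_deriv t k hk (by linarith)
    have h2 : HasDerivAt (fun s => xx t k (s + 1)) (k * yy t k (s + 1)) s := h1.comp_add_const s 1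
    exact h2.sub (xx_deriv t k hk hs)
  obtain ⟨v, hv, e⟩ := exists_hasDerivAt_eq_slope (fun s => xx t k (s + 1) - xx t k s)
    (fun s => k * yy t k (s + 1) - k * yy t k s) (by linarith : w - 1 < w)
    (fun s hs => (hd s (hw.trans_le hs.1)).continuousAt.continuousWithinAt) (fun s hs => hd s (hw.trans hs.1))
  have e1 : w - (w - 1) = 1 := by ring
  rw [e1, div_one] at e
  refine ⟨v, hv.1, hv.2, ?_⟩
  have e2 : w - 1 + 1 = w := by ring
  rw [e2] at e
  linarith

theorem leg_second (k : ℕ) (hk : 2 ≤ k) : ∃ C : ℝ, 1 ≤ C ∧ ∀ (t N r l z0 z1 z2 : ℝ), 0 < t → 1 ≤ N → 1 < l → l ≤ 2 * N →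
    N / 2 ≤ z0 → z0 ≤ 4 * N → N / 2 ≤ z1 → z1 ≤ 4 * N → N / 2 ≤ z2 → z2 ≤ 4 * N →
    ff t k (l - 1) z0 = r → ff t k l z1 = r → ff t k (l + 1) z2 = r →
      t / N ^ (k + 1) / C ≤ -(Psi t k r (l + 1) z2 - 2 * Psi t k r l z1 + Psi t k r (l - 1) z0) ∧
        -(Psi t k r (l + 1) z2 - 2 * Psi t k r l z1 + Psi t k r (l - 1) z0) ≤ C * (t / N ^ k / l) := by
  obtain ⟨C, hC, H⟩ := fn_bd k hk
  have hk1 : (1 : ℝ) ≤ k := by exact_mod_cast (by omega : 1 ≤ k)
  have hC0 : 0 < C := by linarith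
  have hCC : C ≤ k * C * (2 * C ^ 2 + 4) := by
    have h1 : C ≤ k * C := by nlinarith
    have h2 : (1 : ℝ) ≤ 2 * C ^ 2 + 4 := by nlinarith [sq_nonneg C]
    nlinarith [mul_nonneg (by linarith : (0 : ℝ) ≤ k * C) (by linarith : (0 : ℝ) ≤ 2 * C ^ 2 + 4 - 1)]
  refine ⟨k * C * (2 * C ^ 2 + 4), hC.trans hCC, fun t N r l z0 z1 z2 ht hN hl hl2 a0 b0 a1 b1 a2 b2 e0 e1 e2 => ?_⟩
  have hN0 : (0 : ℝ) < N := by linarith
  have hz0 : 0 < z0 := by linarith
  have hz1 : 0 < z1 := by linarith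
  have hz2 : 0 < z2 := by linarith
  have hl0 : 0 < l := by linarith
  have hT : 0 < t / N ^ (k + 1) := by positivity
  obtain ⟨H1, H2⟩ := H t N ht hN
  constructor
  · -- the upper bound for the second difference
    have m1 := leg_min t ht k hk (by linarith : 0 < l + 1) hz2 hz1 e2
    have m2 := leg_min t ht k hk (by linarith : 0 < l - 1) hz0 hz1 e0
    obtain ⟨v, hv1, hv2, hv⟩ := xx_second t k hk (w := z1 + l) (by linarith)
    have h3 := (H1 v (v + 1) (by linarith) (by linarith) (by linarith)).1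
    have e3 : t / N ^ (k + 1) * (v + 1 - v) / C = t / N ^ (k + 1) / C := by ring
    rw [e3] at h3
    have h4 : Psi t k r (l + 1) z1 - 2 * Psi t k r l z1 + Psi t k r (l - 1) z1 =
        xx t k (z1 + l + 1) + xx t k (z1 + l - 1) - 2 * xx t k (z1 + l) := by
      unfold Psi
      rw [show z1 + (l + 1) = z1 + l + 1 by ring, show z1 + (l - 1) = z1 + l - 1 by ring]
      ring
    have h5 : t / N ^ (k + 1) / (k * C * (2 * C ^ 2 + 4)) ≤ t / N ^ (k + 1) / C :=
      div_le_div_of_nonneg_left hT.le hC0 hCC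
    have h6 : 0 ≤ yy t k v - yy t k (v + 1) := le_trans (by positivity) h3
    have h7 : yy t k v - yy t k (v + 1) ≤ k * (yy t k v - yy t k (v + 1)) := by nlinarith
    have h8 : k * (yy t k (v + 1) - yy t k v) = -(k * (yy t k v - yy t k (v + 1))) := by ring
    rw [h8] at hv
    linarith
  · -- the lower bound for the second difference
    have m1 := leg_min t ht k hk hl0 hz1 hz2 e1
    have m2 := leg_min t ht k hk hl0 hz1 hz0 e1
    obtain ⟨ξ, x1, x2, x3⟩ := xx_step t k hk (w := z2 + l) (by linarith)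
    obtain ⟨ζ, y1, y2, y3⟩ := xx_step t k hk (w := z0 + l - 1) (by linarith)
    have h4 : Psi t k r (l + 1) z2 - Psi t k r l z2 = xx t k (z2 + l + 1) - xx t k (z2 + l) := by
      unfold Psi
      rw [show z2 + (l + 1) = z2 + l + 1 by ring]
      ring
    have h5 : Psi t k r l z0 - Psi t k r (l - 1) z0 = xx t k (z0 + l - 1 + 1) - xx t k (z0 + l - 1) := by
      unfold Psi
      rw [show z0 + (l - 1) = z0 + l - 1 by ring, show z0 + l - 1 + 1 = z0 + l by ring]
      ring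
    have hz02 : z0 ≤ z2 := (crit_between t ht k (by omega) (by linarith : 0 < l - 1) (by linarith : l - 1 ≤ l)
      (by linarith : l ≤ l + 1) hz0 hz2 e0 e2).1
    -- the distance of the critical points
    have h6 := (H2 (l + 1) z0 z2 (by linarith) (by linarith) a0 hz02 (by linarith)).1
    have h7 := (H1 (z0 + (l - 1)) (z0 + (l + 1)) (by linarith) (by linarith) (by linarith)).2
    have h8 : ff t k (l + 1) z0 - ff t k (l + 1) z2 = yy t k (z0 + (l - 1)) - yy t k (z0 + (l + 1)) := by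
      rw [e2, ← e0]
      unfold ff
      ring
    rw [h8] at h6
    have h9 := h6.trans h7
    have e9 : z0 + (l + 1) - (z0 + (l - 1)) = 2 := by ring
    rw [e9] at h9
    have hd : (z2 - z0) * l ≤ 2 * C ^ 2 * N := by
      have e10 : t / N ^ (k + 2) = t / N ^ (k + 1) / N := by
        rw [pow_succ N (k + 1), div_div]
      rw [e10, div_le_iff₀ hC0] at h9
      have h10 : t / N ^ (k + 1) * ((l + 1) * (z2 - z0)) ≤ t / N ^ (k + 1) * (2 * C ^ 2 * N) := by
        have h11 := mul_le_mul_of_nonneg_right h9 hN0.le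
        have e11 : t / N ^ (k + 1) / N * (l + 1) * (z2 - z0) * N = t / N ^ (k + 1) * ((l + 1) * (z2 - z0)) := by
          field_simp
        rw [e11] at h11
        calc t / N ^ (k + 1) * ((l + 1) * (z2 - z0)) ≤ C * (t / N ^ (k + 1) * 2) * C * N := h11
          _ = t / N ^ (k + 1) * (2 * C ^ 2 * N) := by ring
      have h12 := le_of_mul_le_mul_left h10 hT
      nlinarith
    have h10 := (H1 ζ ξ (by linarith) (by linarith) (by linarith)).2
    have h11 : ξ - ζ ≤ z2 - z0 + 2 := by linarith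
    have h12 : (ξ - ζ) * l ≤ (2 * C ^ 2 + 4) * N := by
      have : (ξ - ζ) * l ≤ (z2 - z0 + 2) * l := mul_le_mul_of_nonneg_right h11 hl0.le
      nlinarith
    have h13 : ξ - ζ ≤ (2 * C ^ 2 + 4) * N / l := by rwa [le_div_iff₀ hl0]
    have h14 : yy t k ζ - yy t k ξ ≤ C * (t / N ^ (k + 1) * ((2 * C ^ 2 + 4) * N / l)) :=
      h10.trans (mul_le_mul_of_nonneg_left (mul_le_mul_of_nonneg_left h13 hT.le) hC0.le)
    have e15 : C * (t / N ^ (k + 1) * ((2 * C ^ 2 + 4) * N / l)) = C * (2 * C ^ 2 + 4) * (t / N ^ k / l) := by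
      rw [pow_succ]
      field_simp
    rw [e15] at h14
    have h16 : k * (yy t k ζ - yy t k ξ) ≤ k * (C * (2 * C ^ 2 + 4) * (t / N ^ k / l)) :=
      mul_le_mul_of_nonneg_left h14 (by linarith)
    have e17 : k * C * (2 * C ^ 2 + 4) * (t / N ^ k / l) = k * (C * (2 * C ^ 2 + 4) * (t / N ^ k / l)) := by ring
    rw [e17]
    have e18 : k * (yy t k ζ - yy t k ξ) = k * yy t k ζ - k * yy t k ξ := by ring
    rw [e18] at h16
    linarith

end Pool.Agent.Lib.HC
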