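import Pool.Agent.Lib.HC.KJ
import Pool.Agent.Lib.HB.XE

/-!
# HC / MJ (130 lines): the moment of order `s`

PROOF.  Copy of `HB/MO.lean` (`momentH`) with `kernelJ` instead of `kernel2` (replace `(N : ℝ) + t / (N : ℝ) ^ (k - 1) + (H : ℝ) ^ 2` everywhere).
-/

set_option autoImplicit false

namespace Pool.Agent.Lib.HC

open Finset Pool.Agent.Lib.ZB Pool.Agent.Lib.HB

private theorem MJ_gauss (n : ℕ) : 2 * ∑ j ∈ Icc 1 n, j = n * (n + 1) := by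
  induction n with
  | zero => simp
  | succ n ih => rw [sum_Icc_succ_top (by omega), mul_add, ih]; ring

private theorem MJ_prod (s H n : ℕ) (hs : 1 ≤ s) (hH : 1 ≤ H) :
    ∏ j ∈ Icc 1 n, ((s : ℝ) * (H : ℝ) ^ j + 1) ≤ (2 * (s : ℝ)) ^ n * (H : ℝ) ^ (∑ j ∈ Icc 1 n, j) := by
  have hs' : (1 : ℝ) ≤ s := by exact_mod_cast hs
  have hH' : (1 : ℝ) ≤ H := by exact_mod_cast hH
  calc ∏ j ∈ Icc 1 n, ((s : ℝ) * (H : ℝ) ^ j + 1) ≤ ∏ j ∈ Icc 1 n, ((2 * (s : ℝ)) * (H : ℝ) ^ j) := by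
        refine prod_le_prod (fun j _ => by positivity) fun j _ => ?_
        have h1 : (1 : ℝ) ≤ (H : ℝ) ^ j := one_le_pow₀ hH'
        have h2 : (1 : ℝ) ≤ (s : ℝ) * (H : ℝ) ^ j := one_le_mul_of_one_le_of_one_le hs' h1
        linarith
    _ = (2 * (s : ℝ)) ^ n * (H : ℝ) ^ (∑ j ∈ Icc 1 n, j) := by
        rw [prod_mul_distrib, prod_const, Nat.card_Icc, Nat.add_sub_cancel, prod_pow_eq_pow_sum]

private noncomputable def MJ_dlt (s : ℕ) (z : ℂ) : ℂ := ((starRingEnd ℂ) z / (‖z‖ : ℂ)) ^ s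

private theorem MJ_dlt_norm (s : ℕ) (z : ℂ) : ‖MJ_dlt s z‖ ≤ 1 := by
  unfold MJ_dlt
  rw [norm_pow]
  refine pow_le_one₀ (norm_nonneg _) ?_
  rw [norm_div, RCLike.norm_conj, Complex.norm_real, norm_norm]
  exact div_self_le_one _

private theorem MJ_dlt_mul (s : ℕ) (hs : 1 ≤ s) (z : ℂ) : MJ_dlt s z * z ^ s = ((‖z‖ ^ s : ℝ) : ℂ) := by
  unfold MJ_dlt
  by_cases hz : z = 0
  · subst hz
    have h0 : s ≠ 0 := by omega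
    simp [h0]
  · have hn : (‖z‖ : ℂ) ≠ 0 := by
      exact_mod_cast (norm_ne_zero_iff.mpr hz)
    rw [← mul_pow, Complex.ofReal_pow]
    congr 1
    rw [div_mul_eq_mul_div, div_eq_iff hn, mul_comm, Complex.mul_conj, Complex.normSq_eq_norm_sq]
    push_cast
    ring

theorem momentJ (hV : VMV) (k : ℕ) (hk : 3 ≤ k) {ε : ℝ} (hε : 0 < ε) : ∃ C : ℝ, 0 ≤ C ∧
    ∀ (N M H : ℕ) (t : ℝ), 1 ≤ N → M ≤ 2 * N → 1 ≤ H → (N : ℝ) ^ k ≤ t →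
      t * (H : ℝ) ^ (k + 1) ≤ (N : ℝ) ^ (k + 1) → (N : ℝ) ^ (k + 1) ≤ t * (2 * (H : ℝ)) ^ (k + 1) →
      ∀ w : ℕ → ℂ, (∀ h, ‖w h‖ ≤ 1) →
      (∑ n ∈ Ioc N M, ‖∑ h ∈ range H, w h * e (ph k (cz t n) h)‖ ^ (k * (k + 1) / 2)) ^ 2 ≤
        C * (1 + Real.log N) * (H : ℝ) ^ (((k * (k + 1) : ℕ) : ℝ) + ε) *
          (N + H * (N : ℝ) ^ (2 / 3 : ℝ) * (t / (N : ℝ) ^ k) ^ (4 / 3 : ℝ)) := by
  obtain ⟨C0, hC0, hker⟩ := kernelJ k hk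
  obtain ⟨C1, hC1, hVJ⟩ := hV k (by omega) ε hε
  set s : ℕ := k * (k + 1) / 2 with hs
  have h2s : 2 * s = k * (k + 1) := Nat.mul_div_cancel' (Nat.even_mul_succ_self k).two_dvd
  have hs1 : 1 ≤ s := by
    have : 3 * 4 ≤ k * (k + 1) := Nat.mul_le_mul hk (by omega)
    omega
  have hs1' : (1 : ℝ) ≤ s := by exact_mod_cast hs1
  refine ⟨C0 * (2 * (s : ℝ)) ^ (k - 2) * C1, by positivity, ?_⟩
  intro N M H t hN hM hH htk htH hNt w hw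
  have hN' : (1 : ℝ) ≤ N := by exact_mod_cast hN
  have hH' : (1 : ℝ) ≤ H := by exact_mod_cast hH
  have hH0 : (0 : ℝ) < H := by linarith
  have hlog : 0 ≤ Real.log N := Real.log_nonneg hN'
  have ht : 0 < t := lt_of_lt_of_le (by positivity) htk
  have hB0 : 0 ≤ C0 * (H : ℝ) ^ (2 * k - 1) * (N + H * (N : ℝ) ^ (2 / 3 : ℝ) * (t / (N : ℝ) ^ k) ^ (4 / 3 : ℝ)) * (1 + Real.log N) := by
    positivity
  obtain ⟨z, hz⟩ : ∃ z : ℕ → ℂ, z = fun n => ∑ h ∈ range H, w h * e (ph k (cz t n) h) := ⟨_, rfl⟩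
  have hmain := expandH s k H (by omega) (Ioc N M) (cz t) w hw (fun n => MJ_dlt s (z n)) (fun n => MJ_dlt_norm s (z n))
    _ hB0 (fun b hb => hker N M H t hN hM hH htk htH hNt b hb)
  have hleft : ‖∑ n ∈ Ioc N M, MJ_dlt s (z n) * (∑ h ∈ range H, w h * e (ph k (cz t n) h)) ^ s‖ ^ 2 =
      (∑ n ∈ Ioc N M, ‖∑ h ∈ range H, w h * e (ph k (cz t n) h)‖ ^ s) ^ 2 := by
    have h1 : ∑ n ∈ Ioc N M, MJ_dlt s (z n) * (∑ h ∈ range H, w h * e (ph k (cz t n) h)) ^ s =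
        ((∑ n ∈ Ioc N M, ‖∑ h ∈ range H, w h * e (ph k (cz t n) h)‖ ^ s : ℝ) : ℂ) := by
      rw [Complex.ofReal_sum]
      refine sum_congr rfl fun n _ => ?_
      have h2 : (∑ h ∈ range H, w h * e (ph k (cz t n) h)) = z n := by rw [hz]
      rw [h2]
      exact MJ_dlt_mul s hs1 (z n)
    rw [h1, Complex.norm_real, Real.norm_eq_abs, abs_of_nonneg]
    exact sum_nonneg fun n _ => pow_nonneg (norm_nonneg _) _
  rw [hleft] at hmain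
  refine hmain.trans ?_
  have hP := MJ_prod s H (k - 2) hs1 hH
  have hJ := hVJ H hH
  have hexp : (H : ℝ) ^ (((k * (k + 1) : ℕ) : ℝ) + ε) =
      (H : ℝ) ^ (2 * k - 1) * (H : ℝ) ^ (∑ j ∈ Icc 1 (k - 2), j) * (H : ℝ) ^ ((s : ℝ) + ε) := by
    have hg := MJ_gauss (k - 2)
    have hσ : (2 * k - 1) + (∑ j ∈ Icc 1 (k - 2), j) + s = k * (k + 1) := by
      obtain ⟨l, rfl⟩ : ∃ l, k = l + 2 := ⟨k - 2, by omega⟩
      have h3 : l + 2 - 2 = l := by omega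
      rw [h3] at hg ⊢
      have h4 : 2 * (l + 2) - 1 = 2 * l + 3 := by omega
      rw [h4]
      nlinarith
    rw [← Real.rpow_natCast (H : ℝ) (2 * k - 1), ← Real.rpow_natCast (H : ℝ) (∑ j ∈ Icc 1 (k - 2), j),
      ← Real.rpow_add hH0, ← Real.rpow_add hH0]
    congr 1
    have hσ' : (((2 * k - 1) + (∑ j ∈ Icc 1 (k - 2), j) + s : ℕ) : ℝ) = ((k * (k + 1) : ℕ) : ℝ) := by rw [hσ]
    rw [Nat.cast_add, Nat.cast_add] at hσ'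
    linarith
  rw [hexp]
  calc C0 * (H : ℝ) ^ (2 * k - 1) * (N + H * (N : ℝ) ^ (2 / 3 : ℝ) * (t / (N : ℝ) ^ k) ^ (4 / 3 : ℝ)) * (1 + Real.log N) *
        (∏ j ∈ Icc 1 (k - 2), ((s : ℝ) * (H : ℝ) ^ j + 1)) * (VJ s k H : ℝ)
      ≤ C0 * (H : ℝ) ^ (2 * k - 1) * (N + H * (N : ℝ) ^ (2 / 3 : ℝ) * (t / (N : ℝ) ^ k) ^ (4 / 3 : ℝ)) * (1 + Real.log N) *
        ((2 * (s : ℝ)) ^ (k - 2) * (H : ℝ) ^ (∑ j ∈ Icc 1 (k - 2), j)) * (C1 * (H : ℝ) ^ ((s : ℝ) + ε)) := by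
        have hp0 : 0 ≤ ∏ j ∈ Icc 1 (k - 2), ((s : ℝ) * (H : ℝ) ^ j + 1) := prod_nonneg fun j _ => by positivity
        gcongr
    _ = _ := by ring

end Pool.Agent.Lib.HC
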