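import Pool.Agent.Lib.HC.Cls

/-!
# HC / SumR (130 lines): the sum of the class bounds over `r`

PROOF.  Pure inequalities.  Let `Y = β N/τ ≥ 1/2`, `ρ = τ r^(-2/3) N^(-1/3)`.  `1 + β N/r ≤ (1 + 2 D) Y τ/r` for `r ≤ D τ` (`1 ≤ 2 Y ≤ 2 Y D τ/r`).
First part of `bd`: `(Y τ/r)(r N/τ)(α + β^2 N/r + ρ) = Y N (α + β^2 N/r + ρ)`; `∑_{r ≤ R} 1 ≤ D τ`, `∑ 1/r ≤ 1 + log R`, `∑ r^(-2/3) ≤ 3 R^(1/3) ≤ 3 D τ^(1/3)`:
`≤ C Y N (α τ + β^2 N (1 + log R) + τ^(4/3) N^(-1/3))`.  Second part: `√(a+b+c) ≤ √a + √b + √c` (`Real.rpow_add_le_add_rpow`):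
`(Y τ/r)(√(α N/τ) + β N/√(r τ) + N^(1/3) r^(-1/3))`; `∑ 1/r ≤ 1 + log R`, `∑ r^(-3/2) ≤ 3`, `∑ r^(-4/3) ≤ 4`:
`≤ C (1 + log R) Y (√(α N τ) + β N √τ + τ N^(1/3))`.  `R ≤ D τ ≤ D N`: `1 + log R ≤ (1 + log D)(1 + log N)` (`log D ≥ 0`).  (The sums by comparison with telescoping
sums or integrals: `r^(-2/3) ≤ 3 (r^(1/3) - (r-1)^(1/3))`, `r^(-3/2) ≤ 3 (..)`; any absolute constants will do. Induction on `R`.)
-/

set_option autoImplicit false

namespace Pool.Agent.Lib.HC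

open Finset

private theorem sr_cube {x : ℝ} (hx : 0 ≤ x) : (x ^ (1 / 3 : ℝ)) ^ 3 = x := by
  rw [← Real.rpow_natCast, ← Real.rpow_mul hx]
  norm_num

private theorem sr_sum (R : ℕ) : ∑ r ∈ Icc 1 R, (r : ℝ) ^ (-(2 / 3) : ℝ) ≤ 3 * (R : ℝ) ^ (1 / 3 : ℝ) := by
  induction R with
  | zero => simp
  | succ R ih =>
    rw [sum_Icc_succ_top (by omega)]
    have hR0 : (0 : ℝ) ≤ R := Nat.cast_nonneg R
    have hR1 : (0 : ℝ) < ((R + 1 : ℕ) : ℝ) := by positivity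
    have ha3 := sr_cube hR0
    have hb3 := sr_cube hR1.le
    have ha0 : 0 ≤ (R : ℝ) ^ (1 / 3 : ℝ) := by positivity
    have hb0 : 0 < ((R + 1 : ℕ) : ℝ) ^ (1 / 3 : ℝ) := by positivity
    have hb : ((R + 1 : ℕ) : ℝ) ^ (-(2 / 3) : ℝ) = ((((R + 1 : ℕ) : ℝ) ^ (1 / 3 : ℝ)) ^ 2)⁻¹ := by
      rw [Real.rpow_neg hR1.le, ← Real.rpow_natCast, ← Real.rpow_mul hR1.le]
      norm_num
    rw [hb]
    set a : ℝ := (R : ℝ) ^ (1 / 3 : ℝ) with ha
    set b : ℝ := ((R + 1 : ℕ) : ℝ) ^ (1 / 3 : ℝ) with hbd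
    have h1 : b ^ 3 - a ^ 3 = 1 := by
      rw [ha3, hb3]
      push_cast
      ring
    have h2 : (b ^ 2)⁻¹ ≤ 3 * (b - a) := by
      rw [inv_le_iff_one_le_mul₀ (by positivity)]
      have h3 : 3 * (b - a) * b ^ 2 = (b ^ 3 - a ^ 3) + (b - a) ^ 2 * (2 * b + a) := by ring
      rw [h3, h1]
      have h4 : 0 ≤ (b - a) ^ 2 * (2 * b + a) := by positivity
      linarith
    linarith

private theorem sr_har (R : ℕ) : ∑ r ∈ Icc 1 R, (1 / (r : ℝ)) ≤ 1 + Real.log R := by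
  have h1 := harmonic_le_one_add_log R
  rw [harmonic_eq_sum_Icc] at h1
  push_cast at h1
  simpa only [one_div] using h1

private theorem sr_term {D N τ α β r : ℝ} (hD : 1 ≤ D) (hτ : 1 ≤ τ) (hτN : τ ≤ N) (hα : 0 ≤ α) (hβ : 0 < β)
    (hY : 1 / 2 ≤ β * N / τ) (hr : 1 ≤ r) (hrD : r ≤ D * τ) :
    bd N τ r α β ≤ (1 + 2 * D) * (β * N / τ) *
        (N * (α + β ^ 2 * N * (1 / r) + τ * N ^ (-(1 / 3) : ℝ) * r ^ (-(2 / 3) : ℝ))) +
      (1 + 2 * D) * (β * N / τ) *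
        (((α * N * τ) ^ (1 / 2 : ℝ) + β * N * τ ^ (1 / 2 : ℝ) + τ * N ^ (1 / 3 : ℝ)) * (1 / r)) := by
  have hτ0 : 0 < τ := by linarith
  have hN0 : 0 < N := by linarith
  have hr0 : 0 < r := by linarith
  have hD0 : 0 < D := by linarith
  unfold bd
  set Y : ℝ := β * N / τ with hYd
  have hY0 : 0 < Y := by linarith
  set P : ℝ := α + β ^ 2 * N / r + τ * r ^ (-(2 / 3) : ℝ) * N ^ (-(1 / 3) : ℝ) with hP
  have hP0 : 0 ≤ P := by positivity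
  have hfac : 1 + β * N / r ≤ (1 + 2 * D) * (Y * (τ / r)) := by
    have h1 : β * N / r = Y * (τ / r) := by
      rw [hYd]
      field_simp
    have h2 : 1 ≤ D * τ / r := by
      rw [le_div_iff₀ hr0]
      linarith
    have h3 : 1 ≤ 2 * Y * (D * τ / r) := by
      have := mul_le_mul (by linarith : (1 : ℝ) ≤ 2 * Y) h2 (by norm_num) (by linarith)
      linarith
    have h4 : (1 + 2 * D) * (Y * (τ / r)) = Y * (τ / r) + 2 * Y * (D * τ / r) := by ring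
    rw [h1, h4]
    linarith
  have hsq : (P * (N / τ)) ^ (1 / 2 : ℝ) ≤
      (α * N * τ) ^ (1 / 2 : ℝ) / τ + β * N * τ ^ (1 / 2 : ℝ) / τ + N ^ (1 / 3 : ℝ) := by
    rw [← Real.sqrt_eq_rpow, ← Real.sqrt_eq_rpow, ← Real.sqrt_eq_rpow]
    have e1 : Real.sqrt (α * (N / τ)) = Real.sqrt (α * N * τ) / τ := by
      have h1 : α * (N / τ) = α * N * τ / τ ^ 2 := by
        field_simp
      rw [h1, Real.sqrt_div (by positivity), Real.sqrt_sq hτ0.le]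
    have e2 : Real.sqrt (β ^ 2 * N / r * (N / τ)) ≤ β * N * Real.sqrt τ / τ := by
      have h1 : β ^ 2 * N / r * (N / τ) ≤ (β * N) ^ 2 * τ / τ ^ 2 := by
        have h2 : β ^ 2 * N / r ≤ β ^ 2 * N := div_le_self (by positivity) hr
        have h3 : β ^ 2 * N * (N / τ) = (β * N) ^ 2 * τ / τ ^ 2 := by
          field_simp
        rw [← h3]
        exact mul_le_mul_of_nonneg_right h2 (by positivity)
      refine (Real.sqrt_le_sqrt h1).trans (le_of_eq ?_)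
      rw [Real.sqrt_div (by positivity), Real.sqrt_sq hτ0.le, Real.sqrt_mul (by positivity),
        Real.sqrt_sq (by positivity)]
    have e3 : Real.sqrt (τ * r ^ (-(2 / 3) : ℝ) * N ^ (-(1 / 3) : ℝ) * (N / τ)) ≤ N ^ (1 / 3 : ℝ) := by
      have h1 : τ * r ^ (-(2 / 3) : ℝ) * N ^ (-(1 / 3) : ℝ) * (N / τ) = r ^ (-(2 / 3) : ℝ) * (N ^ (1 / 3 : ℝ)) ^ 2 := by
        have h2 : N ^ (-(1 / 3) : ℝ) * N = (N ^ (1 / 3 : ℝ)) ^ 2 := by
          rw [Real.rpow_neg hN0.le]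
          have h3 := sr_cube hN0.le
          have h4 : 0 < N ^ (1 / 3 : ℝ) := by positivity
          rw [inv_mul_eq_iff_eq_mul₀ h4.ne']
          rw [← pow_succ']
          exact h3.symm
        rw [← h2]
        field_simp
      have h5 : r ^ (-(2 / 3) : ℝ) ≤ 1 := Real.rpow_le_one_of_one_le_of_nonpos hr (by norm_num)
      have h6 : r ^ (-(2 / 3) : ℝ) * (N ^ (1 / 3 : ℝ)) ^ 2 ≤ (N ^ (1 / 3 : ℝ)) ^ 2 :=
        mul_le_of_le_one_left (by positivity) h5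
      rw [h1]
      refine (Real.sqrt_le_sqrt h6).trans (le_of_eq ?_)
      exact Real.sqrt_sq (by positivity)
    have e4 : P * (N / τ) = α * (N / τ) + β ^ 2 * N / r * (N / τ) +
        τ * r ^ (-(2 / 3) : ℝ) * N ^ (-(1 / 3) : ℝ) * (N / τ) := by
      rw [hP]
      ring
    have e5 : ∀ x y : ℝ, 0 ≤ x → 0 ≤ y → Real.sqrt (x + y) ≤ Real.sqrt x + Real.sqrt y := by
      intro x y hx hy
      rw [Real.sqrt_le_left (by positivity), add_sq, Real.sq_sqrt hx, Real.sq_sqrt hy]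
      have : 0 ≤ 2 * Real.sqrt x * Real.sqrt y := by positivity
      linarith
    rw [e4]
    have e6 := e5 (α * (N / τ) + β ^ 2 * N / r * (N / τ))
      (τ * r ^ (-(2 / 3) : ℝ) * N ^ (-(1 / 3) : ℝ) * (N / τ)) (by positivity) (by positivity)
    have e7 := e5 (α * (N / τ)) (β ^ 2 * N / r * (N / τ)) (by positivity) (by positivity)
    rw [e1] at e7
    linarith
  have hA0 : 0 ≤ P * (r * N / τ) + (P * (N / τ)) ^ (1 / 2 : ℝ) := by positivity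
  have hstep := mul_le_mul_of_nonneg_right hfac hA0
  refine hstep.trans ?_
  have hstep2 : (1 + 2 * D) * (Y * (τ / r)) * (P * (r * N / τ) + (P * (N / τ)) ^ (1 / 2 : ℝ)) ≤
      (1 + 2 * D) * (Y * (τ / r)) * (P * (r * N / τ) +
        ((α * N * τ) ^ (1 / 2 : ℝ) / τ + β * N * τ ^ (1 / 2 : ℝ) / τ + N ^ (1 / 3 : ℝ))) :=
    mul_le_mul_of_nonneg_left (by linarith) (by positivity)
  refine hstep2.trans (le_of_eq ?_)
  rw [hP]
  field_simp

theorem sum_bd (D : ℝ) (hD : 1 ≤ D) : ∃ C : ℝ, 1 ≤ C ∧ ∀ (R : ℕ) (N τ α β : ℝ), 1 ≤ τ → τ ≤ N → (R : ℝ) ≤ D * τ →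
    0 ≤ α → 0 < β → 1 / 2 ≤ β * N / τ →
      ∑ r ∈ Icc 1 R, bd N τ r α β ≤ C * (1 + Real.log N) *
        (β * N / τ * (N * (α * τ + β ^ 2 * N + τ ^ (4 / 3 : ℝ) * N ^ (-(1 / 3) : ℝ))) +
          β * N / τ * ((α * N * τ) ^ (1 / 2 : ℝ) + β * N * τ ^ (1 / 2 : ℝ) + τ * N ^ (1 / 3 : ℝ))) := by
  have hlD : 0 ≤ Real.log D := Real.log_nonneg hD
  refine ⟨(1 + 2 * D) * (3 * D * (1 + Real.log D)), ?_, ?_⟩
  · have h1 : 1 ≤ 3 * D * (1 + Real.log D) := by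
      have := mul_le_mul (by linarith : (1 : ℝ) ≤ 3 * D) (by linarith : (1 : ℝ) ≤ 1 + Real.log D) (by norm_num)
        (by linarith)
      linarith
    have := mul_le_mul (by linarith : (1 : ℝ) ≤ 1 + 2 * D) h1 (by norm_num) (by linarith)
    linarith
  intro R N τ α β hτ hτN hRD hα hβ hY
  have hτ0 : 0 < τ := by linarith
  have hN0 : 0 < N := by linarith
  have hD0 : 0 < D := by linarith
  have hlN : 0 ≤ Real.log N := Real.log_nonneg (by linarith)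
  have hterm : ∀ r ∈ Icc 1 R, bd N τ r α β ≤ (1 + 2 * D) * (β * N / τ) *
        (N * (α + β ^ 2 * N * (1 / (r : ℝ)) + τ * N ^ (-(1 / 3) : ℝ) * (r : ℝ) ^ (-(2 / 3) : ℝ))) +
      (1 + 2 * D) * (β * N / τ) *
        (((α * N * τ) ^ (1 / 2 : ℝ) + β * N * τ ^ (1 / 2 : ℝ) + τ * N ^ (1 / 3 : ℝ)) * (1 / (r : ℝ))) := by
    intro r hr
    rw [mem_Icc] at hr
    have h1 : (1 : ℝ) ≤ r := by exact_mod_cast hr.1
    have h2 : (r : ℝ) ≤ R := by exact_mod_cast hr.2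
    exact sr_term hD hτ hτN hα hβ hY h1 (h2.trans hRD)
  refine (sum_le_sum hterm).trans ?_
  rw [sum_add_distrib, ← mul_sum, ← mul_sum, ← mul_sum, ← mul_sum, sum_add_distrib, sum_add_distrib, ← mul_sum,
    ← mul_sum, sum_const, Nat.card_Icc, Nat.add_sub_cancel, nsmul_eq_mul]
  set Y : ℝ := β * N / τ with hYd
  have hY0 : 0 < Y := by linarith
  set S2 : ℝ := (α * N * τ) ^ (1 / 2 : ℝ) + β * N * τ ^ (1 / 2 : ℝ) + τ * N ^ (1 / 3 : ℝ) with hS2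
  have hS20 : 0 ≤ S2 := by positivity
  set Hs : ℝ := ∑ r ∈ Icc 1 R, (1 / (r : ℝ)) with hHs
  set Q : ℝ := ∑ r ∈ Icc 1 R, (r : ℝ) ^ (-(2 / 3) : ℝ) with hQ
  set K : ℝ := 1 + Real.log N with hK
  set E : ℝ := 1 + Real.log D with hE
  have hK1 : 1 ≤ K := by linarith
  have hE1 : 1 ≤ E := by linarith
  have hHE : Hs ≤ E * K := by
    rcases Nat.eq_zero_or_pos R with h0 | h0
    · have : Hs = 0 := by rw [hHs, h0]; simp
      rw [this]
      positivity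
    · have h1 := sr_har R
      have hR1 : (0 : ℝ) < R := by exact_mod_cast h0
      have h2 : Real.log R ≤ Real.log D + Real.log N := by
        rw [← Real.log_mul hD0.ne' hN0.ne']
        exact Real.log_le_log hR1 (hRD.trans (mul_le_mul_of_nonneg_left hτN hD0.le))
      have h3 : E * K = 1 + Real.log D + Real.log N + Real.log D * Real.log N := by
        rw [hE, hK]
        ring
      have h4 : 0 ≤ Real.log D * Real.log N := mul_nonneg hlD hlN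
      linarith
  have hQ2 : Q ≤ 3 * D * τ ^ (1 / 3 : ℝ) := by
    have h1 := sr_sum R
    have h2 : (R : ℝ) ^ (1 / 3 : ℝ) ≤ (D * τ) ^ (1 / 3 : ℝ) := Real.rpow_le_rpow (Nat.cast_nonneg R) hRD (by norm_num)
    have h3 : (D * τ) ^ (1 / 3 : ℝ) ≤ D * τ ^ (1 / 3 : ℝ) := by
      rw [Real.mul_rpow hD0.le hτ0.le]
      refine mul_le_mul_of_nonneg_right ?_ (by positivity)
      calc D ^ (1 / 3 : ℝ) ≤ D ^ (1 : ℝ) := Real.rpow_le_rpow_of_exponent_le hD (by norm_num)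
        _ = D := Real.rpow_one D
    linarith
  have hτ43 : τ ^ (4 / 3 : ℝ) = τ * τ ^ (1 / 3 : ℝ) := by
    rw [show (4 / 3 : ℝ) = 1 + 1 / 3 by norm_num, Real.rpow_add hτ0, Real.rpow_one]
  -- the three constants are at most `3 D E K`
  have hEK : 1 ≤ E * K := by
    have := mul_le_mul hE1 hK1 (by norm_num) (by linarith)
    linarith
  have hc1 : D ≤ 3 * D * E * K := by
    have := mul_le_mul_of_nonneg_left hEK hD0.le
    linarith [mul_nonneg hD0.le (by linarith : (0 : ℝ) ≤ E * K)]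
  have hc2 : E * K ≤ 3 * D * E * K := by
    have := mul_le_mul_of_nonneg_right (by linarith : (1 : ℝ) ≤ 3 * D) (by linarith : (0 : ℝ) ≤ E * K)
    linarith
  have hc3 : 3 * D ≤ 3 * D * E * K := by
    have := mul_le_mul_of_nonneg_left hEK (by linarith : (0 : ℝ) ≤ 3 * D)
    linarith
  have t1 : (R : ℝ) * α ≤ 3 * D * E * K * (α * τ) := by
    have h1 : (R : ℝ) * α ≤ D * τ * α := mul_le_mul_of_nonneg_right hRD hα
    have h2 : D * (α * τ) ≤ 3 * D * E * K * (α * τ) := mul_le_mul_of_nonneg_right hc1 (by positivity)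
    linarith
  have t2 : β ^ 2 * N * Hs ≤ 3 * D * E * K * (β ^ 2 * N) := by
    have h1 : β ^ 2 * N * Hs ≤ β ^ 2 * N * (3 * D * E * K) :=
      mul_le_mul_of_nonneg_left (hHE.trans hc2) (by positivity)
    linarith
  have t3 : τ * N ^ (-(1 / 3) : ℝ) * Q ≤ 3 * D * E * K * (τ ^ (4 / 3 : ℝ) * N ^ (-(1 / 3) : ℝ)) := by
    have h1 : τ * N ^ (-(1 / 3) : ℝ) * Q ≤ τ * N ^ (-(1 / 3) : ℝ) * (3 * D * τ ^ (1 / 3 : ℝ)) :=
      mul_le_mul_of_nonneg_left hQ2 (by positivity)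
    have h2 : 3 * D * (τ ^ (4 / 3 : ℝ) * N ^ (-(1 / 3) : ℝ)) ≤
        3 * D * E * K * (τ ^ (4 / 3 : ℝ) * N ^ (-(1 / 3) : ℝ)) := mul_le_mul_of_nonneg_right hc3 (by positivity)
    have h3 : τ * N ^ (-(1 / 3) : ℝ) * (3 * D * τ ^ (1 / 3 : ℝ)) = 3 * D * (τ ^ (4 / 3 : ℝ) * N ^ (-(1 / 3) : ℝ)) := by
      rw [hτ43]
      ring
    linarith
  have t4 : S2 * Hs ≤ 3 * D * E * K * S2 := by
    have h1 : S2 * Hs ≤ S2 * (3 * D * E * K) := mul_le_mul_of_nonneg_left (hHE.trans hc2) hS20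
    linarith
  have hYD : 0 ≤ (1 + 2 * D) * Y := by positivity
  have u1 : N * (R * α + β ^ 2 * N * Hs + τ * N ^ (-(1 / 3) : ℝ) * Q) ≤
      N * (3 * D * E * K * (α * τ + β ^ 2 * N + τ ^ (4 / 3 : ℝ) * N ^ (-(1 / 3) : ℝ))) := by
    refine mul_le_mul_of_nonneg_left ?_ hN0.le
    linarith
  have v1 := mul_le_mul_of_nonneg_left u1 hYD
  have v2 := mul_le_mul_of_nonneg_left t4 hYD
  refine (add_le_add v1 v2).trans (le_of_eq ?_)
  ring

end Pool.Agent.Lib.HC
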