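import Pool.Agent.Lib.HC.All

/-!
# HC / Wt (140 lines): the weighted number of close pairs

PROOF.  `A = H^(k-1)`, `B = H^k` (`wt D x` is decreasing in `D ≥ 0`, so `V`, `W` may be replaced by `A ≤ V`, `B ≤ W`).  Dyadic: for `D ≥ 1` and every `x`:
`wt D x ^ 2 ≤ 16 ∑_{i ≤ I} 16^(-i) [nrm x ≤ min (2^i/D) (1/2)]` if `2^I ≥ D` (let `i` be the least index with `nrm x ≤ 2^i/D`; `i ≤ I` because `nrm x ≤ 1/2`;
`i = 0`: `wt ≤ 1`; `i ≥ 1`: `D nrm x > 2^(i-1)`, `wt ≤ 4^(1-i)`).  Expand the product: for every `(i, j)` the pairs `n < m` with `nrm (x-difference) ≤ α`, `α = min (2^i/A) (1/2)`,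
`nrm (y-difference) ≤ β`, `β = min (2^j/B) (1/2)`: `all_card` with `a = 2^i`, `b = 2^j` (`β B = min (2^j) (B/2) ≥ 1/2`; `H ≥ 1`): `≤ C (1 + log N) 4^i 8^j Q`, and
`∑_i 16^(-i) 4^i ≤ 4/3`, `∑_j 16^(-j) 8^j ≤ 2`.  The pairs `m < n` by symmetry (`nrm_neg`), the pairs `n = m`: `≤ N` (`wt ≤ 1`).  `cz t n k = (-1)^k yy t k n`,
`cz t n (k-1) = (-1)^k xx t k n` (`yy_cz`, `xx_cz`) and `nrm` is even, `wt D (-x) = wt D x`.
-/

set_option autoImplicit false

namespace Pool.Agent.Lib.HC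

open Finset Pool.Agent.Lib.ZB Pool.Agent.Lib.HB

private theorem wtH_anti (D D' x : ℝ) (hD : 0 ≤ D) (hDD : D ≤ D') : wt D' x ≤ wt D x := by
  unfold wt
  have h := nrm_nonneg x
  refine one_div_le_one_div_of_le (by positivity) ?_
  have h1 : D * nrm x ≤ D' * nrm x := mul_le_mul_of_nonneg_right hDD h
  have h2 : 0 ≤ D * nrm x := mul_nonneg hD h
  nlinarith

private theorem wtH_sym (D x : ℝ) : wt D (-x) = wt D x := by
  unfold wt
  rw [nrm_neg]

private theorem wtH_dyad (D : ℝ) (hD : 1 ≤ D) (I : ℕ) (hI : D ≤ 2 ^ I) (x : ℝ) :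
    wt D x ^ 2 ≤ 16 * ∑ i ∈ range (I + 1), (1 / 16 : ℝ) ^ i * (if nrm x ≤ min (2 ^ i / D) (1 / 2) then 1 else 0) := by
  classical
  have hx0 := nrm_nonneg x
  have hx1 := nrm_le_half x
  have hD0 : 0 < D := by linarith
  have hex : ∃ i : ℕ, nrm x ≤ 2 ^ i / D := ⟨I, by
    rw [le_div_iff₀ hD0]
    nlinarith⟩
  have hfs := Nat.find_spec hex
  have hfI : Nat.find hex ≤ I := Nat.find_min' hex (by
    rw [le_div_iff₀ hD0]
    nlinarith)
  obtain ⟨i, hi⟩ : ∃ i, i = Nat.find hex := ⟨_, rfl⟩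
  rw [← hi] at hfs hfI
  have hterm : (1 / 16 : ℝ) ^ i ≤ ∑ i ∈ range (I + 1), (1 / 16 : ℝ) ^ i * (if nrm x ≤ min (2 ^ i / D) (1 / 2) then 1 else 0) := by
    have h1 := single_le_sum (f := fun i => (1 / 16 : ℝ) ^ i * (if nrm x ≤ min (2 ^ i / D) (1 / 2) then (1:ℝ) else 0))
      (fun j _ => by split_ifs <;> positivity) (mem_range.mpr (show i < I + 1 by omega))
    refine le_trans (le_of_eq ?_) h1
    rw [if_pos (le_min hfs hx1), mul_one]
  have hkey : wt D x ^ 2 ≤ 16 * (1 / 16 : ℝ) ^ i := by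
    rcases Nat.eq_zero_or_pos i with h0 | h0
    · rw [h0, pow_zero]
      have h1 := wt_le_one D x
      have h2 := (wt_pos D x).le
      nlinarith
    · obtain ⟨j, rfl⟩ : ∃ j, i = j + 1 := ⟨i - 1, by omega⟩
      have hlt : ¬ nrm x ≤ 2 ^ j / D := Nat.find_min hex (by omega)
      rw [not_le, div_lt_iff₀ hD0] at hlt
      have h3 : (2 : ℝ) ^ j < D * nrm x := by rw [mul_comm]; exact hlt
      have h4 : wt D x ≤ 1 / 4 ^ j := by
        unfold wt
        refine one_div_le_one_div_of_le (by positivity) ?_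
        have h5 : (4 : ℝ) ^ j = (2 ^ j) ^ 2 := by rw [← pow_mul, mul_comm, pow_mul]; norm_num
        have h6 : (2 ^ j : ℝ) ^ 2 ≤ (D * nrm x) ^ 2 := pow_le_pow_left₀ (by positivity) h3.le 2
        rw [h5]
        linarith
      calc wt D x ^ 2 ≤ (1 / 4 ^ j) ^ 2 := pow_le_pow_left₀ (wt_pos D x).le h4 2
        _ = 16 * (1 / 16 : ℝ) ^ (j + 1) := by
          have h7 : ((4 : ℝ) ^ j) ^ 2 = 16 ^ j := by rw [← pow_mul, mul_comm j 2, pow_mul]; norm_num
          rw [div_pow, one_pow, h7, div_pow, one_pow, pow_succ]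
          have h8 : (16 : ℝ) ^ j ≠ 0 := by positivity
          field_simp
  exact hkey.trans (mul_le_mul_of_nonneg_left hterm (by norm_num))

private theorem wtH_g4 (n : ℕ) : ∑ i ∈ range n, (1 / 4 : ℝ) ^ i ≤ 4 / 3 := by
  have h : ∑ i ∈ range n, (1 / 4 : ℝ) ^ i = 4 / 3 * (1 - (1 / 4) ^ n) := by
    induction n with
    | zero => simp
    | succ n ih => rw [sum_range_succ, ih, pow_succ]; ring
  rw [h]
  have : (0:ℝ) ≤ (1 / 4) ^ n := by positivity
  linarith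

private theorem wtH_g2 (n : ℕ) : ∑ i ∈ range n, (1 / 2 : ℝ) ^ i ≤ 2 := by
  have h : ∑ i ∈ range n, (1 / 2 : ℝ) ^ i = 2 * (1 - (1 / 2) ^ n) := by
    induction n with
    | zero => simp
    | succ n ih => rw [sum_range_succ, ih, pow_succ]; ring
  rw [h]
  have : (0:ℝ) ≤ (1 / 2) ^ n := by positivity
  linarith

private theorem wtH_nrmk (k : ℕ) (z : ℝ) : nrm ((-1) ^ k * z) = nrm z := by
  rcases neg_one_pow_eq_or ℝ k with h | h
  · rw [h, one_mul]
  · rw [h, neg_one_mul, nrm_neg]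

open Classical in
/-- indicator of a close pair `n < m` -/
private noncomputable def eP (t : ℝ) (k : ℕ) (α β : ℝ) (n m : ℕ) : ℝ :=
  if n < m ∧ nrm (yy t k n - yy t k m) ≤ β ∧ nrm (xx t k m - xx t k n) ≤ α then 1 else 0

private theorem eP_nonneg (t : ℝ) (k : ℕ) (α β : ℝ) (n m : ℕ) : 0 ≤ eP t k α β n m := by
  unfold eP
  split_ifs <;> norm_num

theorem wt_pairs (k : ℕ) (hk : 3 ≤ k) : ∃ C : ℝ, 1 ≤ C ∧ ∀ (t : ℝ) (N M H : ℕ) (V W : ℝ), 1 ≤ N → M ≤ 2 * N → 1 ≤ H →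
    (N : ℝ) ^ k ≤ t → t * (H : ℝ) ^ (k + 1) ≤ (N : ℝ) ^ (k + 1) → (N : ℝ) ^ (k + 1) ≤ t * (2 * (H : ℝ)) ^ (k + 1) →
    (H : ℝ) ^ (k - 1) ≤ V → (H : ℝ) ^ k ≤ W →
      ∑ n ∈ Ioc N M, ∑ m ∈ Ioc N M, wt V (cz t n (k - 1) - cz t m (k - 1)) ^ 2 * wt W (cz t n k - cz t m k) ^ 2 ≤
        C * (1 + Real.log N) * (N + H * (N : ℝ) ^ (2 / 3 : ℝ) * (t / (N : ℝ) ^ k) ^ (4 / 3 : ℝ)) := by
  classical
  obtain ⟨C, hC, hall⟩ := all_card k hk
  refine ⟨1 + 1400 * C, by linarith, ?_⟩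
  intro t N M H V W hN hMN hH h1 h2 h3 hV hW
  have hN1 : (1:ℝ) ≤ N := by exact_mod_cast hN
  have hH1 : (1:ℝ) ≤ H := by exact_mod_cast hH
  have ht0 : 0 ≤ t := le_trans (by positivity) h1
  obtain ⟨A, hA⟩ : ∃ A : ℝ, A = (H : ℝ) ^ (k - 1) := ⟨_, rfl⟩
  obtain ⟨B, hB⟩ : ∃ B : ℝ, B = (H : ℝ) ^ k := ⟨_, rfl⟩
  have hA1 : 1 ≤ A := by rw [hA]; exact one_le_pow₀ hH1
  have hB1 : 1 ≤ B := by rw [hB]; exact one_le_pow₀ hH1
  have hA0 : 0 < A := by linarith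
  have hB0 : 0 < B := by linarith
  obtain ⟨I, hI⟩ := pow_unbounded_of_one_lt (max A B) (one_lt_two : (1:ℝ) < 2)
  have hIA : A ≤ 2 ^ I := ((le_max_left _ _).trans_lt hI).le
  have hIB : B ≤ 2 ^ I := ((le_max_right _ _).trans_lt hI).le
  obtain ⟨Q, hQ⟩ : ∃ Q : ℝ, Q = N + H * (N : ℝ) ^ (2 / 3 : ℝ) * (t / (N : ℝ) ^ k) ^ (4 / 3 : ℝ) := ⟨_, rfl⟩
  have hQN : (N : ℝ) ≤ Q := by
    rw [hQ]
    have : 0 ≤ H * (N : ℝ) ^ (2 / 3 : ℝ) * (t / (N : ℝ) ^ k) ^ (4 / 3 : ℝ) := by positivity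
    linarith
  rw [← hQ]
  have hlog : 0 ≤ Real.log N := Real.log_nonneg hN1
  obtain ⟨al, hal⟩ : ∃ al : ℕ → ℝ, al = fun i => min (2 ^ i / A) (1 / 2) := ⟨_, rfl⟩
  obtain ⟨be, hbe⟩ : ∃ be : ℕ → ℝ, be = fun i => min (2 ^ i / B) (1 / 2) := ⟨_, rfl⟩
  -- the counts
  have hcard : ∀ i j : ℕ, ∑ n ∈ Ioc N M, ∑ m ∈ Ioc N M, eP t k (al i) (be j) n m ≤
      C * (1 + Real.log N) * ((2 ^ i) ^ 2 * (2 ^ j) ^ 3) * Q := by
    intro i j
    have ha1 : (1:ℝ) ≤ 2 ^ i := one_le_pow₀ (by norm_num)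
    have hb1 : (1:ℝ) ≤ 2 ^ j := one_le_pow₀ (by norm_num)
    have h := hall t N M H (al i) (be j) (2 ^ i) (2 ^ j) hN hMN hH h1 h2 h3 ha1 hb1
      (by rw [hal]; positivity) (by rw [hal]; exact min_le_right _ _)
      (by
        rw [hal, ← hA]
        calc min (2 ^ i / A) (1 / 2) * A ≤ (2 ^ i / A) * A := mul_le_mul_of_nonneg_right (min_le_left _ _) hA0.le
          _ = 2 ^ i := div_mul_cancel₀ _ hA0.ne')
      (by rw [hbe]; exact min_le_right _ _)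
      (by
        rw [hbe, ← hB]
        show 1 / 2 ≤ min (2 ^ j / B) (1 / 2) * B
        rcases min_cases (2 ^ j / B) (1 / 2 : ℝ) with h | h
        · rw [h.1, div_mul_cancel₀ _ hB0.ne']
          linarith
        · rw [h.1]
          linarith)
      (by
        rw [hbe, ← hB]
        calc min (2 ^ j / B) (1 / 2) * B ≤ (2 ^ j / B) * B := mul_le_mul_of_nonneg_right (min_le_left _ _) hB0.le
          _ = 2 ^ j := div_mul_cancel₀ _ hB0.ne')
    rw [← hQ] at h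
    refine le_trans (le_of_eq ?_) h
    rw [card_filter, sum_product]
    push_cast
    refine sum_congr rfl fun n _ => sum_congr rfl fun m _ => ?_
    unfold eP
    rfl
  -- pointwise
  obtain ⟨c, hc⟩ : ∃ c : ℕ → ℕ → ℝ, c = fun i j => (16 * (1 / 16 : ℝ) ^ i) * (16 * (1 / 16 : ℝ) ^ j) := ⟨_, rfl⟩
  have hc0 : ∀ i j, 0 ≤ c i j := fun i j => by rw [hc]; positivity
  have hprod : ∀ x y : ℝ, wt V x ^ 2 * wt W y ^ 2 ≤ ∑ i ∈ range (I + 1), ∑ j ∈ range (I + 1),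
      c i j * ((if nrm x ≤ al i then 1 else 0) * (if nrm y ≤ be j then 1 else 0)) := by
    intro x y
    have e1 : wt V x ^ 2 ≤ wt A x ^ 2 := pow_le_pow_left₀ (wt_pos V x).le (wtH_anti A V x hA0.le (by rw [hA]; exact hV)) 2
    have e2 : wt W y ^ 2 ≤ wt B y ^ 2 := pow_le_pow_left₀ (wt_pos W y).le (wtH_anti B W y hB0.le (by rw [hB]; exact hW)) 2
    have e3 := e1.trans (wtH_dyad A hA1 I hIA x)
    have e4 := e2.trans (wtH_dyad B hB1 I hIB y)
    refine (mul_le_mul e3 e4 (by positivity) (le_trans (by positivity) e3)).trans (le_of_eq ?_)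
    rw [mul_sum, mul_sum, sum_mul_sum]
    refine sum_congr rfl fun i _ => sum_congr rfl fun j _ => ?_
    rw [hc, hal, hbe]
    ring
  have hpt : ∀ n m : ℕ, wt V (cz t n (k - 1) - cz t m (k - 1)) ^ 2 * wt W (cz t n k - cz t m k) ^ 2 ≤
      (if n = m then 1 else 0) + ∑ i ∈ range (I + 1), ∑ j ∈ range (I + 1),
        c i j * (eP t k (al i) (be j) n m + eP t k (al i) (be j) m n) := by
    intro n m
    have hx : nrm (cz t n (k - 1) - cz t m (k - 1)) = nrm (xx t k m - xx t k n) := by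
      rw [xx_cz t k n (by omega), xx_cz t k m (by omega), ← mul_sub, wtH_nrmk, nrm_sub_comm]
    have hy : nrm (cz t n k - cz t m k) = nrm (yy t k n - yy t k m) := by
      rw [yy_cz, yy_cz, ← mul_sub, wtH_nrmk]
    rcases lt_trichotomy n m with h | h | h
    · rw [if_neg h.ne, zero_add]
      refine (hprod _ _).trans (sum_le_sum fun i _ => sum_le_sum fun j _ => mul_le_mul_of_nonneg_left ?_ (hc0 i j))
      refine le_trans (le_of_eq ?_) (le_add_of_nonneg_right (eP_nonneg _ _ _ _ _ _))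
      unfold eP
      rw [hx, hy]
      by_cases ha : nrm (xx t k m - xx t k n) ≤ al i <;> by_cases hb : nrm (yy t k n - yy t k m) ≤ be j <;> simp [ha, hb, h]
    · rw [if_pos h]
      refine le_trans ?_ (le_add_of_nonneg_right (sum_nonneg fun i _ => sum_nonneg fun j _ =>
        mul_nonneg (hc0 i j) (add_nonneg (eP_nonneg _ _ _ _ _ _) (eP_nonneg _ _ _ _ _ _))))
      have a1 : wt V (cz t n (k - 1) - cz t m (k - 1)) ^ 2 ≤ 1 := pow_le_one₀ (wt_pos _ _).le (wt_le_one _ _)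
      have a2 : wt W (cz t n k - cz t m k) ^ 2 ≤ 1 := pow_le_one₀ (wt_pos _ _).le (wt_le_one _ _)
      exact mul_le_one₀ a1 (by positivity) a2
    · rw [if_neg h.ne', zero_add]
      refine (hprod _ _).trans (sum_le_sum fun i _ => sum_le_sum fun j _ => mul_le_mul_of_nonneg_left ?_ (hc0 i j))
      refine le_trans (le_of_eq ?_) (le_add_of_nonneg_left (eP_nonneg _ _ _ _ _ _))
      unfold eP
      rw [hx, hy, nrm_sub_comm (xx t k m), nrm_sub_comm (yy t k n)]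
      by_cases ha : nrm (xx t k n - xx t k m) ≤ al i <;> by_cases hb : nrm (yy t k m - yy t k n) ≤ be j <;> simp [ha, hb, h]
  -- the sum
  have hdiag : ∑ n ∈ Ioc N M, ∑ m ∈ Ioc N M, (if n = m then (1:ℝ) else 0) ≤ N := by
    calc ∑ n ∈ Ioc N M, ∑ m ∈ Ioc N M, (if n = m then (1:ℝ) else 0) = ∑ n ∈ Ioc N M, (1:ℝ) := by
          refine sum_congr rfl fun n hn => ?_
          rw [sum_ite_eq, if_pos hn]
      _ = ((M - N : ℕ) : ℝ) := by rw [sum_const, Nat.card_Ioc, nsmul_eq_mul, mul_one]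
      _ ≤ N := by
          have : M - N ≤ N := by omega
          exact_mod_cast this
  have hmain : ∑ n ∈ Ioc N M, ∑ m ∈ Ioc N M, ∑ i ∈ range (I + 1), ∑ j ∈ range (I + 1),
      c i j * (eP t k (al i) (be j) n m + eP t k (al i) (be j) m n) ≤ 1400 * C * (1 + Real.log N) * Q := by
    have hK0 : 0 ≤ C * (1 + Real.log N) * Q := by
      have : 0 ≤ Q := le_trans (by positivity) hQN
      positivity
    have hsw : ∑ n ∈ Ioc N M, ∑ m ∈ Ioc N M, ∑ i ∈ range (I + 1), ∑ j ∈ range (I + 1),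
        c i j * (eP t k (al i) (be j) n m + eP t k (al i) (be j) m n) =
        ∑ i ∈ range (I + 1), ∑ j ∈ range (I + 1), c i j *
          (∑ n ∈ Ioc N M, ∑ m ∈ Ioc N M, eP t k (al i) (be j) n m + ∑ n ∈ Ioc N M, ∑ m ∈ Ioc N M, eP t k (al i) (be j) n m) := by
      have step : ∀ n ∈ Ioc N M, ∑ m ∈ Ioc N M, ∑ i ∈ range (I + 1), ∑ j ∈ range (I + 1),
          c i j * (eP t k (al i) (be j) n m + eP t k (al i) (be j) m n) =
          ∑ i ∈ range (I + 1), ∑ j ∈ range (I + 1), ∑ m ∈ Ioc N M, c i j * (eP t k (al i) (be j) n m + eP t k (al i) (be j) m n) := by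
        intro n _
        rw [sum_comm]
        exact sum_congr rfl fun i _ => sum_comm
      rw [sum_congr rfl step, sum_comm]
      refine sum_congr rfl fun i _ => ?_
      rw [sum_comm]
      refine sum_congr rfl fun j _ => ?_
      have hs : ∑ n ∈ Ioc N M, ∑ m ∈ Ioc N M, eP t k (al i) (be j) m n = ∑ n ∈ Ioc N M, ∑ m ∈ Ioc N M, eP t k (al i) (be j) n m := sum_comm
      calc ∑ n ∈ Ioc N M, ∑ m ∈ Ioc N M, c i j * (eP t k (al i) (be j) n m + eP t k (al i) (be j) m n)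
          = c i j * (∑ n ∈ Ioc N M, ∑ m ∈ Ioc N M, eP t k (al i) (be j) n m + ∑ n ∈ Ioc N M, ∑ m ∈ Ioc N M, eP t k (al i) (be j) m n) := by
            simp_rw [← mul_sum, sum_add_distrib]
        _ = _ := by rw [hs]
    rw [hsw]
    calc ∑ i ∈ range (I + 1), ∑ j ∈ range (I + 1), c i j *
          (∑ n ∈ Ioc N M, ∑ m ∈ Ioc N M, eP t k (al i) (be j) n m + ∑ n ∈ Ioc N M, ∑ m ∈ Ioc N M, eP t k (al i) (be j) n m)
        ≤ ∑ i ∈ range (I + 1), ∑ j ∈ range (I + 1), c i j * (2 * (C * (1 + Real.log N) * ((2 ^ i) ^ 2 * (2 ^ j) ^ 3) * Q)) := by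
          refine sum_le_sum fun i _ => sum_le_sum fun j _ => mul_le_mul_of_nonneg_left ?_ (hc0 i j)
          have := hcard i j
          linarith
      _ = 512 * (C * (1 + Real.log N) * Q) * ((∑ i ∈ range (I + 1), (1 / 4 : ℝ) ^ i) * ∑ j ∈ range (I + 1), (1 / 2 : ℝ) ^ j) := by
          rw [sum_mul_sum, mul_sum]
          refine sum_congr rfl fun i _ => ?_
          rw [mul_sum]
          refine sum_congr rfl fun j _ => ?_
          have e1 : (1 / 16 : ℝ) ^ i * (2 ^ i) ^ 2 = (1 / 4) ^ i := by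
            rw [← pow_mul, mul_comm i 2, pow_mul, ← mul_pow]; norm_num
          have e2 : (1 / 16 : ℝ) ^ j * (2 ^ j) ^ 3 = (1 / 2) ^ j := by
            rw [← pow_mul, mul_comm j 3, pow_mul, ← mul_pow]; norm_num
          rw [hc, ← e1, ← e2]
          ring
      _ ≤ 512 * (C * (1 + Real.log N) * Q) * (4 / 3 * 2) := by
          refine mul_le_mul_of_nonneg_left ?_ (by positivity)
          exact mul_le_mul (wtH_g4 _) (wtH_g2 _) (sum_nonneg fun _ _ => by positivity) (by norm_num)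
      _ ≤ 1400 * C * (1 + Real.log N) * Q := by nlinarith
  calc ∑ n ∈ Ioc N M, ∑ m ∈ Ioc N M, wt V (cz t n (k - 1) - cz t m (k - 1)) ^ 2 * wt W (cz t n k - cz t m k) ^ 2
      ≤ ∑ n ∈ Ioc N M, ∑ m ∈ Ioc N M, ((if n = m then (1:ℝ) else 0) + ∑ i ∈ range (I + 1), ∑ j ∈ range (I + 1),
        c i j * (eP t k (al i) (be j) n m + eP t k (al i) (be j) m n)) := sum_le_sum fun n _ => sum_le_sum fun m _ => hpt n m
    _ = ∑ n ∈ Ioc N M, ∑ m ∈ Ioc N M, (if n = m then (1:ℝ) else 0) + ∑ n ∈ Ioc N M, ∑ m ∈ Ioc N M, ∑ i ∈ range (I + 1), ∑ j ∈ range (I + 1),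
        c i j * (eP t k (al i) (be j) n m + eP t k (al i) (be j) m n) := by
        rw [← sum_add_distrib]
        exact sum_congr rfl fun n _ => sum_add_distrib
    _ ≤ N + 1400 * C * (1 + Real.log N) * Q := add_le_add hdiag hmain
    _ ≤ (1 + 1400 * C) * (1 + Real.log N) * Q := by
        have hQ0 : 0 ≤ Q := le_trans (by positivity) hQN
        have : Q ≤ (1 + Real.log N) * Q := by nlinarith
        nlinarith

end Pool.Agent.Lib.HC
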